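import Pool.Agent.Lib.DI.C.Spec

set_option autoImplicit false

/-!
# Theorem DI, Part C: module Cus, (0.7): all cusps
-/

open Filter Topology

noncomputable section

namespace Pool.Agent.DI.C

private lemma Cus_im (M : ℝ) (n : ℕ) (z : ℂ) : ((n : ℂ) * z / (M : ℂ)).im = n * z.im / M := by
  have h : ((n : ℂ) * z / (M : ℂ)) = (((n : ℝ) / M : ℝ) : ℂ) * z := by
    push_cast
    ring
  rw [h, Complex.im_ofReal_mul]
  ring

private lemma Cus_fib (N' : OO → ℕ) (g : OO → ℂ) (K : ℝ) (hK : ∀ u, ‖g u‖ ≤ K)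
    (hq : ∀ u : OO, u.re ^ 2 + u.im ^ 2 ≤ 2 * (N' u : ℤ)) (n : ℕ) :
    ‖∑' u : N' ⁻¹' {n}, g u‖ ≤ (4 * n + 1) ^ 2 * K := by
  classical
  have hK0 : 0 ≤ K := (norm_nonneg _).trans (hK 0)
  set F : Finset OO := (Finset.Icc (-(2 * n : ℤ)) (2 * n) ×ˢ Finset.Icc (-(2 * n : ℤ)) (2 * n)).image
    (fun p : ℤ × ℤ => (⟨p.1, p.2⟩ : OO)) with hF
  have hmem : ∀ u : OO, N' u = n → u ∈ F := by
    intro u hu
    have h1 := hq u
    rw [hu] at h1
    have hre : -(2 * n : ℤ) ≤ u.re ∧ u.re ≤ 2 * n := by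
      constructor <;> nlinarith [sq_nonneg u.re, sq_nonneg u.im, Int.natCast_nonneg n,
        sq_nonneg (u.re - 1), sq_nonneg (u.re + 1)]
    have him : -(2 * n : ℤ) ≤ u.im ∧ u.im ≤ 2 * n := by
      constructor <;> nlinarith [sq_nonneg u.re, sq_nonneg u.im, Int.natCast_nonneg n,
        sq_nonneg (u.im - 1), sq_nonneg (u.im + 1)]
    rw [hF, Finset.mem_image]
    exact ⟨(u.re, u.im), Finset.mem_product.2 ⟨Finset.mem_Icc.2 hre, Finset.mem_Icc.2 him⟩, rfl⟩
  have hcard : (F.card : ℝ) ≤ (4 * n + 1) ^ 2 := by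
    have h1 : F.card ≤ (4 * n + 1) * (4 * n + 1) := by
      refine Finset.card_image_le.trans ?_
      rw [Finset.card_product, Int.card_Icc]
      have h2 : (2 * (n : ℤ) + 1 - -(2 * n)).toNat = 4 * n + 1 := by omega
      rw [h2]
    have h3 : (F.card : ℝ) ≤ ((4 * n + 1) * (4 * n + 1) : ℕ) := by exact_mod_cast h1
    refine h3.trans (le_of_eq ?_)
    push_cast
    ring
  rw [tsum_subtype (N' ⁻¹' {n}) g, tsum_eq_sum (s := F)]
  · refine (norm_sum_le_of_le F (fun u _ => (?_ : _ ≤ K))).trans ?_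
    · by_cases hu : u ∈ N' ⁻¹' {n}
      · rw [Set.indicator_of_mem hu]
        exact hK u
      · rw [Set.indicator_of_notMem hu, norm_zero]
        exact hK0
    · rw [Finset.sum_const, nsmul_eq_mul]
      exact mul_le_mul_of_nonneg_right hcard hK0
  · intro u hu
    exact Set.indicator_of_notMem (s := N' ⁻¹' {n}) (fun h => hu (hmem u h)) g

private lemma Cus_series (hS : S_Sum) (M : ℝ) (hM : 0 < M) (N' : OO → ℕ) (g : OO → ℂ)
    (h0 : ∀ u, N' u = 0 → g u = 0)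
    (hs : ∀ t : ℝ, 0 < t → Summable fun u => ‖g u‖ * Real.exp (-t * N' u))
    (K : ℝ) (hK : ∀ u, ‖g u‖ ≤ K) (hq : ∀ u : OO, u.re ^ 2 + u.im ^ 2 ≤ 2 * (N' u : ℤ)) :
    ∃ (e : ℕ → ℂ) (C : ℝ), e 0 = 0 ∧ (∀ n : ℕ, ‖e n‖ ≤ C * ((n : ℝ) + 1) ^ 3) ∧
      (∀ z : ℂ, 0 < z.im → HasSum (fun n : ℕ => e n * ex (n * z / M))
        (∑' u, g u * ex (N' u * z / M))) ∧
      (∀ z : ℂ, 1 ≤ z.im → ‖∑' u, g u * ex (N' u * z / M)‖
        ≤ C * Real.exp (-2 * Real.pi * z.im / M)) := by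
  have hnorm : ∀ (z : ℂ) (u : OO), ‖g u * ex (N' u * z / M)‖
      = ‖g u‖ * Real.exp (-(2 * Real.pi * z.im / M) * N' u) := by
    intro z u
    rw [norm_mul, hS.2.1, Cus_im]
    congr 2
    ring
  have hsum : ∀ z : ℂ, 0 < z.im → Summable fun u => g u * ex (N' u * z / M) := by
    intro z hz
    apply Summable.of_norm
    simp only [hnorm]
    exact hs _ (by positivity)
  have hK0 : 0 ≤ K := (norm_nonneg _).trans (hK 0)
  refine ⟨fun n => ∑' u : N' ⁻¹' {n}, g u, max (16 * K)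
    ((∑' u, ‖g u‖ * Real.exp (-(2 * Real.pi / M) * N' u)) * Real.exp (2 * Real.pi / M)),
    ?_, ?_, ?_, ?_⟩
  · have h1 : (fun u : N' ⁻¹' {0} => g u) = fun _ => 0 := by
      funext u
      exact h0 _ u.2
    simp only [h1, tsum_zero]
  · intro n
    refine (Cus_fib N' g K hK hq n).trans ?_
    have h1 : (0 : ℝ) ≤ n := Nat.cast_nonneg n
    calc (4 * (n : ℝ) + 1) ^ 2 * K ≤ (16 * (n + 1) ^ 3) * K := by
          refine mul_le_mul_of_nonneg_right ?_ hK0
          nlinarith [mul_nonneg h1 h1, mul_nonneg (mul_nonneg h1 h1) h1]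
      _ = 16 * K * (n + 1) ^ 3 := by ring
      _ ≤ _ := mul_le_mul_of_nonneg_right (le_max_left _ _) (by positivity)
  · intro z hz
    have h1 := (hsum z hz).hasSum.tsum_fiberwise N'
    have he : (fun n : ℕ => (∑' u : N' ⁻¹' {n}, g u) * ex (n * z / M)) =
        fun c : ℕ => ∑' b : N' ⁻¹' {c}, g b * ex (N' b * z / M) := by
      funext n
      rw [← tsum_mul_right]
      refine tsum_congr fun b => ?_
      have hb : N' b = n := b.2
      rw [hb]
    show HasSum (fun n : ℕ => (∑' u : N' ⁻¹' {n}, g u) * ex (n * z / M)) _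
    rw [he]
    exact h1
  · intro z hz
    have h2 : ∀ u, ‖g u * ex (N' u * z / M)‖ ≤
        ‖g u‖ * Real.exp (-(2 * Real.pi / M) * N' u) * (Real.exp (2 * Real.pi / M) *
          Real.exp (-2 * Real.pi * z.im / M)) := by
      intro u
      rw [hnorm]
      rcases Nat.eq_zero_or_pos (N' u) with h | h
      · rw [h0 u h]
        simp
      · rw [mul_assoc (‖g u‖) (Real.exp (-(2 * Real.pi / M) * N' u))]
        refine mul_le_mul_of_nonneg_left ?_ (norm_nonneg _)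
        rw [← Real.exp_add, ← Real.exp_add]
        apply Real.exp_le_exp.2
        have h3 : (1 : ℝ) ≤ N' u := by exact_mod_cast h
        have h4 : 0 ≤ (2 * Real.pi / M) * ((z.im - 1) * (N' u - 1)) := by
          apply mul_nonneg (by positivity)
          exact mul_nonneg (by linarith) (by linarith)
        have h5 : -(2 * Real.pi / M) * N' u + (2 * Real.pi / M + -2 * Real.pi * z.im / M) -
            (-(2 * Real.pi * z.im / M) * N' u) =
            (2 * Real.pi / M) * ((z.im - 1) * (N' u - 1)) := by ring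
        linarith
    have h6 := ((hs (2 * Real.pi / M) (by positivity)).mul_right (Real.exp (2 * Real.pi / M) *
          Real.exp (-2 * Real.pi * z.im / M))).hasSum
    have h7 := tsum_of_norm_bounded h6 h2
    rw [tsum_mul_right, ← mul_assoc] at h7
    exact h7.trans (mul_le_mul_of_nonneg_right (le_max_right _ _) (Real.exp_pos _).le)

private lemma Cus_mob_im (a b c d : ℤ) (h : a * d - b * c = 1) (z : ℂ) (hz : 0 < z.im)
    (hc : (c : ℂ) * z + d ≠ 0) : 0 < (mob a b c d z).im := by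
  have h1 : (mob a b c d z).im = z.im / Complex.normSq ((c : ℂ) * z + d) := by
    unfold mob
    rw [Complex.div_im, ← sub_div]
    congr 1
    simp only [Complex.add_re, Complex.add_im, Complex.mul_re, Complex.mul_im, Complex.intCast_re,
      Complex.intCast_im]
    have h2 : ((a : ℝ) * d - b * c) = 1 := by exact_mod_cast h
    linear_combination z.im * h2
  rw [h1]
  exact div_pos hz (Complex.normSq_pos.2 hc)

private lemma Cus_ne (c d : ℤ) (hc : c ≠ 0) (z : ℂ) (hz : 0 < z.im) : (c : ℂ) * z + d ≠ 0 := by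
  intro h
  have h1 := congrArg Complex.im h
  simp only [Complex.add_im, Complex.mul_im, Complex.intCast_re, Complex.intCast_im, zero_mul,
    add_zero, Complex.zero_im, mul_eq_zero, Int.cast_eq_zero] at h1
  rcases h1 with h1 | h1
  · exact hc h1
  · exact hz.ne' h1

private lemma Cus_mob_deriv (a b c d : ℤ) (h : a * d - b * c = 1) (z : ℂ)
    (hc : (c : ℂ) * z + d ≠ 0) : HasDerivAt (mob a b c d) (1 / ((c : ℂ) * z + d) ^ 2) z := by
  have h1 : HasDerivAt (fun w : ℂ => (a : ℂ) * w + b) a z := by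
    simpa using ((hasDerivAt_id z).const_mul (a : ℂ)).add_const (b : ℂ)
  have h2 : HasDerivAt (fun w : ℂ => (c : ℂ) * w + d) c z := by
    simpa using ((hasDerivAt_id z).const_mul (c : ℂ)).add_const (d : ℂ)
  have h3 := h1.div h2 hc
  refine h3.congr_deriv ?_
  have h4 : ((a : ℂ) * d - b * c) = 1 := by exact_mod_cast h
  congr 1
  linear_combination h4

/-- the norm as a natural number -/
private def Cus_N (u : OO) : ℕ := (Nm u).toNat

private lemma Cus_N_int (hB : S_Bas) (u : OO) : ((Cus_N u : ℕ) : ℤ) = Nm u :=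
  Int.toNat_of_nonneg (hB.2.2.2.2.2.1 u).1

private lemma Cus_N_C (hB : S_Bas) (u : OO) : ((Cus_N u : ℕ) : ℂ) = (Nm u : ℂ) := by
  rw [← Cus_N_int hB u]
  push_cast
  rfl

private lemma Cus_N_R (hB : S_Bas) (u : OO) : ((Cus_N u : ℕ) : ℝ) = (Nm u : ℝ) := by
  rw [← Cus_N_int hB u]
  push_cast
  rfl

private lemma Cus_N_zero (hB : S_Bas) (u : OO) : Cus_N u = 0 ↔ u = 0 := by
  rw [← (hB.2.2.2.2.2.1 u).2.1, ← Cus_N_int hB u]
  exact_mod_cast Iff.rfl

private lemma Cus_summable (hB : S_Bas) (hS : S_Sum) (γ : OO → ℂ) (C : ℝ)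
    (hγ : ∀ u, ‖γ u‖ ≤ C * (1 + Nm u)) (t : ℝ) (ht : 0 < t) :
    Summable fun u => ‖γ u‖ * Real.exp (-t * Cus_N u) := by
  refine Summable.of_nonneg_of_le (fun u => by positivity) (fun u => ?_)
    ((hS.1 t 1 ht).mul_left C)
  rw [Cus_N_R hB, pow_one, ← mul_assoc]
  refine mul_le_mul_of_nonneg_right ?_ (Real.exp_pos _).le
  rw [add_comm (Nm u : ℝ) 1]
  exact hγ u

private lemma Cus_psi (hB : S_Bas) (hS : S_Sum) (M : ℝ) (hM : 0 < M) (γ : OO → ℂ) (C : ℝ)
    (hγ : ∀ u, ‖γ u‖ ≤ C * (1 + Nm u)) (hγ0 : γ 0 = 0) (z : ℂ) (hz : 0 < z.im) :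
    HasDerivAt (fun w => ∑' u, γ u * (M / (Cus_N u : ℂ)) * ex (Cus_N u * w / M))
      (∑' u, 2 * Real.pi * Complex.I * γ u * ex (Cus_N u * z / M)) z := by
  have hsm := Cus_summable hB hS γ C hγ
  have hMC : (M : ℂ) ≠ 0 := by exact_mod_cast hM.ne'
  have ht : IsOpen {w : ℂ | z.im / 2 < w.im} := isOpen_lt continuous_const Complex.continuous_im
  have hp : IsPreconnected {w : ℂ | z.im / 2 < w.im} := (convex_halfSpace_im_gt _).isPreconnected
  have hu : Summable fun u => 2 * Real.pi * (‖γ u‖ * Real.exp (-(2 * Real.pi * (z.im / 2) / M) *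
      Cus_N u)) := (hsm _ (by positivity)).mul_left _
  refine hasDerivAt_tsum_of_isPreconnected (F := ℂ)
    (g := fun u w => γ u * (M / (Cus_N u : ℂ)) * ex (Cus_N u * w / M))
    (g' := fun u w => 2 * Real.pi * Complex.I * γ u * ex (Cus_N u * w / M))
    (t := {w : ℂ | z.im / 2 < w.im}) (y₀ := z) hu ht hp ?_ ?_ ?_ ?_ ?_
  · intro u w _
    have h1 : HasDerivAt (fun w : ℂ => 2 * Real.pi * Complex.I * ((Cus_N u : ℂ) * w / M))
        (2 * Real.pi * Complex.I * ((Cus_N u : ℂ) / M)) w := by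
      have := (((hasDerivAt_id w).const_mul (Cus_N u : ℂ)).div_const (M : ℂ)).const_mul
        (2 * Real.pi * Complex.I)
      simpa using this
    have h2 := (h1.cexp).const_mul (γ u * (M / (Cus_N u : ℂ)))
    refine h2.congr_deriv ?_
    unfold ex
    rcases Nat.eq_zero_or_pos (Cus_N u) with h | h
    · rw [(Cus_N_zero hB u).1 h, hγ0]
      simp
    · have h3 : (Cus_N u : ℂ) ≠ 0 := by exact_mod_cast h.ne'
      field_simp
  · intro u w hw
    rw [norm_mul, norm_mul, hS.2.1, Cus_im]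
    have h1 : ‖(2 * Real.pi * Complex.I : ℂ)‖ = 2 * Real.pi := by
      rw [norm_mul, norm_mul, Complex.norm_I, Complex.norm_real]
      simp [abs_of_pos Real.pi_pos]
    rw [h1, mul_assoc (2 * Real.pi)]
    refine mul_le_mul_of_nonneg_left ?_ (by positivity)
    refine mul_le_mul_of_nonneg_left ?_ (norm_nonneg _)
    apply Real.exp_le_exp.2
    have h2 : z.im / 2 < w.im := hw
    have h3 : 0 ≤ (2 * Real.pi / M) * ((w.im - z.im / 2) * Cus_N u) := by
      apply mul_nonneg (by positivity)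
      exact mul_nonneg (by linarith) (Nat.cast_nonneg _)
    have h4 : -(2 * Real.pi * (z.im / 2) / M) * Cus_N u - -2 * Real.pi * (Cus_N u * w.im / M)
        = (2 * Real.pi / M) * ((w.im - z.im / 2) * Cus_N u) := by ring
    linarith
  · show z.im / 2 < z.im
    linarith
  · refine Summable.of_norm_bounded ((hsm (2 * Real.pi * z.im / M) (by positivity)).mul_left M) ?_
    intro u
    rw [norm_mul, norm_mul, hS.2.1, Cus_im, ← mul_assoc]
    have h1 : -2 * Real.pi * (Cus_N u * z.im / M) = -(2 * Real.pi * z.im / M) * Cus_N u := by ring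
    rw [h1]
    refine mul_le_mul_of_nonneg_right ?_ (Real.exp_pos _).le
    rw [mul_comm]
    refine mul_le_mul_of_nonneg_right ?_ (norm_nonneg _)
    rw [norm_div, Complex.norm_real, Real.norm_of_nonneg hM.le]
    rcases Nat.eq_zero_or_pos (Cus_N u) with h | h
    · rw [h]
      simpa using hM.le
    · have h3 : (1 : ℝ) ≤ Cus_N u := by exact_mod_cast h
      rw [Complex.norm_natCast]
      exact div_le_self hM.le h3
  · show z.im / 2 < z.im
    linarith

private lemma Cus_BB (hS : S_Sum) (ρ : OO → ℂ) (C : ℝ) (hC : ∀ v, ‖ρ v‖ ≤ C) (f : ℕ)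
    (a d : ℤ) (c : ℕ) (u : OO) : ‖BB ρ f a d c u‖ ≤ (f * c : ℕ) * ((f * c : ℕ) * C) := by
  unfold BB rsum
  have h1 : ∀ v : OO, ‖ρ v * ex (a * Nm v / c - (v * cjO u).im / (f * c)
      + d * Nm u / (7 * f ^ 2 * c))‖ ≤ C := by
    intro v
    rw [norm_mul, hS.2.1]
    have h2 : ((a : ℂ) * Nm v / c - ((v * cjO u).im : ℂ) / (f * c)
        + d * Nm u / (7 * f ^ 2 * c)) = (((a : ℝ) * Nm v / c - ((v * cjO u).im : ℝ) / (f * c)
        + d * Nm u / (7 * f ^ 2 * c) : ℝ) : ℂ) := by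
      push_cast
      rfl
    rw [h2, Complex.ofReal_im]
    simpa using hC v
  refine (norm_sum_le_of_le _ (fun x _ => norm_sum_le_of_le _ (fun y _ => h1 _))).trans ?_
  simp

private lemma Cus_toC (hB : S_Bas) (u : OO) : ‖toC (cjO u)‖ ≤ 1 + Nm u := by
  have h1 : ‖toC (cjO u)‖ ^ 2 = (Nm u : ℝ) := by
    rw [hB.1, (hB.2.2.2.2.1 u).2.1]
  nlinarith [sq_nonneg (‖toC (cjO u)‖ - 1), norm_nonneg (toC (cjO u))]

/-- the case `c > 0` -/
private lemma Cus_pos (hB : S_Bas) (hS : S_Sum) (hG : S_Gen) (hD : S_Der) (f : ℕ) (a b d : ℤ)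
    (c : ℕ) (ρ : OO → ℂ) (hf : 0 < f) (hc : 0 < c) (hdet : a * d - b * c = 1) (hρ : PerO f ρ) :
    ∃ (k : ℂ) (e : ℕ → ℂ) (C : ℝ), e 0 = 0 ∧ (∀ n : ℕ, ‖e n‖ ≤ C * ((n : ℝ) + 1) ^ 3) ∧
      (∀ z : ℂ, 0 < z.im → HasSum (fun n : ℕ => e n * ex (n * z / (7 * f ^ 2)))
        (Th ρ (mob a b c d z) - k)) ∧
      (∀ z : ℂ, 1 ≤ z.im → ‖Th ρ (mob a b c d z) - k‖ ≤
        C * Real.exp (-2 * Real.pi * z.im / (7 * f ^ 2))) := by
  obtain ⟨C0, hC0, hC⟩ := hS.2.2 f ρ hf hρ
  set M : ℝ := 7 * f ^ 2 with hMdef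
  have hfR : (0 : ℝ) < f := by exact_mod_cast hf
  have hM : 0 < M := by positivity
  have hMC : (M : ℂ) = 7 * (f : ℂ) ^ 2 := by
    rw [hMdef]
    push_cast
    rfl
  have hcC : (c : ℂ) ≠ 0 := by exact_mod_cast hc.ne'
  have hfC : (f : ℂ) ≠ 0 := by exact_mod_cast hf.ne'
  have hcZ : (c : ℤ) ≠ 0 := by exact_mod_cast hc.ne'
  obtain ⟨γ, hγdef⟩ : ∃ γ : OO → ℂ, ∀ u, γ u =
      -1 / (14 * f ^ 3 * c) * (toC (cjO u) * BB ρ f a d c u) := ⟨_, fun _ => rfl⟩
  obtain ⟨C1, hC1⟩ : ∃ C1 : ℝ, ∀ u, ‖γ u‖ ≤ C1 * (1 + Nm u) := by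
    refine ⟨‖(-1 / (14 * f ^ 3 * c) : ℂ)‖ * ((f * c : ℕ) * ((f * c : ℕ) * C0)), fun u => ?_⟩
    rw [hγdef, norm_mul, norm_mul, mul_assoc ‖(-1 / (14 * f ^ 3 * c) : ℂ)‖]
    refine mul_le_mul_of_nonneg_left ?_ (norm_nonneg (-1 / (14 * f ^ 3 * c) : ℂ))
    rw [mul_comm]
    exact mul_le_mul (Cus_BB hS ρ C0 hC f a d c u) (Cus_toC hB u) (norm_nonneg _) (by positivity)
  have hγ0 : γ 0 = 0 := by
    rw [hγdef]
    have : cjO 0 = 0 := rfl
    rw [this, map_zero, zero_mul, mul_zero]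
  obtain ⟨g, hgdef⟩ : ∃ g : OO → ℂ, ∀ u, g u = γ u * (M / (Cus_N u : ℂ)) := ⟨_, fun _ => rfl⟩
  have hsm := Cus_summable hB hS γ C1 hC1
  have hC10 : 0 ≤ C1 := by
    have h1 := (norm_nonneg _).trans (hC1 0)
    have h2 : (Nm (0 : OO) : ℝ) = 0 := by
      have : Nm (0 : OO) = 0 := (hB.2.2.2.2.2.1 0).2.1.2 rfl
      rw [this, Int.cast_zero]
    rw [h2] at h1
    linarith
  have hgK : ∀ u, ‖g u‖ ≤ 2 * C1 * M := by
    intro u
    rw [hgdef, norm_mul, norm_div, Complex.norm_real, Real.norm_of_nonneg hM.le,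
      Complex.norm_natCast]
    rcases Nat.eq_zero_or_pos (Cus_N u) with h | h
    · rw [h, Nat.cast_zero, div_zero, mul_zero]
      positivity
    · have h3 : (1 : ℝ) ≤ Cus_N u := by exact_mod_cast h
      have h4 : ‖γ u‖ ≤ C1 * (2 * Cus_N u) := by
        refine (hC1 u).trans (mul_le_mul_of_nonneg_left ?_ hC10)
        rw [← Cus_N_R hB]
        linarith
      have h5 : (0 : ℝ) < Cus_N u := by linarith
      rw [← mul_div_assoc, div_le_iff₀ h5]
      calc ‖γ u‖ * M ≤ C1 * (2 * Cus_N u) * M := mul_le_mul_of_nonneg_right h4 hM.le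
        _ = 2 * C1 * M * Cus_N u := by ring
  have hq : ∀ u : OO, u.re ^ 2 + u.im ^ 2 ≤ 2 * ((Cus_N u : ℕ) : ℤ) := by
    intro u
    rw [Cus_N_int hB]
    exact (hB.2.2.2.2.2.1 u).2.2
  obtain ⟨e, C, he0, hen, he1, he2⟩ := Cus_series hS M hM Cus_N g (fun u hu => by
      rw [hgdef, (Cus_N_zero hB u).1 hu, hγ0, zero_mul]) (fun t ht => by
      refine Summable.of_nonneg_of_le (fun u => by positivity) (fun u => ?_) ((hsm t ht).mul_left M)
      rw [← mul_assoc]
      refine mul_le_mul_of_nonneg_right ?_ (Real.exp_pos _).le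
      rw [hgdef, norm_mul, mul_comm]
      refine mul_le_mul_of_nonneg_right ?_ (norm_nonneg _)
      rw [norm_div, Complex.norm_real, Real.norm_of_nonneg hM.le]
      rcases Nat.eq_zero_or_pos (Cus_N u) with h | h
      · rw [h]
        simpa using hM.le
      · have h3 : (1 : ℝ) ≤ Cus_N u := by exact_mod_cast h
        rw [Complex.norm_natCast]
        exact div_le_self hM.le h3) (2 * C1 * M) hgK hq
  have hpsi : ∀ z : ℂ, 0 < z.im → HasDerivAt (fun w => ∑' u, g u * ex (Cus_N u * w / M))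
      (∑' u, 2 * Real.pi * Complex.I * γ u * ex (Cus_N u * z / M)) z := by
    intro z hz
    have := Cus_psi hB hS M hM γ C1 hC1 hγ0 z hz
    simpa only [hgdef] using this
  have hTh : ∀ z : ℂ, 0 < z.im → HasDerivAt (fun w => Th ρ (mob a b c d w))
      (∑' u, 2 * Real.pi * Complex.I * γ u * ex (Cus_N u * z / M)) z := by
    intro z hz
    have hne := Cus_ne c d hcZ z hz
    have h1 := (hD f ρ hf hρ).1 _ (Cus_mob_im a b c d hdet z hz hne)
    have h2 := h1.comp z (Cus_mob_deriv a b c d hdet z hne)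
    refine h2.congr_deriv ?_
    rw [hG f c a b d ρ z hf hc hρ hdet hz]
    have h3 : ∀ u : OO, 2 * Real.pi * Complex.I * γ u * ex (Cus_N u * z / M) =
        (2 * Real.pi * Complex.I * (-1 / (14 * f ^ 3 * c))) *
          (toC (cjO u) * ex (Nm u * z / (7 * f ^ 2)) * BB ρ f a d c u) := by
      intro u
      rw [hγdef, hMC, Cus_N_C hB]
      ring
    simp only [h3]
    rw [tsum_mul_left]
    have hne' : ((c : ℂ) * z + d) ≠ 0 := by exact_mod_cast hne
    have hcast : (((c : ℕ) : ℤ) : ℂ) = (c : ℂ) := by push_cast; rfl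
    rw [hcast]
    generalize (∑' u : OO, toC (cjO u) * ex (Nm u * z / (7 * f ^ 2)) * BB ρ f a d c u) = S
    field_simp
    ring
  have hconst : ∀ z : ℂ, 0 < z.im →
      Th ρ (mob a b c d z) - ∑' u, g u * ex (Cus_N u * z / M) =
      Th ρ (mob a b c d Complex.I) - ∑' u, g u * ex (Cus_N u * Complex.I / M) := by
    intro z hz
    have hd : ∀ w : ℂ, 0 < w.im → HasDerivAt (fun w => Th ρ (mob a b c d w) -
        ∑' u, g u * ex (Cus_N u * w / M)) 0 w := by
      intro w hw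
      have := (hTh w hw).sub (hpsi w hw)
      rw [sub_self] at this
      exact this
    have ho : IsOpen {w : ℂ | 0 < w.im} := isOpen_lt continuous_const Complex.continuous_im
    have hp : IsPreconnected {w : ℂ | 0 < w.im} := (convex_halfSpace_im_gt _).isPreconnected
    exact ho.is_const_of_deriv_eq_zero hp
      (fun w hw => (hd w hw).differentiableAt.differentiableWithinAt)
      (fun w hw => (hd w hw).deriv) (show z ∈ {w : ℂ | 0 < w.im} from hz)
      (show Complex.I ∈ {w : ℂ | 0 < w.im} by simp)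
  refine ⟨Th ρ (mob a b c d Complex.I) - ∑' u, g u * ex (Cus_N u * Complex.I / M), e, C, he0,
    hen, fun z hz => ?_, fun z hz => ?_⟩
  · have h1 : Th ρ (mob a b c d z) - (Th ρ (mob a b c d Complex.I) -
        ∑' u, g u * ex (Cus_N u * Complex.I / M)) = ∑' u, g u * ex (Cus_N u * z / M) := by
      rw [← hconst z hz]
      ring
    rw [h1, ← hMC]
    exact he1 z hz
  · have h1 : Th ρ (mob a b c d z) - (Th ρ (mob a b c d Complex.I) -
        ∑' u, g u * ex (Cus_N u * Complex.I / M)) = ∑' u, g u * ex (Cus_N u * z / M) := by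
      rw [← hconst z (by linarith)]
      ring
    rw [h1]
    exact he2 z hz

private lemma Cus_ex_add (z w : ℂ) : ex (z + w) = ex z * ex w := by
  unfold ex
  rw [← Complex.exp_add]
  congr 1
  ring

private lemma Cus_ex_int (n : ℤ) : ex (n : ℂ) = 1 := by
  unfold ex
  rw [Complex.exp_eq_one_iff]
  exact ⟨n, by ring⟩

private lemma Cus_Th_add (ρ : OO → ℂ) (z : ℂ) (n : ℤ) : Th ρ (z + n) = Th ρ z := by
  unfold Th
  congr 1
  refine tsum_congr fun v => ?_
  have h1 : (Nm v : ℂ) * (z + n) = Nm v * z + ((Nm v * n : ℤ) : ℂ) := by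
    push_cast
    ring
  rw [h1, Cus_ex_add, Cus_ex_int, mul_one]

/-- the case `c = 0` -/
private lemma Cus_zero (hB : S_Bas) (hS : S_Sum) (f : ℕ) (a b d : ℤ)
    (ρ : OO → ℂ) (hf : 0 < f) (hdet : a * d - b * 0 = 1) (hρ : PerO f ρ) :
    ∃ (k : ℂ) (e : ℕ → ℂ) (C : ℝ), e 0 = 0 ∧ (∀ n : ℕ, ‖e n‖ ≤ C * ((n : ℝ) + 1) ^ 3) ∧
      (∀ z : ℂ, 0 < z.im → HasSum (fun n : ℕ => e n * ex (n * z / (7 * f ^ 2)))
        (Th ρ (mob a b 0 d z) - k)) ∧
      (∀ z : ℂ, 1 ≤ z.im → ‖Th ρ (mob a b 0 d z) - k‖ ≤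
        C * Real.exp (-2 * Real.pi * z.im / (7 * f ^ 2))) := by
  obtain ⟨C0, hC0, hC⟩ := hS.2.2 f ρ hf hρ
  have hmob : ∀ z : ℂ, Th ρ (mob a b 0 d z) = Th ρ z := by
    intro z
    rcases Int.eq_one_or_neg_one_of_mul_eq_one (show a * d = 1 by linarith) with h | h
    · have hd : d = 1 := by rw [h] at hdet; linarith
      rw [← Cus_Th_add ρ z b]
      congr 1
      unfold mob
      rw [h, hd]
      push_cast
      ring
    · have hd : d = -1 := by rw [h] at hdet; linarith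
      rw [← Cus_Th_add ρ z (-b)]
      congr 1
      unfold mob
      rw [h, hd]
      push_cast
      ring
  set M : ℝ := 7 * f ^ 2 with hMdef
  have hfR : (0 : ℝ) < f := by exact_mod_cast hf
  have hM : 0 < M := by positivity
  have hMC : (M : ℂ) = 7 * (f : ℂ) ^ 2 := by
    rw [hMdef]
    push_cast
    rfl
  have hMC0 : (M : ℂ) ≠ 0 := by exact_mod_cast hM.ne'
  obtain ⟨g, hgdef⟩ : ∃ g : OO → ℂ, ∀ u, g u = 1 / 2 * (ρ u / toC u) := ⟨_, fun _ => rfl⟩
  have hN0 : ∀ u, 7 * f ^ 2 * Cus_N u = 0 → u = 0 := by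
    intro u hu
    rcases Nat.mul_eq_zero.1 hu with h | h
    · have : 0 < 7 * f ^ 2 := by positivity
      omega
    · exact (Cus_N_zero hB u).1 h
  have hg1 : ∀ u, ‖g u‖ ≤ C0 := by
    intro u
    rw [hgdef, norm_mul, norm_div (ρ u)]
    have h2 : ‖ρ u‖ / ‖toC u‖ ≤ C0 := by
      by_cases hu : u = 0
      · rw [hu, map_zero, norm_zero, div_zero]
        exact hC0
      · have h3 : (1 : ℤ) ≤ Nm u := by
          rcases (hB.2.2.2.2.2.1 u).1.lt_or_eq with h | h
          · exact h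
          · exact absurd ((hB.2.2.2.2.2.1 u).2.1.1 h.symm) hu
        have h4 : (1 : ℝ) ≤ ‖toC u‖ ^ 2 := by
          rw [hB.1]
          exact_mod_cast h3
        have h5 : 1 ≤ ‖toC u‖ := by nlinarith [norm_nonneg (toC u)]
        exact (div_le_self (norm_nonneg _) h5).trans (hC u)
    have h6 : 0 ≤ ‖ρ u‖ / ‖toC u‖ := by positivity
    have h7 : ‖(1 / 2 : ℂ)‖ = 1 / 2 := by norm_num
    rw [h7]
    linarith
  have hq : ∀ u : OO, u.re ^ 2 + u.im ^ 2 ≤ 2 * ((7 * f ^ 2 * Cus_N u : ℕ) : ℤ) := by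
    intro u
    have h1 := (hB.2.2.2.2.2.1 u).2.2
    rw [← Cus_N_int hB] at h1
    refine h1.trans ?_
    have h2 : Cus_N u ≤ 7 * f ^ 2 * Cus_N u :=
      Nat.le_mul_of_pos_left _ (by positivity)
    have h3 : ((Cus_N u : ℕ) : ℤ) ≤ ((7 * f ^ 2 * Cus_N u : ℕ) : ℤ) := by exact_mod_cast h2
    linarith
  obtain ⟨e, C, he0, hen, he1, he2⟩ := Cus_series hS M hM (fun u => 7 * f ^ 2 * Cus_N u) g
    (fun u hu => by
      rw [hgdef, hN0 u hu, map_zero, div_zero, mul_zero]) (fun t ht => by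
      refine Summable.of_nonneg_of_le (fun u => by positivity) (fun u => ?_)
        ((hS.1 (t * M) 0 (by positivity)).mul_left C0)
      rw [pow_zero, one_mul]
      have h8 : -t * ((7 * f ^ 2 * Cus_N u : ℕ) : ℝ) = -(t * M) * Nm u := by
        rw [hMdef, ← Cus_N_R hB]
        push_cast
        ring
      rw [h8]
      exact mul_le_mul_of_nonneg_right (hg1 u) (Real.exp_pos _).le) C0 hg1 hq
  have hTh : ∀ z : ℂ, ∑' u, g u * ex ((7 * f ^ 2 * Cus_N u : ℕ) * z / M) = Th ρ z := by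
    intro z
    unfold Th
    rw [← tsum_mul_left]
    refine tsum_congr fun u => ?_
    have h9 : ((7 * f ^ 2 * Cus_N u : ℕ) : ℂ) * z / M = Nm u * z := by
      have hfC : (f : ℂ) ≠ 0 := by exact_mod_cast hf.ne'
      rw [← Cus_N_C hB, hMC]
      push_cast
      field_simp
    rw [h9, hgdef]
    ring
  refine ⟨0, e, C, he0, hen, fun z hz => ?_, fun z hz => ?_⟩
  · rw [sub_zero, hmob, ← hTh, ← hMC]
    exact he1 z hz
  · rw [sub_zero, hmob, ← hTh]
    exact he2 z hz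

/-- (0.7) with a bound for the coefficients. -/
theorem tCusB (hB : S_Bas) (hS : S_Sum) (hG : S_Gen) (hD : S_Der) :
    ∀ (f : ℕ) (a b c d : ℤ) (ρ : OO → ℂ), 0 < f → a * d - b * c = 1 → PerO f ρ →
    ∃ (k : ℂ) (e : ℕ → ℂ) (C : ℝ), e 0 = 0 ∧ (∀ n : ℕ, ‖e n‖ ≤ C * ((n : ℝ) + 1) ^ 3) ∧
    (∀ z : ℂ, 0 < z.im → HasSum (fun n : ℕ => e n * ex (n * z / (7 * f ^ 2)))
      (Th ρ (mob a b c d z) - k)) ∧
    (∀ z : ℂ, 1 ≤ z.im →
      ‖Th ρ (mob a b c d z) - k‖ ≤ C * Real.exp (-2 * Real.pi * z.im / (7 * f ^ 2))) := by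
  intro f a b c d ρ hf hdet hρ
  rcases lt_trichotomy c 0 with hc | hc | hc
  · have h1 : ((-c).toNat : ℤ) = -c := Int.toNat_of_nonneg (by omega)
    have h2 := Cus_pos hB hS hG hD f (-a) (-b) (-d) (-c).toNat ρ hf (by omega)
      (by rw [h1]; linarith) hρ
    rw [h1] at h2
    have h3 : ∀ z, mob (-a) (-b) (-c) (-d) z = mob a b c d z := by
      intro z
      unfold mob
      rw [← neg_div_neg_eq]
      push_cast
      congr 1 <;> ring
    simpa only [h3] using h2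
  · subst hc
    exact Cus_zero hB hS f a b d ρ hf hdet hρ
  · have h1 : ((c.toNat : ℕ) : ℤ) = c := Int.toNat_of_nonneg hc.le
    have h2 := Cus_pos hB hS hG hD f a b d c.toNat ρ hf (by omega) (by rw [h1]; exact hdet) hρ
    rw [h1] at h2
    exact h2

theorem tCus (hB : S_Bas) (hS : S_Sum) (hG : S_Gen) (hD : S_Der) : S_Cus := by
  intro f a b c d ρ hf hdet hρ
  obtain ⟨k, e, C, h1, _, h2, h3⟩ := tCusB hB hS hG hD f a b c d ρ hf hdet hρ
  exact ⟨k, e, C, h1, h2, h3⟩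

end Pool.Agent.DI.C
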