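import Pool.Agent.Lib.DI.C.Spec

/-!
# THEOREM DI, Part C, module EpsB: the multiplier is `ε(d)`, reduction to prime `d`
-/

noncomputable section

namespace Pool.Agent.DI.C

open Filter Topology

/-- Part (A) of the proof of `S_Eps`. -/
def Eps_A : Prop := ∀ (f : ℕ) (a b c : ℤ) (p : ℕ), Odd f → 7 ∣ f → p.Prime → 7 < p →
  jacobiSym p 7 = -1 → a * p - b * c = 1 → (7 * f ^ 2 : ℤ) ∣ c → ∀ κ : ℂ,
  (∀ ρ : OO → ℂ, OddO ρ → PerO f ρ → ∀ z : ℂ, 0 < z.im →
    Gt ρ (mob a b c p z) = κ * ((c : ℂ) * z + p) ^ 2 * Gt (rO ρ ((p : ℤ) : OO)) z) → κ = -1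

private theorem epsB_ex_add (a b : ℂ) : ex (a + b) = ex a * ex b := by
  unfold ex
  rw [← Complex.exp_add]
  congr 1
  ring

private theorem epsB_ex_int (n : ℤ) : ex n = 1 := by
  unfold ex
  rw [Complex.exp_eq_one_iff]
  exact ⟨n, by ring⟩

private theorem epsB_Gt_add (ρ : OO → ℂ) (z : ℂ) (n : ℤ) : Gt ρ (z + n) = Gt ρ z := by
  unfold Gt
  congr 1
  congr 1
  funext v
  have h1 : (Nm v : ℂ) * (z + n) = Nm v * z + ((Nm v * n : ℤ) : ℂ) := by
    push_cast
    ring
  rw [h1, epsB_ex_add, epsB_ex_int, mul_one]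

private theorem epsB_Gt_neg (ρ : OO → ℂ) (hρ : OddO ρ) (d : ℤ) (z : ℂ) :
    Gt (rO ρ ((-d : ℤ) : OO)) z = -Gt (rO ρ (d : OO)) z := by
  unfold Gt
  rw [← mul_neg, ← tsum_neg]
  congr 1
  congr 1
  funext v
  have h1 : rO ρ ((-d : ℤ) : OO) v = -rO ρ (d : OO) v := by
    unfold rO
    have h2 : ((-d : ℤ) : OO) * v = -((d : OO) * v) := by
      rw [Int.cast_neg, neg_mul]
    rw [h2, hρ]
  rw [h1]
  ring

private theorem epsB_mob_neg (a b c d : ℤ) (z : ℂ) : mob (-a) (-b) (-c) (-d) z = mob a b c d z := by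
  unfold mob
  push_cast
  rw [show (-(a : ℂ) * z + -(b : ℂ)) = -((a : ℂ) * z + b) by ring,
    show (-(c : ℂ) * z + -(d : ℂ)) = -((c : ℂ) * z + d) by ring, neg_div_neg_eq]

/-- Case (B). -/
private theorem epsB_minus (hK : S_Kap) (hA : Eps_A) (f : ℕ) (a b c d : ℤ) (hf : Odd f)
    (h7 : 7 ∣ f) (hdet : a * d - b * c = 1) (hc : (7 * f ^ 2 : ℤ) ∣ c) (hd : jacobiSym d 7 = -1)
    (ρ : OO → ℂ) (hodd : OddO ρ) (hper : PerO f ρ) (z : ℂ) (hz : 0 < z.im) :
    Gt ρ (mob a b c d z) = -((c : ℂ) * z + d) ^ 2 * Gt (rO ρ (d : OO)) z := by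
  rcases eq_or_ne c 0 with h0 | h0
  · subst h0
    have had : a * d = 1 := by linarith
    have hcase : (a = 1 ∧ d = 1) ∨ (a = -1 ∧ d = -1) := Int.mul_eq_one_iff_eq_one_or_neg_one.1 had
    rcases hcase with ⟨rfl, rfl⟩ | ⟨rfl, rfl⟩
    · rw [jacobiSym.one_left] at hd
      norm_num at hd
    · have h1 : mob (-1) b 0 (-1) z = z + ((-b : ℤ) : ℂ) := by
        unfold mob
        push_cast
        ring
      have h2 : rO ρ ((1 : ℤ) : OO) = ρ := by
        funext v
        unfold rO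
        rw [Int.cast_one, one_mul]
      rw [h1, epsB_Gt_add, epsB_Gt_neg ρ hodd 1 z, h2]
      push_cast
      ring
  · -- Dirichlet
    have hq : c.natAbs ≠ 0 := Int.natAbs_ne_zero.2 h0
    have hcop : IsCoprime d (c.natAbs : ℤ) := by
      have h1 : IsCoprime d c := ⟨a, -b, by linear_combination hdet⟩
      rw [Int.isCoprime_iff_gcd_eq_one] at h1 ⊢
      rw [← h1, Int.gcd, Int.gcd, Int.natAbs_natCast]
    obtain ⟨p, hp7, hpp, hpd⟩ := Nat.forall_exists_prime_gt_and_zmodEq 7 hq hcop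
    have hdvd : c ∣ (p : ℤ) - d := by
      have h1 : ((c.natAbs : ℤ)) ∣ (p : ℤ) - d := (Int.modEq_iff_dvd.1 hpd.symm)
      exact (Int.natAbs_dvd).1 h1
    obtain ⟨k, hk⟩ := hdvd
    have hpk : (p : ℤ) = d + k * c := by linear_combination hk
    obtain ⟨κ, hκ⟩ := hK f a b c d hf.pos hdet hc
    have h7c : (7 : ℤ) ∣ c := (Dvd.intro _ rfl).trans hc
    have hjac : jacobiSym p 7 = -1 := by
      rw [← hd]
      apply jacobiSym.mod_left'
      obtain ⟨m, hm⟩ := h7c
      rw [hpk, hm]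
      have h1 : d + k * (7 * m) = d + 7 * (k * m) := by ring
      rw [h1]
      exact Int.add_mul_emod_self_left d 7 (k * m)
    have hdet' : a * p - (b + k * a) * c = 1 := by
      rw [hpk]
      linear_combination hdet
    have hκ1 : κ = -1 := by
      refine hA f a (b + k * a) c p hf h7 hpp hp7 hjac hdet' hc κ ?_
      intro ρ' hodd' hper' w hw
      have hw' : 0 < (w + (k : ℂ)).im := by
        rw [Complex.add_im, Complex.intCast_im, add_zero]
        exact hw
      have h1 := hκ ρ' hodd' hper' (w + k) hw'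
      have h2 : mob a b c d (w + k) = mob a (b + k * a) c p w := by
        unfold mob
        rw [hpk]
        push_cast
        congr 1
        · ring
        · ring
      have h3 : rO ρ' (d : OO) = rO ρ' ((p : ℤ) : OO) := by
        funext v
        unfold rO
        have hfc : (f : ℤ) ∣ c := by
          refine (Dvd.intro (7 * (f : ℤ)) ?_).trans hc
          ring
        obtain ⟨m, hm⟩ := hfc
        have h4 : ((p : ℤ) : OO) * v = (d : OO) * v + (f : OO) * (((k * m : ℤ) : OO) * v) := by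
          rw [hpk, hm]
          push_cast
          ring
        rw [h4, hper']
      have h5 : ((c : ℂ) * (w + k) + d) = (c : ℂ) * w + p := by
        have h6 : ((p : ℤ) : ℂ) = ((d + k * c : ℤ) : ℂ) := by rw [hpk]
        push_cast at h6
        rw [h6]
        ring
      rw [h2, epsB_Gt_add, h3, h5] at h1
      exact h1
    rw [hκ ρ hodd hper z hz, hκ1]
    ring

theorem tEpsB (_hB : S_Bas) (hK : S_Kap) (hA : Eps_A) : S_Eps := by
  intro f a b c d ρ z hf h7 hdet hc hodd hper hz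
  have heps : eps (d : OO) = jacobiSym d 7 := by
    unfold eps
    rw [QuadraticAlgebra.re_intCast, QuadraticAlgebra.im_intCast]
    simp
  rw [heps]
  have h7c : (7 : ℤ) ∣ c := (Dvd.intro _ rfl).trans hc
  rcases jacobiSym.trichotomy d 7 with h | h | h
  · exfalso
    have h1 : d.gcd ((7 : ℕ) : ℤ) ≠ 1 := fun h2 => jacobiSym.ne_zero h2 h
    apply h1
    rw [← Int.isCoprime_iff_gcd_eq_one]
    obtain ⟨m, hm⟩ := h7c
    refine ⟨a, -b * m, ?_⟩
    rw [hm] at hdet
    linear_combination hdet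
  · have hneg : jacobiSym (-d) 7 = -1 := by
      rw [jacobiSym.neg d (by decide : Odd 7), h]
      decide
    have h1 := epsB_minus hK hA f (-a) (-b) (-c) (-d) hf h7 (by linear_combination hdet)
      ((dvd_neg).2 hc) hneg ρ hodd hper z hz
    rw [epsB_mob_neg, epsB_Gt_neg ρ hodd] at h1
    rw [h1, h]
    push_cast
    ring
  · rw [epsB_minus hK hA f a b c d hf h7 hdet hc h ρ hodd hper z hz, h]
    push_cast
    ring

end Pool.Agent.DI.C
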