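import Pool.Agent.Lib.DI.C.Spec

/-!
# THEOREM DI, Part C, module Fun: (0.9), (0.10)
-/

set_option autoImplicit false

open Filter Topology

noncomputable section

namespace Pool.Agent.DI.C

private theorem Fun_ex_add (x y : ℂ) : ex (x + y) = ex x * ex y := by
  unfold ex
  rw [mul_add, Complex.exp_add]

private theorem Fun_ex_half (n : ℤ) : ex ((n : ℂ) * (1 / 2)) = if 2 ∣ n then 1 else -1 := by
  unfold ex
  split_ifs with h
  · obtain ⟨m, rfl⟩ := h
    rw [Complex.exp_eq_one_iff]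
    exact ⟨m, by push_cast; ring⟩
  · have h1 : n % 2 = 1 := by omega
    obtain ⟨m, hm⟩ : ∃ m, n = 2 * m + 1 := ⟨n / 2, by omega⟩
    have h2 : 2 * (Real.pi : ℂ) * Complex.I * ((n : ℂ) * (1 / 2)) =
        (m : ℂ) * (2 * Real.pi * Complex.I) + Real.pi * Complex.I := by
      rw [hm]
      push_cast
      ring
    rw [h2, Complex.exp_add, Complex.exp_int_mul_two_pi_mul_I, Complex.exp_pi_mul_I, one_mul]

private theorem Fun_conj_ex (z : ℂ) : (starRingEnd ℂ) (ex z) = ex (-(starRingEnd ℂ) z) := by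
  unfold ex
  rw [← Complex.exp_conj]
  congr 1
  rw [map_mul, map_mul, map_mul, Complex.conj_I, Complex.conj_ofReal, Complex.conj_ofNat]
  ring

private theorem Fun_mul : pO * pbO = (2 : OO) := by
  ext
  · rfl
  · rfl

private theorem Fun_add : pO + pbO = (1 : OO) := by
  ext
  · rfl
  · rfl

private theorem Fun_dvd (v : OO) : (pO ∣ v ∧ pbO ∣ v) ↔ (2 : OO) ∣ v := by
  constructor
  · rintro ⟨h1, h2⟩
    rw [← Fun_mul]
    exact IsCoprime.mul_dvd ⟨1, 1, by rw [one_mul, one_mul, Fun_add]⟩ h1 h2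
  · intro h
    rw [← Fun_mul] at h
    exact ⟨(Dvd.intro _ rfl).trans h, (Dvd.intro_left _ rfl).trans h⟩

private theorem Fun_per {n : ℕ} {ρ : OO → ℂ} (h : PerO n ρ) (a : OO) : PerO n (rO ρ a) := by
  intro v u
  unfold rO
  have h1 : a * (v + n * u) = a * v + n * (a * u) := by ring
  rw [h1, h]

private theorem Fun_odd {ρ : OO → ℂ} (h : OddO ρ) (a : OO) : OddO (rO ρ a) := by
  intro v
  unfold rO
  rw [mul_neg, h]

/-- the sum over the multiples of `a` -/
private theorem Fun_sum (hB : S_Bas) (ρ : OO → ℂ) (z : ℂ) (a : OO) (ha : a ≠ 0) :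
    ∑' v : OO, Set.indicator {v : OO | a ∣ v} (fun v => ρ v / toC v * ex (Nm v * z)) v =
      2 * (toC a)⁻¹ * Th (rO ρ a) (Nm a * z) := by
  obtain ⟨_, _, _, hN, _, _, _, _, _, hinj, _⟩ := hB
  have ha' : toC a ≠ 0 := fun h => ha ((hinj a).1 h)
  have hi : Function.Injective fun u : OO => a * u := by
    intro u u' h
    have h1 : toC a * toC (u - u') = 0 := by
      rw [map_sub, mul_sub, ← map_mul, ← map_mul]
      exact sub_eq_zero.2 (congrArg toC h)
    rcases mul_eq_zero.1 h1 with h2 | h2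
    · exact absurd h2 ha'
    · exact sub_eq_zero.1 ((hinj _).1 h2)
  rw [← hi.tsum_eq (f := Set.indicator {v : OO | a ∣ v} (fun v => ρ v / toC v * ex (Nm v * z)))]
  · unfold Th
    have h2 : (2 : ℂ) * (toC a)⁻¹ * (1 / 2 * ∑' v : OO, rO ρ a v / toC v * ex (Nm v * (Nm a * z))) =
        (toC a)⁻¹ * ∑' v : OO, rO ρ a v / toC v * ex (Nm v * (Nm a * z)) := by ring
    rw [h2, ← tsum_mul_left]
    refine tsum_congr fun u => ?_
    rw [Set.indicator_of_mem (show a * u ∈ {v : OO | a ∣ v} from Dvd.intro _ rfl)]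
    unfold rO
    rw [map_mul, hN, Int.cast_mul]
    have h3 : (Nm a : ℂ) * (Nm u : ℂ) * z = Nm u * (Nm a * z) := by ring
    rw [h3, div_eq_mul_inv, div_eq_mul_inv, mul_inv]
    ring
  · intro v hv
    obtain ⟨u, hu⟩ := Set.mem_of_indicator_ne_zero hv
    exact ⟨u, hu.symm⟩

private theorem Fun_one (hB : S_Bas) (ρ : OO → ℂ) (z : ℂ)
    (h1 : Summable fun v : OO => ρ v / toC v * ex (Nm v * (z / 2)))
    (h2 : Summable fun v : OO => ρ v / toC v * ex (Nm v * ((z + 1) / 2))) :
    Th ρ (z / 2) + Th ρ ((z + 1) / 2) + Th (rO ρ 2) (2 * z)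
      = toC pbO * Th (rO ρ pO) z + toC pO * Th (rO ρ pbO) z := by
  have hB' := hB
  obtain ⟨_, _, _, _, _, _, _, _, _, hinj, hev⟩ := hB'
  have hm := congrArg toC Fun_mul
  rw [map_mul, map_ofNat] at hm
  have hp0 : toC pO ≠ 0 := by
    intro h
    rw [h, zero_mul] at hm
    exact two_ne_zero hm.symm
  have hpb0 : toC pbO ≠ 0 := by
    intro h
    rw [h, mul_zero] at hm
    exact two_ne_zero hm.symm
  have hp : pO ≠ 0 := fun h => hp0 (by rw [h, map_zero])
  have hpb : pbO ≠ 0 := fun h => hpb0 (by rw [h, map_zero])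
  have h20 : (2 : OO) ≠ 0 := fun h => two_ne_zero (α := ℂ) (by rw [← map_ofNat toC 2, h, map_zero])
  have s1 := Fun_sum hB ρ (z / 2) pO hp
  have s2 := Fun_sum hB ρ (z / 2) pbO hpb
  have s3 := Fun_sum hB ρ (z / 2) 2 h20
  have n1 : Nm pO = 2 := rfl
  have n2 : Nm pbO = 2 := rfl
  have n3 : Nm 2 = 4 := rfl
  have e1 : ((2 : ℤ) : ℂ) * (z / 2) = z := by push_cast; ring
  have e3 : ((4 : ℤ) : ℂ) * (z / 2) = 2 * z := by push_cast; ring
  rw [n1, e1] at s1
  rw [n2, e1] at s2
  rw [n3, e3, map_ofNat] at s3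
  have hs : Th ρ (z / 2) + Th ρ ((z + 1) / 2) =
      ∑' v : OO, Set.indicator {v : OO | pO ∣ v} (fun v => ρ v / toC v * ex (Nm v * (z / 2))) v +
      ∑' v : OO, Set.indicator {v : OO | pbO ∣ v} (fun v => ρ v / toC v * ex (Nm v * (z / 2))) v -
      ∑' v : OO, Set.indicator {v : OO | 2 ∣ v} (fun v => ρ v / toC v * ex (Nm v * (z / 2))) v := by
    rw [← (h1.indicator _).tsum_add (h1.indicator _),
      ← ((h1.indicator _).add (h1.indicator _)).tsum_sub (h1.indicator _)]
    unfold Th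
    rw [← mul_add, ← h1.tsum_add h2, ← tsum_mul_left]
    refine tsum_congr fun v => ?_
    have h3 : (Nm v : ℂ) * ((z + 1) / 2) = Nm v * (z / 2) + Nm v * (1 / 2) := by ring
    rw [h3, Fun_ex_add, Fun_ex_half]
    have h4 := hev v
    have h5 := Fun_dvd v
    by_cases c1 : pO ∣ v
    · rw [Set.indicator_of_mem (show v ∈ {v : OO | pO ∣ v} from c1), if_pos (h4.2 (Or.inl c1))]
      by_cases c2 : pbO ∣ v
      · rw [Set.indicator_of_mem (show v ∈ {v : OO | pbO ∣ v} from c2),
          Set.indicator_of_mem (show v ∈ {v : OO | 2 ∣ v} from h5.1 ⟨c1, c2⟩)]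
        ring
      · rw [Set.indicator_of_notMem (show v ∉ {v : OO | pbO ∣ v} from c2),
          Set.indicator_of_notMem (show v ∉ {v : OO | 2 ∣ v} from fun h => c2 (h5.2 h).2)]
        ring
    · rw [Set.indicator_of_notMem (show v ∉ {v : OO | pO ∣ v} from c1),
        Set.indicator_of_notMem (show v ∉ {v : OO | 2 ∣ v} from fun h => c1 (h5.2 h).1)]
      by_cases c2 : pbO ∣ v
      · rw [Set.indicator_of_mem (show v ∈ {v : OO | pbO ∣ v} from c2),
          if_pos (h4.2 (Or.inr c2))]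
        ring
      · rw [Set.indicator_of_notMem (show v ∉ {v : OO | pbO ∣ v} from c2),
          if_neg (fun h => (h4.1 h).elim c1 c2)]
        ring
  rw [hs, s1, s2, s3]
  have i1 : 2 * (toC pO)⁻¹ = toC pbO := by
    rw [← hm]
    field_simp
  have i2 : 2 * (toC pbO)⁻¹ = toC pO := by
    rw [← hm]
    field_simp
  rw [i1, i2]
  ring

private theorem Fun_three (hB : S_Bas) (ρ : OO → ℂ) (z : ℂ) : Th ρ (-(starRingEnd ℂ) z)
    = (starRingEnd ℂ) (Th (fun v => (starRingEnd ℂ) (ρ (cjO v))) z) := by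
  obtain ⟨_, hcj, hcc, _, hNc, _⟩ := hB
  unfold Th
  rw [map_mul, map_div₀, map_one, Complex.conj_ofNat, Complex.conj_tsum]
  congr 1
  let e : OO ≃ OO := ⟨cjO, cjO, fun v => (hcc v v).2.2, fun v => (hcc v v).2.2⟩
  rw [← e.tsum_eq]
  refine tsum_congr fun v => ?_
  change ρ (cjO v) / toC (cjO v) * ex (Nm (cjO v) * -(starRingEnd ℂ) z) = _
  rw [map_mul, map_div₀, Complex.conj_conj, Fun_conj_ex, ← hcj, (hNc v).2.1]
  congr 2
  rw [map_mul, map_intCast]
  ring

private theorem Fun_half : Tendsto (fun y : ℝ => y / 2) (𝓝[>] 0) (𝓝[>] 0) := by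
  refine tendsto_nhdsWithin_of_tendsto_nhds_of_eventually_within _ ?_ ?_
  · have h : Tendsto (fun y : ℝ => y / 2) (𝓝 0) (𝓝 (0 / 2)) := tendsto_id.div_const 2
    rw [zero_div] at h
    exact h.mono_left nhdsWithin_le_nhds
  · filter_upwards [self_mem_nhdsWithin] with y hy
    exact half_pos (Set.mem_Ioi.1 hy)

private theorem Fun_twice : Tendsto (fun y : ℝ => 2 * y) (𝓝[>] 0) (𝓝[>] 0) := by
  refine tendsto_nhdsWithin_of_tendsto_nhds_of_eventually_within _ ?_ ?_
  · have h : Tendsto (fun y : ℝ => 2 * y) (𝓝 0) (𝓝 (2 * 0)) := tendsto_id.const_mul 2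
    rw [mul_zero] at h
    exact h.mono_left nhdsWithin_le_nhds
  · filter_upwards [self_mem_nhdsWithin] with y hy
    exact mul_pos two_pos (Set.mem_Ioi.1 hy)

theorem tFun (hB : S_Bas) (hD : S_Der) (hH : S_Hh) : S_Fun := by
  intro f ρ hf h7 hodd hper
  have hf0 : 0 < f := hf.pos
  have hcj := hB.2.1
  have hcc := hB.2.2.1
  have hsum : ∀ z : ℂ, 0 < z.im → Summable fun v : OO => ρ v / toC v * ex (Nm v * z) :=
    (hD f ρ hf0 hper).2.1
  have hH1 : ∀ ρ' : OO → ℂ, OddO ρ' → PerO f ρ' → ∀ r : ℚ,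
      Tendsto (fun y : ℝ => Th ρ' (r + y * Complex.I)) (𝓝[>] 0) (𝓝 (hC ρ' r)) :=
    fun ρ' h1 h2 => (hH f ρ' hf h7 h1 h2).1
  have hone : ∀ z : ℂ, 0 < z.im → Th ρ (z / 2) + Th ρ ((z + 1) / 2) + Th (rO ρ 2) (2 * z)
      = toC pbO * Th (rO ρ pO) z + toC pO * Th (rO ρ pbO) z := by
    intro z hz
    refine Fun_one hB ρ z (hsum _ ?_) (hsum _ ?_)
    · have h : (z / 2).im = z.im / 2 := by
        rw [show z / 2 = z / ((2 : ℝ) : ℂ) by push_cast; rfl, Complex.div_ofReal_im]
      rw [h]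
      exact half_pos hz
    · have h : ((z + 1) / 2).im = z.im / 2 := by
        rw [show (z + 1) / 2 = (z + 1) / ((2 : ℝ) : ℂ) by push_cast; rfl, Complex.div_ofReal_im,
          Complex.add_im, Complex.one_im, add_zero]
      rw [h]
      exact half_pos hz
  -- the conjugate function
  have hcjint : ∀ n : ℤ, cjO (n : OO) = n := by
    intro n
    have h1 : ((n : OO)).re = n := rfl
    have h2 : ((n : OO)).im = 0 := rfl
    ext
    · change ((n : OO)).re + ((n : OO)).im = ((n : OO)).re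
      rw [h2, add_zero]
    · change -((n : OO)).im = ((n : OO)).im
      rw [h2, neg_zero]
  have hodd' : OddO fun v => (starRingEnd ℂ) (ρ (cjO v)) := by
    intro v
    have h1 : cjO (-v) = -cjO v := by
      have h2 := (hcc (-1) v).1
      have h3 := hcjint (-1)
      rw [Int.cast_neg, Int.cast_one] at h3
      rw [neg_one_mul, h3, neg_one_mul] at h2
      exact h2
    change (starRingEnd ℂ) (ρ (cjO (-v))) = -(starRingEnd ℂ) (ρ (cjO v))
    rw [h1, hodd, map_neg]
  have hper' : PerO f fun v => (starRingEnd ℂ) (ρ (cjO v)) := by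
    intro v u
    have h1 : cjO (v + f * u) = cjO v + f * cjO u := by
      have h3 := hcjint f
      rw [Int.cast_natCast] at h3
      rw [(hcc v (f * u)).2.1, (hcc (f : OO) u).1, h3]
    change (starRingEnd ℂ) (ρ (cjO (v + f * u))) = (starRingEnd ℂ) (ρ (cjO v))
    rw [h1, hper]
  refine ⟨hone, ?_, fun z _ => Fun_three hB ρ z, ?_, ?_⟩
  · intro r
    have t1 := (hH1 ρ hodd hper (r / 2)).comp Fun_half
    have t2 := (hH1 ρ hodd hper ((r + 1) / 2)).comp Fun_half
    have t3 := (hH1 (rO ρ 2) (Fun_odd hodd 2) (Fun_per hper 2) (2 * r)).comp Fun_twice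
    have t4 := (hH1 (rO ρ pO) (Fun_odd hodd _) (Fun_per hper _) r).const_mul (toC pbO)
    have t5 := (hH1 (rO ρ pbO) (Fun_odd hodd _) (Fun_per hper _) r).const_mul (toC pO)
    refine tendsto_nhds_unique_of_eventuallyEq ((t1.add t2).add t3) (t4.add t5) ?_
    filter_upwards [self_mem_nhdsWithin] with y hy
    have hz : 0 < ((r : ℂ) + (y : ℂ) * Complex.I).im := by
      have h : ((r : ℂ) + (y : ℂ) * Complex.I).im = y := by
        simp
      rw [h]
      exact Set.mem_Ioi.1 hy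
    have h := hone _ hz
    rw [← h]
    change Th ρ (((r / 2 : ℚ) : ℂ) + ((y / 2 : ℝ) : ℂ) * Complex.I) +
      Th ρ ((((r + 1) / 2 : ℚ) : ℂ) + ((y / 2 : ℝ) : ℂ) * Complex.I) +
      Th (rO ρ 2) (((2 * r : ℚ) : ℂ) + ((2 * y : ℝ) : ℂ) * Complex.I) = _
    congr 2
    · congr 1
      · congr 1
        push_cast
        ring
    · congr 1
      push_cast
      ring
    · push_cast
      ring
  · intro r
    have t1 := hH1 ρ hodd hper (-r)
    have t2 := (hH1 _ hodd' hper' r)
    have t3 := (Complex.continuous_conj.tendsto _).comp t2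
    refine tendsto_nhds_unique_of_eventuallyEq t1 t3 ?_
    filter_upwards [self_mem_nhdsWithin] with y hy
    change Th ρ (((-r : ℚ) : ℂ) + (y : ℂ) * Complex.I) = _
    have h1 : ((-r : ℚ) : ℂ) + (y : ℂ) * Complex.I =
        -(starRingEnd ℂ) ((r : ℂ) + (y : ℂ) * Complex.I) := by
      rw [map_add, map_mul, Complex.conj_I, Complex.conj_ofReal, map_ratCast]
      push_cast
      ring
    rw [h1, Fun_three hB]
    rfl
  · intro a b c d _ _
    unfold PhC
    have h1 : mob a (-b) (-c) d Complex.I = -(starRingEnd ℂ) (mob a b c d Complex.I) := by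
      unfold mob
      rw [map_div₀, map_add, map_add, map_mul, map_mul, Complex.conj_I, map_intCast, map_intCast,
        map_intCast, map_intCast, ← neg_div]
      congr 1
      · push_cast
        ring
      · push_cast
        ring
    have h2 : Th (rO ρ (d : OO)) Complex.I =
        (starRingEnd ℂ) (Th (rO (fun v => (starRingEnd ℂ) (ρ (cjO v))) (d : OO)) Complex.I) := by
      have h3 := Fun_three hB (rO ρ (d : OO)) Complex.I
      rw [Complex.conj_I, neg_neg] at h3
      rw [h3]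
      congr 2
      funext v
      change (starRingEnd ℂ) (ρ (d * cjO v)) = (starRingEnd ℂ) (ρ (cjO (d * v)))
      rw [(hcc (d : OO) v).1, hcjint]
    rw [h1, Fun_three hB, map_sub, map_mul, map_intCast, h2]

end Pool.Agent.DI.C
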