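import Pool.Agent.Lib.DI.C.Spec

/-!
# THEOREM DI, Part C, module Kap: `Γ_0(M)` with an unknown multiplier
-/

open Filter Topology

noncomputable section

namespace Pool.Agent.DI.C

private lemma ex_add' (x y : ℂ) : ex (x + y) = ex x * ex y := by
  unfold ex
  rw [mul_add, Complex.exp_add]

private lemma ex_int' (n : ℤ) : ex (n : ℂ) = 1 := by
  unfold ex
  have h : 2 * (Real.pi : ℂ) * Complex.I * (n : ℂ) = (n : ℂ) * (2 * Real.pi * Complex.I) := by ring
  rw [h]
  exact Complex.exp_int_mul_two_pi_mul_I n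

private lemma ex_congr' {x y : ℂ} (n : ℤ) (h : x = y + n) : ex x = ex y := by
  rw [h, ex_add', ex_int', mul_one]

private lemma toC_s7_ne (hB : S_Bas) : toC s7 ≠ 0 := by
  intro h
  have h1 := ((hB.2.2.2.2.2.2.2.2.2.1) s7).1 h
  have h2 := congrArg QuadraticAlgebra.im h1
  simp [s7] at h2

private lemma cj_fs7 (hB : S_Bas) (f : ℕ) (v : OO) :
    cjO (f * s7 * v) = -(f * s7 * cjO v) := by
  have h1 := hB.2.2.1
  have h2 : cjO (f : OO) = (f : OO) := by
    unfold cjO
    apply QuadraticAlgebra.ext <;> simp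
  rw [(h1 _ _).1, (h1 _ _).1, h2, hB.2.2.2.2.2.2.2.1.2.1]
  ring

private lemma nm_fs7 (hB : S_Bas) (f : ℕ) (v : OO) :
    Nm (f * s7 * v) = 7 * (f : ℤ) ^ 2 * Nm v := by
  have h1 := hB.2.2.2.1
  rw [h1, h1]
  have h2 : Nm (f : OO) = (f : ℤ) ^ 2 := by simp [Nm]
  have h3 : Nm s7 = 7 := by norm_num [Nm, s7]
  rw [h2, h3]
  ring

private lemma Gt_per (ρ : OO → ℂ) (z : ℂ) (n : ℤ) : Gt ρ (z + n) = Gt ρ z := by
  unfold Gt
  congr 1
  refine tsum_congr fun v => ?_
  congr 1
  refine ex_congr' (Nm v * n) ?_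
  push_cast
  ring

private lemma Gt_neg (ρ : OO → ℂ) (z : ℂ) : Gt (fun v => -ρ v) z = -Gt ρ z := by
  unfold Gt
  rw [← mul_neg, ← tsum_neg]
  congr 1
  refine tsum_congr fun v => ?_
  ring

private lemma rO_neg (ρ : OO → ℂ) (hρ : OddO ρ) (d : ℤ) :
    rO ρ (((-d : ℤ)) : OO) = fun v => -rO ρ (d : OO) v := by
  funext v
  unfold rO
  rw [← hρ]
  congr 1
  push_cast
  ring

private lemma pos_case (hB : S_Bas) (hG : S_Gen) (hC : S_Gam) {f c : ℕ} {a b d : ℤ}
    {ρ : OO → ℂ} {z : ℂ} (hf : 0 < f) (hc : 0 < c) (hρ : PerO f ρ) (hodd : OddO ρ)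
    (hab : a * d - b * c = 1) (hdvd : 7 * f ^ 2 ∣ c) (hz : 0 < z.im) :
    Gt ρ (mob a b c d z) = KK f a c * ((c : ℂ) * z + d) ^ 2 * Gt (rO ρ (d : OO)) z := by
  have hf' : (f : ℂ) ≠ 0 := by exact_mod_cast hf.ne'
  have hc' : (c : ℂ) ≠ 0 := by exact_mod_cast hc.ne'
  have hs := toC_s7_ne hB
  obtain ⟨h1, h2⟩ := hC f c a b d ρ hf hc hρ hab hdvd
  rw [hG f c a b d ρ z hf hc hρ hab hz]
  have hinj : Function.Injective (fun v : OO => (f : OO) * s7 * v) := by
    intro v w hvw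
    have h3 : (f : OO) * s7 * (v - w) = 0 := by
      have : (f : OO) * s7 * v = (f : OO) * s7 * w := hvw
      rw [mul_sub, this, sub_self]
    have h4 : toC ((f : OO) * s7 * (v - w)) = 0 := by rw [h3, map_zero]
    rw [map_mul, map_mul, map_natCast] at h4
    have h5 : toC (v - w) = 0 := by
      rcases mul_eq_zero.1 h4 with h | h
      · exact absurd h (mul_ne_zero hf' hs)
      · exact h
    exact sub_eq_zero.1 (((hB.2.2.2.2.2.2.2.2.2.1) _).1 h5)
  have hsum : ∑' u : OO, toC (cjO u) * ex (Nm u * z / (7 * f ^ 2)) * BB ρ f a d c u =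
      ∑' v : OO, (f : ℂ) * toC s7 * GG f a c * (rO ρ (d : OO) v * toC (cjO v) * ex (Nm v * z)) := by
    rw [← hinj.tsum_eq (f := fun u : OO =>
      toC (cjO u) * ex (Nm u * z / (7 * f ^ 2)) * BB ρ f a d c u)]
    · refine tsum_congr fun v => ?_
      have e1 : toC (cjO ((f : OO) * s7 * v)) = -((f : ℂ) * toC s7 * toC (cjO v)) := by
        rw [cj_fs7 hB, map_neg, map_mul, map_mul, map_natCast]
      have e2 : ex (Nm ((f : OO) * s7 * v) * z / (7 * f ^ 2)) = ex (Nm v * z) := by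
        rw [nm_fs7 hB]
        congr 1
        push_cast
        field_simp
      have e3 : BB ρ f a d c ((f : OO) * s7 * v) = -rO ρ (d : OO) v * GG f a c := by
        rw [h2 v, hodd]
        rfl
      show toC (cjO ((f : OO) * s7 * v)) * ex (Nm ((f : OO) * s7 * v) * z / (7 * f ^ 2)) *
        BB ρ f a d c ((f : OO) * s7 * v) = _
      rw [e1, e2, e3]
      ring
    · intro u hu
      by_contra hnot
      apply hu
      have h3 : ¬ ((f : OO) * s7 : OO) ∣ u := by
        rintro ⟨v, hv⟩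
        exact hnot ⟨v, hv.symm⟩
      show toC (cjO u) * ex (Nm u * z / (7 * f ^ 2)) * BB ρ f a d c u = 0
      rw [h1 u h3, mul_zero]
  rw [hsum, tsum_mul_left]
  unfold KK Gt
  field_simp

theorem tKap (hB : S_Bas) (hS : S_Sum) (hG : S_Gen) (hC : S_Gam) : S_Kap := by
  have _ := hS
  intro f a b c d hf hab hdvd
  rcases lt_trichotomy c 0 with hneg | hzero | hpos
  · -- `c < 0`
    obtain ⟨n, hn⟩ : ∃ n : ℕ, (n : ℤ) = -c := ⟨(-c).toNat, Int.toNat_of_nonneg (by omega)⟩
    have hn0 : 0 < n := by omega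
    have hc : c = -(n : ℤ) := by omega
    have hdvd' : 7 * f ^ 2 ∣ n := by
      have h1 : ((7 * f ^ 2 : ℕ) : ℤ) ∣ (n : ℤ) := by
        rw [hn, dvd_neg]; push_cast; exact hdvd
      exact_mod_cast h1
    refine ⟨-KK f (-a) n, fun ρ hodd hρ z hz => ?_⟩
    have h1 := pos_case hB hG hC (a := -a) (b := -b) (d := -d) hf hn0 hρ hodd
      (by rw [hn]; linarith) hdvd' hz
    have h2 : mob (-a) (-b) n (-d) z = mob a b c d z := by
      unfold mob
      rw [hc]
      push_cast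
      rw [← neg_div_neg_eq]
      congr 1 <;> ring
    rw [h2, rO_neg ρ hodd, Gt_neg] at h1
    rw [h1, hc]
    push_cast
    ring
  · -- `c = 0`
    subst hzero
    refine ⟨(d : ℂ), fun ρ hodd hρ z hz => ?_⟩
    have had : a * d = 1 := by linarith
    rcases Int.eq_one_or_neg_one_of_mul_eq_one' had with ⟨ha, hd⟩ | ⟨ha, hd⟩
    · subst ha hd
      have h1 : mob 1 b 0 1 z = z + b := by
        unfold mob; push_cast; simp
      have h2 : rO ρ ((1 : ℤ) : OO) = ρ := by
        funext v; unfold rO; simp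
      rw [h1, h2, Gt_per]
      push_cast
      ring
    · subst ha hd
      have h1 : mob (-1) b 0 (-1) z = z + ((-b : ℤ) : ℂ) := by
        unfold mob; push_cast
        rw [zero_mul, zero_add, div_neg, div_one]
        ring
      have h2 : rO ρ ((-1 : ℤ) : OO) = fun v => -ρ v := by
        funext v; unfold rO
        rw [← hodd]
        congr 1
        push_cast
        ring
      rw [h1, h2, Gt_per, Gt_neg]
      push_cast
      ring
  · -- `c > 0`
    obtain ⟨n, hn⟩ : ∃ n : ℕ, (n : ℤ) = c := ⟨c.toNat, Int.toNat_of_nonneg (by omega)⟩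
    have hn0 : 0 < n := by omega
    have hdvd' : 7 * f ^ 2 ∣ n := by
      have h1 : ((7 * f ^ 2 : ℕ) : ℤ) ∣ (n : ℤ) := by
        rw [hn]; push_cast; exact hdvd
      exact_mod_cast h1
    refine ⟨KK f a n, fun ρ hodd hρ z hz => ?_⟩
    have h1 := pos_case hB hG hC (a := a) (b := b) (d := d) hf hn0 hρ hodd
      (by rw [hn]; exact hab) hdvd' hz
    rw [← hn]
    rw [h1]
    push_cast
    ring

end Pool.Agent.DI.C
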