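import Pool.Agent.Lib.DI.C.Spec
import Pool.Agent.Lib.DI.Iface

/-!
# THEOREM DI, Part C, module Main: the interface statements `S_C1` - `S_C6` from the statements of
Part C
-/

noncomputable section

namespace Pool.Agent.DI.C

open Filter Topology

/-- The statement `S_Cus` with a bound for the coefficients. -/
def S_CusB : Prop := ∀ (f : ℕ) (a b c d : ℤ) (ρ : OO → ℂ), 0 < f → a * d - b * c = 1 → PerO f ρ →
  ∃ (k : ℂ) (e : ℕ → ℂ) (C : ℝ), e 0 = 0 ∧ (∀ n : ℕ, ‖e n‖ ≤ C * ((n : ℝ) + 1) ^ 3) ∧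
    (∀ z : ℂ, 0 < z.im → HasSum (fun n : ℕ => e n * ex (n * z / (7 * f ^ 2)))
      (Th ρ (mob a b c d z) - k)) ∧
    (∀ z : ℂ, 1 ≤ z.im → ‖Th ρ (mob a b c d z) - k‖ ≤ C * Real.exp (-2 * Real.pi * z.im / (7 * f ^ 2)))

private theorem main_rsum (m : ℕ) (F : OO → ℂ) : rsum m F = DI.sumO m F := rfl

private theorem main_pos {f : ℕ} (hf : Odd f) : 0 < f := hf.pos

theorem tC1 (hP : S_Phi) (hH : S_Hh) : DI.S_C1 := by
  intro f hf h7 ρ hρ a b c d hg
  refine ⟨PhC ρ a b c d, ?_, ?_⟩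
  · intro z hz
    exact (hP f ρ hf h7 hρ.odd hρ.per).1 a b c d hg.1 hg.2 z hz
  · intro r hr
    exact (hH f ρ hf h7 hρ.odd hρ.per).2.1 a b c d hg.1 hg.2 r hr

theorem tC2 (hC : S_CusB) : DI.S_C2 := by
  intro f hf h7 ρ hρ a b c d hg
  obtain ⟨k, e, C, h0, h1, h2, -⟩ := hC f a b c d ρ (main_pos hf) hg hρ.per
  have hC0 : 0 ≤ C := by
    have h := h1 0
    have h' := norm_nonneg (e 0)
    have h'' : C * (((0 : ℕ) : ℝ) + 1) ^ 3 = C := by
      push_cast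
      ring
    rw [h''] at h
    linarith
  refine ⟨k, fun n => e (n + 1), 8 * C, ?_, ?_⟩
  · intro n
    refine (h1 (n + 1)).trans ?_
    have h3 : (((n + 1 : ℕ) : ℝ) + 1) ≤ 2 * ((n : ℝ) + 1) := by
      push_cast
      have h4 : (0 : ℝ) ≤ n := Nat.cast_nonneg n
      linarith
    have h5 : (((n + 1 : ℕ) : ℝ) + 1) ^ 3 ≤ (2 * ((n : ℝ) + 1)) ^ 3 :=
      pow_le_pow_left₀ (by positivity) h3 3
    calc C * (((n + 1 : ℕ) : ℝ) + 1) ^ 3 ≤ C * (2 * ((n : ℝ) + 1)) ^ 3 :=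
          mul_le_mul_of_nonneg_left h5 hC0
      _ = 8 * C * ((n : ℝ) + 1) ^ 3 := by ring
  · intro z hz
    have h3 := (hasSum_nat_add_iff' 1).2 (h2 z hz)
    simp only [Finset.range_one, Finset.sum_singleton, h0, zero_mul, sub_zero] at h3
    refine h3.congr_fun ?_
    intro n
    push_cast
    rfl

theorem tC3 (hB : DI.S_B11) (hH : S_Hh) (hV : S_Ver) : DI.S_C3 := by
  intro f hf h7 ρ hρ b n hn
  refine ⟨(hH f ρ hf h7 hρ.odd hρ.per).1 _, ?_⟩
  have h := hV hB f ρ b n (main_pos hf) hn hρ.odd hρ.per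
  rw [h, main_rsum]
  have h1 : OmC / (2 * ((f : ℂ) * n)) = OmC / (2 * f * n) := by rw [mul_assoc]
  rw [h1]
  congr 1
  congr 1
  funext v
  have h2 : (b : ℂ) / n * Nm v = b * Nm v / n := by ring
  have h3 : ((f : ℂ) * n) = ((f * n : ℕ) : ℂ) := by push_cast; rfl
  rw [h2, h3]

theorem tC4 (hF : S_Fun) : DI.S_C4 := by
  intro f hf h7 ρ hρ r
  have h := (hF f ρ hf h7 hρ.odd hρ.per).2.1 r
  have e1 : toC pbO = wbC := by
    rw [toC_apply]
    simp only [pbO, wbC]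
    push_cast
    ring
  have e2 : toC pO = wC := by
    rw [toC_apply]
    simp only [pO]
    push_cast
    ring
  rw [e1, e2] at h
  exact h

theorem tC5 (hH : S_Hh) (hF : S_Fun) : DI.S_C5 := by
  intro f hf h7 ρ hρ r
  refine ⟨?_, ?_⟩
  · have h := (hH f ρ hf h7 hρ.odd hρ.per).2.2 r 1
    simpa using h
  · have h := (hF f ρ hf h7 hρ.odd hρ.per).2.2.2.1 (-r)
    rw [neg_neg] at h
    rw [h, Complex.conj_conj]

theorem tC6 (hD : S_Der) : DI.S_C6 := by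
  intro f hf h7 ρ hρ
  obtain ⟨h1, h2, h3⟩ := hD f ρ (main_pos hf) hρ.per
  refine ⟨?_, h2, h3⟩
  intro z hz
  exact (h1 z hz).differentiableAt.differentiableWithinAt

end Pool.Agent.DI.C
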