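import Pool.Agent.Lib.DI.C.Spec

/-!
# THEOREM DI (MP_d0239a_nt), Part C, module Phi: (0.6) and the cocycle relation
-/

open Filter Topology

noncomputable section

namespace Pool.Agent.DI.C

private theorem Phi_den {a b c d : ℤ} (h : a * d - b * c = 1) {z : ℂ} (hz : 0 < z.im) :
    (c : ℂ) * z + d ≠ 0 := by
  intro h0
  have h1 := congrArg Complex.im h0
  have h2 := congrArg Complex.re h0
  simp only [Complex.add_im, Complex.mul_im, Complex.intCast_re, Complex.intCast_im, zero_mul,
    add_zero, Complex.zero_im] at h1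
  simp only [Complex.add_re, Complex.mul_re, Complex.intCast_re, Complex.intCast_im, zero_mul,
    sub_zero, Complex.zero_re] at h2
  have hc : c = 0 := by
    rcases mul_eq_zero.1 h1 with h3 | h3
    · exact_mod_cast h3
    · exact absurd h3 hz.ne'
  subst hc
  rw [Int.cast_zero, zero_mul, zero_add] at h2
  have hd : d = 0 := by exact_mod_cast h2
  subst hd
  simp at h

private theorem Phi_im {a b c d : ℤ} (h : a * d - b * c = 1) {z : ℂ} (hz : 0 < z.im) :
    0 < (mob a b c d z).im := by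
  have hw := Phi_den h hz
  have hn : 0 < Complex.normSq ((c : ℂ) * z + d) := Complex.normSq_pos.2 hw
  have hr : (a : ℝ) * d - b * c = 1 := by exact_mod_cast h
  have e : (mob a b c d z).im = z.im / Complex.normSq ((c : ℂ) * z + d) := by
    unfold mob
    rw [Complex.div_im]
    simp only [Complex.add_im, Complex.mul_im, Complex.intCast_re, Complex.intCast_im, zero_mul,
      add_zero, Complex.add_re, Complex.mul_re, sub_zero]
    rw [← sub_div]
    congr 1
    linear_combination z.im * hr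
  rw [e]
  exact div_pos hz hn

private theorem Phi_deriv {a b c d : ℤ} (h : a * d - b * c = 1) {z : ℂ} (hz : 0 < z.im) :
    HasDerivAt (mob a b c d) (1 / ((c : ℂ) * z + d) ^ 2) z := by
  have hw := Phi_den h hz
  have hr : (a : ℂ) * d - b * c = 1 := by exact_mod_cast h
  have h1 : HasDerivAt (fun z : ℂ => (a : ℂ) * z + b) (a : ℂ) z := by
    simpa using ((hasDerivAt_id z).const_mul (a : ℂ)).add_const (b : ℂ)
  have h2 : HasDerivAt (fun z : ℂ => (c : ℂ) * z + d) (c : ℂ) z := by
    simpa using ((hasDerivAt_id z).const_mul (c : ℂ)).add_const (d : ℂ)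
  have h3 := h1.div h2 hw
  have e : ((a : ℂ) * ((c : ℂ) * z + d) - ((a : ℂ) * z + b) * c) / ((c : ℂ) * z + d) ^ 2 =
      1 / ((c : ℂ) * z + d) ^ 2 := by
    congr 1
    linear_combination hr
  rw [e] at h3
  exact h3

private theorem Phi_comp {a b c d a' b' c' d' : ℤ} (h' : a' * d' - b' * c' = 1)
    {z : ℂ} (hz : 0 < z.im) :
    mob (a * a' + b * c') (a * b' + b * d') (c * a' + d * c') (c * b' + d * d') z =
      mob a b c d (mob a' b' c' d' z) := by
  have hw := Phi_den h' hz
  unfold mob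
  push_cast
  have e1 : (a : ℂ) * (((a' : ℂ) * z + b') / ((c' : ℂ) * z + d')) + b =
      (((a : ℂ) * a' + b * c') * z + (a * b' + b * d')) / ((c' : ℂ) * z + d') := by
    rw [eq_div_iff hw, add_mul, mul_assoc, div_mul_cancel₀ _ hw]
    ring
  have e2 : (c : ℂ) * (((a' : ℂ) * z + b') / ((c' : ℂ) * z + d')) + d =
      (((c : ℂ) * a' + d * c') * z + (c * b' + d * d')) / ((c' : ℂ) * z + d') := by
    rw [eq_div_iff hw, add_mul, mul_assoc, div_mul_cancel₀ _ hw]
    ring
  rw [e1, e2, div_div_div_cancel_right₀ hw]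

private theorem Phi_per {f : ℕ} {ρ : OO → ℂ} (h : PerO f ρ) (d : OO) : PerO f (rO ρ d) := by
  intro v u
  unfold rO
  rw [← h (d * v) (d * u)]
  congr 1
  ring

private theorem Phi_eps_int (n : ℤ) : eps (n : OO) = jacobiSym n 7 := by
  unfold eps
  rw [QuadraticAlgebra.re_intCast, QuadraticAlgebra.im_intCast, mul_zero, add_zero, Int.cast_id]

private theorem Phi_eps_mul {f : ℕ} {b' c d d' : ℤ} (hc : (7 * f ^ 2 : ℤ) ∣ c) :
    eps ((c * b' + d * d' : ℤ) : OO) = eps (d : OO) * eps (d' : OO) := by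
  rw [Phi_eps_int, Phi_eps_int, Phi_eps_int, ← jacobiSym.mul_left]
  apply jacobiSym.mod_left'
  obtain ⟨k, rfl⟩ := hc
  have : (7 * (f : ℤ) ^ 2 * k * b' + d * d') = d * d' + ((7 : ℕ) : ℤ) * ((f : ℤ) ^ 2 * k * b') := by
    push_cast
    ring
  rw [this, Int.add_mul_emod_self_left]

private theorem Phi_rO {f : ℕ} {ρ : OO → ℂ} (h : PerO f ρ) {b' c d d' : ℤ}
    (hc : (7 * f ^ 2 : ℤ) ∣ c) :
    rO ρ ((c * b' + d * d' : ℤ) : OO) = rO (rO ρ (d : OO)) (d' : OO) := by
  funext v
  unfold rO
  obtain ⟨k, rfl⟩ := hc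
  rw [← h ((d : OO) * ((d' : OO) * v)) (7 * (f : OO) * (k : OO) * (b' : OO) * v)]
  congr 1
  push_cast
  ring

theorem tPhi (hE : S_Eps) (hD : S_Der) : S_Phi := by
  intro f ρ hf h7 hodd hper
  have hf0 : 0 < f := hf.pos
  have main : ∀ a b c d : ℤ, a * d - b * c = 1 → (7 * f ^ 2 : ℤ) ∣ c → ∀ z : ℂ, 0 < z.im →
      Th ρ (mob a b c d z) = eps (d : OO) * Th (rO ρ (d : OO)) z + PhC ρ a b c d := by
    intro a b c d h hc z hz
    have hperd := Phi_per hper (d : OO)
    obtain ⟨hT, -, -⟩ := hD f ρ hf0 hper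
    obtain ⟨hTd, -, -⟩ := hD f (rO ρ (d : OO)) hf0 hperd
    have hder : ∀ w : ℂ, 0 < w.im → HasDerivAt
        (fun w => Th ρ (mob a b c d w) - (eps (d : OO) : ℂ) * Th (rO ρ (d : OO)) w) 0 w := by
      intro w hw
      have h1 := (hT (mob a b c d w) (Phi_im h hw)).comp w (Phi_deriv h hw)
      have h2 := (hTd w hw).const_mul (eps (d : OO) : ℂ)
      have h3 := h1.sub h2
      have h4 := hE f a b c d ρ w hf h7 h hc hodd hper hw
      have h5 := Phi_den h hw
      have e : 2 * (Real.pi : ℂ) * Complex.I * Gt ρ (mob a b c d w) * (1 / ((c : ℂ) * w + d) ^ 2) -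
          (eps (d : OO) : ℂ) * (2 * Real.pi * Complex.I * Gt (rO ρ (d : OO)) w) = 0 := by
        rw [h4]
        field_simp
        ring
      rw [e] at h3
      exact h3
    have hopen : IsOpen {w : ℂ | 0 < w.im} := isOpen_lt continuous_const Complex.continuous_im
    have hpre : IsPreconnected {w : ℂ | 0 < w.im} := (convex_halfSpace_im_gt 0).isPreconnected
    have hconst := hopen.is_const_of_deriv_eq_zero hpre
      (fun w hw => (hder w hw).differentiableAt.differentiableWithinAt)
      (fun w hw => (hder w hw).deriv) (x := z) (y := Complex.I) hz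
      (by change 0 < Complex.I.im; rw [Complex.I_im]; exact one_pos)
    unfold PhC
    linear_combination hconst
  refine ⟨main, ?_⟩
  intro a b c d a' b' c' d' h hc h' hc'
  have hI : 0 < Complex.I.im := by
    rw [Complex.I_im]
    exact one_pos
  have h1 := main a b c d h hc (mob a' b' c' d' Complex.I) (Phi_im h' hI)
  have e1 : PhC ρ (a * a' + b * c') (a * b' + b * d') (c * a' + d * c') (c * b' + d * d') =
      Th ρ (mob a b c d (mob a' b' c' d' Complex.I)) -
        (eps (d : OO) : ℂ) * eps (d' : OO) * Th (rO (rO ρ (d : OO)) (d' : OO)) Complex.I := by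
    unfold PhC
    rw [Phi_comp h' hI, Phi_eps_mul hc, Phi_rO hper hc]
    push_cast
    ring
  have e2 : PhC (rO ρ (d : OO)) a' b' c' d' = Th (rO ρ (d : OO)) (mob a' b' c' d' Complex.I) -
      (eps (d' : OO) : ℂ) * Th (rO (rO ρ (d : OO)) (d' : OO)) Complex.I := rfl
  rw [e1, e2, h1]
  ring

end Pool.Agent.DI.C
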