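import Pool.Agent.Lib.DI.C.Spec

/-!
# THEOREM DI, Part C, module Poi: Poisson summation in dimension 1
-/

set_option autoImplicit false

open Complex

namespace Pool.Agent.DI.C

private theorem Poi_left (τ : ℂ) (s : ℝ) (x : ℤ) :
    ex (τ * (x + s) ^ 2) = ex (τ * s ^ 2) * jacobiTheta₂_term x (2 * τ * s) (2 * τ) := by
  unfold ex jacobiTheta₂_term
  rw [← Complex.exp_add]
  congr 1
  ring

private theorem Poi_right (τ : ℂ) (s : ℝ) (k : ℤ) :
    ex (k * s - k ^ 2 / (4 * τ)) = jacobiTheta₂_term k s (-1 / (2 * τ)) := by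
  unfold ex jacobiTheta₂_term
  congr 1
  by_cases h : τ = 0
  · subst h; simp; ring
  · field_simp
    ring

private theorem Poi_der (n : ℤ) (z τ : ℂ) :
    n * jacobiTheta₂_term n z τ = 1 / (2 * Real.pi * I) * jacobiTheta₂'_term n z τ := by
  unfold jacobiTheta₂'_term
  have h : (2 * Real.pi * I : ℂ) ≠ 0 := by
    have := Complex.ofReal_ne_zero.2 Real.pi_ne_zero
    simp [this]
  field_simp

private theorem Poi_half {w : ℂ} : (w ^ (1 / 2 : ℂ)) ^ 2 = w := by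
  rw [← Complex.cpow_nat_mul]
  norm_num

private theorem Poi_seven {w : ℂ} (hw : w ≠ 0) :
    ((1 / 7 : ℝ) * w) ^ (1 / 2 : ℂ) = w ^ (1 / 2 : ℂ) / (√7 : ℝ) := by
  have h7 : (0 : ℝ) < 1 / 7 := by norm_num
  have hne : ((1 / 7 : ℝ) : ℂ) * w ≠ 0 := mul_ne_zero (Complex.ofReal_ne_zero.2 h7.ne') hw
  rw [Complex.cpow_def_of_ne_zero hne, Complex.log_ofReal_mul h7 hw, add_mul, Complex.exp_add,
    ← Complex.cpow_def_of_ne_zero hw]
  have h1 : Complex.exp ((Real.log (1 / 7) : ℝ) * (1 / 2 : ℂ)) = ((√7)⁻¹ : ℝ) := by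
    have h2 : ((Real.log (1 / 7) : ℝ) * (1 / 2 : ℂ)) = ((Real.log (1 / 7) * (1 / 2) : ℝ) : ℂ) := by
      push_cast
      ring
    rw [h2, ← Complex.ofReal_exp]
    congr 1
    rw [← Real.sqrt_inv, Real.sqrt_eq_rpow, Real.rpow_def_of_pos (by norm_num)]
    norm_num
  rw [h1, Complex.ofReal_inv, mul_comm, ← div_eq_mul_inv]

theorem tPoi : S_Poi := by
  intro τ s hτ
  have h0 : τ ≠ 0 := by
    intro h
    rw [h] at hτ
    simp at hτ
  have hT : 0 < (2 * τ).im := by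
    simpa using hτ
  have hT' : 0 < (-1 / (2 * τ)).im := by
    rw [div_eq_mul_inv, neg_one_mul, neg_im, inv_im, neg_div, neg_neg]
    exact div_pos hT (normSq_pos.mpr (by simpa using h0))
  have hpi : (2 * Real.pi * I : ℂ) ≠ 0 := by
    have := Complex.ofReal_ne_zero.2 Real.pi_ne_zero
    simp [this]
  have s1 : Summable fun x : ℤ => ex (τ * (x + s) ^ 2) := by
    simp_rw [Poi_left]
    exact ((summable_jacobiTheta₂_term_iff _ _).2 hT).mul_left _
  have s1' : Summable fun x : ℤ => x * ex (τ * (x + s) ^ 2) := by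
    have h1 : (fun x : ℤ => x * ex (τ * (x + s) ^ 2)) = fun x : ℤ =>
        ex (τ * s ^ 2) * (1 / (2 * Real.pi * I) * jacobiTheta₂'_term x (2 * τ * s) (2 * τ)) := by
      funext x
      rw [Poi_left, ← Poi_der]
      ring
    rw [h1]
    exact (((summable_jacobiTheta₂'_term_iff _ _).2 hT).mul_left _).mul_left _
  have s2 : Summable fun x : ℤ => (x + s) * ex (τ * (x + s) ^ 2) := by
    have h1 : (fun x : ℤ => (x + s) * ex (τ * (x + s) ^ 2)) = fun x : ℤ =>
        x * ex (τ * (x + s) ^ 2) + s * ex (τ * (x + s) ^ 2) := by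
      funext x
      ring
    rw [h1]
    exact s1'.add (s1.mul_left _)
  have s3 : Summable fun k : ℤ => ex (k * s - k ^ 2 / (4 * τ)) := by
    simp_rw [Poi_right]
    exact (summable_jacobiTheta₂_term_iff _ _).2 hT'
  have s4 : Summable fun k : ℤ => k * ex (k * s - k ^ 2 / (4 * τ)) := by
    simp_rw [Poi_right, Poi_der]
    exact ((summable_jacobiTheta₂'_term_iff _ _).2 hT').mul_left _
  have hc : (I / (2 * τ)) ^ (1 / 2 : ℂ) = 1 / (-I * (2 * τ)) ^ (1 / 2 : ℂ) := by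
    have h1 : I / (2 * τ) = (-I * (2 * τ))⁻¹ := by
      have hI : I ≠ 0 := I_ne_zero
      field_simp
      rw [I_sq]
    rw [h1, Complex.inv_cpow]
    · exact (one_div _).symm
    intro h
    have h2 : 0 < (-I * (2 * τ)).re := by simpa using hτ
    rw [Complex.arg_eq_pi_iff] at h
    linarith [h.1]
  have hz : 2 * τ * s / (2 * τ) = s := by field_simp
  have hexp : ex (τ * s ^ 2) * cexp (-Real.pi * I * (2 * τ * s) ^ 2 / (2 * τ)) = 1 := by
    unfold ex
    rw [← Complex.exp_add, ← Complex.exp_zero]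
    congr 1
    field_simp
    ring
  have e1 : jacobiTheta₂ (2 * τ * s) (2 * τ) = (I / (2 * τ)) ^ (1 / 2 : ℂ) *
      cexp (-Real.pi * I * (2 * τ * s) ^ 2 / (2 * τ)) * jacobiTheta₂ s (-1 / (2 * τ)) := by
    rw [jacobiTheta₂_functional_equation, hc, hz]
  have e2 : jacobiTheta₂' (2 * τ * s) (2 * τ) = (I / (2 * τ)) ^ (1 / 2 : ℂ) *
      cexp (-Real.pi * I * (2 * τ * s) ^ 2 / (2 * τ)) / (2 * τ) *
      (jacobiTheta₂' s (-1 / (2 * τ)) - 2 * Real.pi * I * (2 * τ * s) *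
        jacobiTheta₂ s (-1 / (2 * τ))) := by
    rw [jacobiTheta₂'_functional_equation, hc, hz]
  have t1 : ∑' x : ℤ, ex (τ * (x + s) ^ 2) = ex (τ * s ^ 2) * jacobiTheta₂ (2 * τ * s) (2 * τ) := by
    simp_rw [Poi_left]
    rw [tsum_mul_left]
    rfl
  have t1' : ∑' x : ℤ, x * ex (τ * (x + s) ^ 2) =
      ex (τ * s ^ 2) * (1 / (2 * Real.pi * I) * jacobiTheta₂' (2 * τ * s) (2 * τ)) := by
    have h1 : (fun x : ℤ => x * ex (τ * (x + s) ^ 2)) = fun x : ℤ =>
        ex (τ * s ^ 2) * (1 / (2 * Real.pi * I) * jacobiTheta₂'_term x (2 * τ * s) (2 * τ)) := by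
      funext x
      rw [Poi_left, ← Poi_der]
      ring
    rw [h1, tsum_mul_left, tsum_mul_left]
    rfl
  have t3 : ∑' k : ℤ, ex (k * s - k ^ 2 / (4 * τ)) = jacobiTheta₂ s (-1 / (2 * τ)) := by
    simp_rw [Poi_right]
    rfl
  have t4 : ∑' k : ℤ, k * ex (k * s - k ^ 2 / (4 * τ)) =
      1 / (2 * Real.pi * I) * jacobiTheta₂' s (-1 / (2 * τ)) := by
    simp_rw [Poi_right, Poi_der]
    rw [tsum_mul_left]
    rfl
  have hne : I / (2 * τ) ≠ 0 := div_ne_zero I_ne_zero (by simpa using h0)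
  refine ⟨Poi_half, ?_, s1, s2, s3, s4, ?_, ?_⟩
  · rw [← Poi_seven hne]
    congr 1
    push_cast
    field_simp
  · rw [t1, t3, e1]
    linear_combination ((I / (2 * τ)) ^ (1 / 2 : ℂ) * jacobiTheta₂ s (-1 / (2 * τ))) * hexp
  · have h1 : ∑' x : ℤ, (x + s) * ex (τ * (x + s) ^ 2) =
        ∑' x : ℤ, x * ex (τ * (x + s) ^ 2) + s * ∑' x : ℤ, ex (τ * (x + s) ^ 2) := by
      rw [← tsum_mul_left, ← s1'.tsum_add (s1.mul_left _)]
      congr 1
      funext x
      ring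
    rw [h1, t1', t1, t4, e1, e2]
    have h2 : (1 / (2 * Real.pi * I) : ℂ) * (2 * Real.pi * I) = 1 := by
      rw [one_div, inv_mul_cancel₀ hpi]
    have h3 : (1 / (2 * τ) : ℂ) * (2 * τ) = 1 := by
      rw [one_div, inv_mul_cancel₀ (by simpa using h0)]
    generalize (I / (2 * τ)) ^ (1 / 2 : ℂ) = c at *
    generalize jacobiTheta₂ s (-1 / (2 * τ)) = A at *
    generalize jacobiTheta₂' s (-1 / (2 * τ)) = B at *
    generalize cexp (-Real.pi * I * (2 * τ * s) ^ 2 / (2 * τ)) = E at *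
    have h4 : ∀ a b : ℂ, a / b = a * (1 / b) := fun a b => by rw [mul_one_div]
    rw [h4 (c * E) (2 * τ), h4 c (2 * τ)]
    generalize (1 / (2 * Real.pi * I) : ℂ) = P at *
    generalize (1 / (2 * τ) : ℂ) = Q at *
    linear_combination (c * Q * P * B) * hexp +
      (ex (τ * s ^ 2) * c * E * A * s) * (-Q * (2 * τ) * h2 - h3)

end Pool.Agent.DI.C
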