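import Pool.Agent.Lib.DI.C.Spec

/-!
# THEOREM DI, Part C, module Sum: convergence
-/

noncomputable section

namespace Pool.Agent.DI.C

open Filter Topology

/-- `O` as pairs. -/
private def sumEq : OO ≃ ℤ × ℤ where
  toFun v := (v.re, v.im)
  invFun p := ⟨p.1, p.2⟩
  left_inv _ := rfl
  right_inv _ := rfl

private theorem sum_one (s : ℝ) (hs : 0 < s) : Summable fun x : ℤ => Real.exp (-s * (x : ℝ) ^ 2) := by
  have h1 : Summable fun n : ℕ => Real.exp (-s) ^ n :=
    summable_geometric_of_lt_one (Real.exp_nonneg _) (by rw [Real.exp_lt_one_iff]; linarith)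
  have h2 : Summable fun n : ℕ => Real.exp (-s * ((n : ℤ) : ℝ) ^ 2) := by
    refine Summable.of_nonneg_of_le (fun n => Real.exp_nonneg _) (fun n => ?_) h1
    rw [← Real.exp_nat_mul]
    apply Real.exp_le_exp.2
    have h3 : (n : ℝ) ≤ (n : ℝ) ^ 2 := by
      rcases Nat.eq_zero_or_pos n with h | h
      · subst h
        norm_num
      · have h4 : (1 : ℝ) ≤ n := by exact_mod_cast h
        nlinarith
    push_cast
    nlinarith
  refine Summable.of_nat_of_neg (f := fun x : ℤ => Real.exp (-s * (x : ℝ) ^ 2)) h2 ?_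
  have h5 : ∀ n : ℕ, Real.exp (-s * (((-(n : ℤ) : ℤ)) : ℝ) ^ 2) = Real.exp (-s * ((n : ℤ) : ℝ) ^ 2) := by
    intro n
    rw [Int.cast_neg, neg_sq]
  simp only [h5]
  exact h2

private theorem sum_two (s : ℝ) (hs : 0 < s) :
    Summable fun p : ℤ × ℤ => Real.exp (-s * ((p.1 : ℝ) ^ 2 + (p.2 : ℝ) ^ 2)) := by
  have h := (sum_one s hs).mul_of_nonneg (sum_one s hs) (fun _ => Real.exp_nonneg _)
    (fun _ => Real.exp_nonneg _)
  refine h.congr fun p => ?_
  rw [← Real.exp_add]
  congr 1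
  ring

private theorem sum_zero (hB : S_Bas) (t : ℝ) (ht : 0 < t) :
    Summable fun v : OO => Real.exp (-t * Nm v) := by
  have h1 := (Equiv.summable_iff sumEq).2 (sum_two (t / 2) (by linarith))
  refine Summable.of_nonneg_of_le (fun v => Real.exp_nonneg _) (fun v => ?_) h1
  have h2 := (hB.2.2.2.2.2.1 v).2.2
  have h3 : ((v.re : ℝ) ^ 2 + (v.im : ℝ) ^ 2) ≤ 2 * (Nm v : ℝ) := by exact_mod_cast h2
  simp only [Function.comp, sumEq, Equiv.coe_fn_mk]
  apply Real.exp_le_exp.2
  nlinarith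

private theorem sum_poly (t : ℝ) (ht : 0 < t) (k : ℕ) :
    ∃ C : ℝ, 0 ≤ C ∧ ∀ x : ℝ, 0 ≤ x → (x + 1) ^ k * Real.exp (-t * x) ≤ C * Real.exp (-(t / 2) * x) := by
  -- `(x+1)^k ≤ C exp((t/2) x)`
  refine ⟨(k.factorial : ℝ) / (t / 2) ^ k * Real.exp (t / 2), by positivity, fun x hx => ?_⟩
  have h1 : ((t / 2) * (x + 1)) ^ k / (k.factorial : ℝ) ≤ Real.exp ((t / 2) * (x + 1)) :=
    Real.pow_div_factorial_le_exp _ (by positivity) k
  have h2 : 0 < (t / 2) ^ k := by positivity
  have h3 : (0 : ℝ) < k.factorial := by exact_mod_cast k.factorial_pos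
  have h4 : (x + 1) ^ k ≤ (k.factorial : ℝ) / (t / 2) ^ k * Real.exp ((t / 2) * (x + 1)) := by
    rw [mul_pow, div_le_iff₀ h3] at h1
    rw [div_mul_eq_mul_div, le_div_iff₀ h2]
    linarith
  calc (x + 1) ^ k * Real.exp (-t * x)
      ≤ ((k.factorial : ℝ) / (t / 2) ^ k * Real.exp ((t / 2) * (x + 1))) * Real.exp (-t * x) :=
        mul_le_mul_of_nonneg_right h4 (Real.exp_nonneg _)
    _ = (k.factorial : ℝ) / (t / 2) ^ k * Real.exp (t / 2) * Real.exp (-(t / 2) * x) := by
        rw [mul_assoc, mul_assoc, ← Real.exp_add, ← Real.exp_add]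
        congr 2
        ring

theorem tSum (hB : S_Bas) : S_Sum := by
  refine ⟨?_, ?_, ?_⟩
  · intro t k ht
    obtain ⟨C, hC0, hC⟩ := sum_poly t ht k
    have h1 := (sum_zero hB (t / 2) (by linarith)).mul_left C
    refine Summable.of_nonneg_of_le (fun v => ?_) (fun v => ?_) h1
    · have h2 : (0 : ℝ) ≤ Nm v := by exact_mod_cast (hB.2.2.2.2.2.1 v).1
      positivity
    · have h2 : (0 : ℝ) ≤ Nm v := by exact_mod_cast (hB.2.2.2.2.2.1 v).1
      exact hC _ h2
  · intro z
    unfold ex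
    rw [Complex.norm_exp]
    congr 1
    simp only [Complex.mul_re, Complex.mul_im, Complex.I_re, Complex.I_im, Complex.ofReal_re,
      Complex.ofReal_im, Complex.re_ofNat, Complex.im_ofNat]
    ring
  · intro n ρ hn hρ
    -- the finitely many residues
    have key : ∀ v : OO, ρ v = ρ ⟨v.re % n, v.im % n⟩ := by
      intro v
      have h := hρ ⟨v.re % n, v.im % n⟩ ⟨v.re / n, v.im / n⟩
      rw [← h]
      congr 1
      apply QuadraticAlgebra.ext
      · rw [QuadraticAlgebra.re_add, QuadraticAlgebra.re_mul]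
        simp only [QuadraticAlgebra.re_natCast, QuadraticAlgebra.im_natCast]
        have h5 := Int.emod_add_mul_ediv v.re n
        linarith
      · rw [QuadraticAlgebra.im_add, QuadraticAlgebra.im_mul]
        simp only [QuadraticAlgebra.re_natCast, QuadraticAlgebra.im_natCast]
        have h5 := Int.emod_add_mul_ediv v.im n
        linarith
    refine ⟨∑ x ∈ Finset.range n, ∑ y ∈ Finset.range n, ‖ρ ⟨(x : ℤ), (y : ℤ)⟩‖, ?_, ?_⟩
    · exact Finset.sum_nonneg fun _ _ => Finset.sum_nonneg fun _ _ => norm_nonneg _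
    · intro v
      rw [key v]
      have hn' : (0 : ℤ) < n := by exact_mod_cast hn
      have hx0 := Int.emod_nonneg v.re hn'.ne'
      have hx1 := Int.emod_lt_of_pos v.re hn'
      have hy0 := Int.emod_nonneg v.im hn'.ne'
      have hy1 := Int.emod_lt_of_pos v.im hn'
      obtain ⟨x, hx⟩ := Int.eq_ofNat_of_zero_le hx0
      obtain ⟨y, hy⟩ := Int.eq_ofNat_of_zero_le hy0
      rw [hx, hy]
      rw [hx] at hx1
      rw [hy] at hy1
      have h6 : x ∈ Finset.range n := Finset.mem_range.2 (by exact_mod_cast hx1)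
      have h7 : y ∈ Finset.range n := Finset.mem_range.2 (by exact_mod_cast hy1)
      refine le_trans ?_ (Finset.single_le_sum (f := fun x : ℕ =>
        ∑ y ∈ Finset.range n, ‖ρ ⟨(x : ℤ), (y : ℤ)⟩‖)
        (fun _ _ => Finset.sum_nonneg fun _ _ => norm_nonneg _) h6)
      exact Finset.single_le_sum (f := fun y : ℕ => ‖ρ ⟨(x : ℤ), (y : ℤ)⟩‖)
        (fun _ _ => norm_nonneg _) h7

end Pool.Agent.DI.C
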