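import Pool.Agent.Lib.DI.C.Spec

/-!
# THEOREM DI, Part C, module Two: Poisson summation, dimension 2
-/

noncomputable section

namespace Pool.Agent.DI.C

open Filter Topology

/-! ### The two lattice lemmas -/

private def two_f (s : (ℤ × ℤ) ⊕ (ℤ × ℤ)) : OO :=
  Sum.elim (fun p => (⟨p.1 - p.2, 2 * p.2⟩ : OO)) (fun p => ⟨p.1 - p.2, 2 * p.2 + 1⟩) s

private theorem two_f_inl (p : ℤ × ℤ) : two_f (Sum.inl p) = ⟨p.1 - p.2, 2 * p.2⟩ := rfl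

private theorem two_f_inr (p : ℤ × ℤ) : two_f (Sum.inr p) = ⟨p.1 - p.2, 2 * p.2 + 1⟩ := rfl

private theorem two_f_bij : Function.Bijective two_f := by
  constructor
  · rintro (p | p) (q | q) h
    · rw [two_f_inl, two_f_inl, QuadraticAlgebra.mk.injEq] at h
      congr 1
      apply Prod.ext
      · omega
      · omega
    · rw [two_f_inl, two_f_inr, QuadraticAlgebra.mk.injEq] at h
      omega
    · rw [two_f_inr, two_f_inl, QuadraticAlgebra.mk.injEq] at h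
      omega
    · rw [two_f_inr, two_f_inr, QuadraticAlgebra.mk.injEq] at h
      congr 1
      apply Prod.ext
      · omega
      · omega
  · intro v
    rcases Int.even_or_odd v.im with ⟨k, hk⟩ | ⟨k, hk⟩
    · refine ⟨Sum.inl (v.re + k, k), ?_⟩
      rw [two_f_inl]
      apply QuadraticAlgebra.ext
      · simp only
        omega
      · simp only
        omega
    · refine ⟨Sum.inr (v.re + k, k), ?_⟩
      rw [two_f_inr]
      apply QuadraticAlgebra.ext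
      · simp only
        omega
      · simp only
        omega

private def two_e : (ℤ × ℤ) ⊕ (ℤ × ℤ) ≃ OO := Equiv.ofBijective two_f two_f_bij

private theorem two_e_inl (p : ℤ × ℤ) : two_e (Sum.inl p) = ⟨p.1 - p.2, 2 * p.2⟩ := rfl

private theorem two_e_inr (p : ℤ × ℤ) : two_e (Sum.inr p) = ⟨p.1 - p.2, 2 * p.2 + 1⟩ := rfl

private theorem two_left (G : ℤ → ℤ → ℂ) (h0 : Summable fun p : ℤ × ℤ => G (2 * p.1) (2 * p.2))
    (h1 : Summable fun p : ℤ × ℤ => G (2 * p.1 + 1) (2 * p.2 + 1)) :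
    ∑' u : OO, G (2 * u.re + u.im) u.im
      = ∑' p : ℤ × ℤ, G (2 * p.1) (2 * p.2) + ∑' p : ℤ × ℤ, G (2 * p.1 + 1) (2 * p.2 + 1) := by
  have e0 : ∀ p : ℤ × ℤ, ((fun u : OO => G (2 * u.re + u.im) u.im) ∘ two_e) (Sum.inl p)
      = G (2 * p.1) (2 * p.2) := by
    intro p
    rw [Function.comp_apply, two_e_inl]
    simp only
    congr 1
    ring
  have e1 : ∀ p : ℤ × ℤ, ((fun u : OO => G (2 * u.re + u.im) u.im) ∘ two_e) (Sum.inr p)
      = G (2 * p.1 + 1) (2 * p.2 + 1) := by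
    intro p
    rw [Function.comp_apply, two_e_inr]
    simp only
    congr 1
    ring
  rw [← two_e.tsum_eq (fun u : OO => G (2 * u.re + u.im) u.im)]
  have h2 := HasSum.sum (f := (fun u : OO => G (2 * u.re + u.im) u.im) ∘ two_e)
    (a := ∑' p : ℤ × ℤ, G (2 * p.1) (2 * p.2))
    (b := ∑' p : ℤ × ℤ, G (2 * p.1 + 1) (2 * p.2 + 1))
    (by
      have h3 : ((fun u : OO => G (2 * u.re + u.im) u.im) ∘ two_e) ∘ Sum.inl
        = fun p : ℤ × ℤ => G (2 * p.1) (2 * p.2) := funext e0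
      rw [h3]
      exact h0.hasSum)
    (by
      have h3 : ((fun u : OO => G (2 * u.re + u.im) u.im) ∘ two_e) ∘ Sum.inr
        = fun p : ℤ × ℤ => G (2 * p.1 + 1) (2 * p.2 + 1) := funext e1
      rw [h3]
      exact h1.hasSum)
  rw [Function.comp_def] at h2
  exact h2.tsum_eq

private theorem two_ex_add (a b : ℂ) : ex (a + b) = ex a * ex b := by
  unfold ex
  rw [← Complex.exp_add]
  congr 1
  ring

private theorem two_ex_int (n : ℤ) : ex n = 1 := by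
  unfold ex
  rw [Complex.exp_eq_one_iff]
  exact ⟨n, by ring⟩

private theorem two_half (n : ℤ) : 1 + ex (n / 2) = if Even n then 2 else 0 := by
  split_ifs with h
  · obtain ⟨k, rfl⟩ := h
    have h1 : (((k + k : ℤ)) : ℂ) / 2 = (k : ℂ) := by
      push_cast
      ring
    rw [h1, two_ex_int]
    norm_num
  · rw [Int.not_even_iff_odd] at h
    obtain ⟨k, rfl⟩ := h
    have h1 : (((2 * k + 1 : ℤ)) : ℂ) / 2 = (k : ℂ) + 1 / 2 := by
      push_cast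
      ring
    rw [h1, two_ex_add, two_ex_int]
    unfold ex
    have h2 : 2 * (Real.pi : ℂ) * Complex.I * (1 / 2) = Real.pi * Complex.I := by ring
    rw [h2, Complex.exp_pi_mul_I]
    norm_num

private theorem two_right (H : ℤ → ℤ → ℂ) :
    ∑' p : ℤ × ℤ, H p.1 p.2 * (1 + ex ((p.1 + p.2 : ℤ) / 2))
      = 2 * ∑' u : OO, H u.im (-(2 * u.re + u.im)) := by
  have hinj : Function.Injective fun u : OO => ((u.im, -(2 * u.re + u.im)) : ℤ × ℤ) := by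
    intro u v h
    have h1 := congrArg Prod.fst h
    have h2 := congrArg Prod.snd h
    simp only at h1 h2
    apply QuadraticAlgebra.ext
    · omega
    · exact h1
  have hsup : Function.support (fun p : ℤ × ℤ => H p.1 p.2 * (1 + ex ((p.1 + p.2 : ℤ) / 2)))
      ⊆ Set.range fun u : OO => ((u.im, -(2 * u.re + u.im)) : ℤ × ℤ) := by
    intro p hp
    rw [Function.mem_support, two_half] at hp
    have h1 : Even (p.1 + p.2) := by
      by_contra h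
      rw [if_neg h, mul_zero] at hp
      exact hp rfl
    obtain ⟨k, hk⟩ := h1
    refine ⟨⟨-k, p.1⟩, ?_⟩
    ext
    · rfl
    · simp only
      omega
  rw [← hinj.tsum_eq hsup, ← tsum_mul_left]
  congr 1
  ext u
  simp only
  rw [two_half, if_pos ⟨-u.re, by ring⟩]
  ring

/-! ### The two products -/

private def T0 (τ : ℂ) (s : ℝ) : ℂ := ∑' x : ℤ, ex (τ * (x + s) ^ 2)
private def T1 (τ : ℂ) (s : ℝ) : ℂ := ∑' x : ℤ, (x + s) * ex (τ * (x + s) ^ 2)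
private def D0 (τ : ℂ) (s : ℝ) : ℂ := ∑' k : ℤ, ex (k * s - k ^ 2 / (4 * τ))
private def D1 (τ : ℂ) (s : ℝ) : ℂ := ∑' k : ℤ, k * ex (k * s - k ^ 2 / (4 * τ))

/-- the left product -/
private theorem two_prodL (hP : S_Poi) (τ : ℂ) (hτ : 0 < τ.im) (α β : ℝ) :
    (Summable fun p : ℤ × ℤ => ((p.1 + α : ℂ) - Complex.I * (√7 : ℝ) * (p.2 + β)) *
      ex (τ * (p.1 + α) ^ 2 + 7 * τ * (p.2 + β) ^ 2)) ∧
    ∑' p : ℤ × ℤ, ((p.1 + α : ℂ) - Complex.I * (√7 : ℝ) * (p.2 + β)) *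
      ex (τ * (p.1 + α) ^ 2 + 7 * τ * (p.2 + β) ^ 2)
      = T1 τ α * T0 (7 * τ) β - Complex.I * (√7 : ℝ) * (T0 τ α * T1 (7 * τ) β) := by
  have hτ7 : 0 < (7 * τ).im := by
    simp only [Complex.mul_im, Complex.re_ofNat, Complex.im_ofNat]
    linarith
  obtain ⟨-, -, a0, a1, -, -, -, -⟩ := hP τ α hτ
  obtain ⟨-, -, b0, b1, -, -, -, -⟩ := hP (7 * τ) β hτ7
  have s1 := summable_mul_of_summable_norm a1.norm b0.norm
  have s2 := summable_mul_of_summable_norm a0.norm b1.norm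
  have t1 := tsum_mul_tsum_of_summable_norm a1.norm b0.norm
  have t2 := tsum_mul_tsum_of_summable_norm a0.norm b1.norm
  have key : ∀ p : ℤ × ℤ, ((p.1 + α : ℂ) - Complex.I * (√7 : ℝ) * (p.2 + β)) *
      ex (τ * (p.1 + α) ^ 2 + 7 * τ * (p.2 + β) ^ 2)
      = (((p.1 : ℂ) + α) * ex (τ * ((p.1 : ℂ) + α) ^ 2)) * ex (7 * τ * ((p.2 : ℂ) + β) ^ 2)
        - Complex.I * (√7 : ℝ) * (ex (τ * ((p.1 : ℂ) + α) ^ 2) *
          (((p.2 : ℂ) + β) * ex (7 * τ * ((p.2 : ℂ) + β) ^ 2))) := by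
    intro p
    rw [two_ex_add]
    ring
  simp only [key]
  refine ⟨s1.sub (s2.mul_left _), ?_⟩
  rw [Summable.tsum_sub s1 (s2.mul_left _), tsum_mul_left, ← t1, ← t2]
  rfl

/-- the right product -/
private theorem two_prodR (hP : S_Poi) (τ : ℂ) (hτ : 0 < τ.im) (α β : ℝ) :
    (Summable fun p : ℤ × ℤ => ((p.1 : ℂ) - Complex.I * (√7 : ℝ) / 7 * p.2) *
      ex (p.1 * α + p.2 * β - p.1 ^ 2 / (4 * τ) - p.2 ^ 2 / (28 * τ))) ∧
    ∑' p : ℤ × ℤ, ((p.1 : ℂ) - Complex.I * (√7 : ℝ) / 7 * p.2) *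
      ex (p.1 * α + p.2 * β - p.1 ^ 2 / (4 * τ) - p.2 ^ 2 / (28 * τ))
      = D1 τ α * D0 (7 * τ) β - Complex.I * (√7 : ℝ) / 7 * (D0 τ α * D1 (7 * τ) β) := by
  have hτ7 : 0 < (7 * τ).im := by
    simp only [Complex.mul_im, Complex.re_ofNat, Complex.im_ofNat]
    linarith
  obtain ⟨-, -, -, -, a0, a1, -, -⟩ := hP τ α hτ
  obtain ⟨-, -, -, -, b0, b1, -, -⟩ := hP (7 * τ) β hτ7
  have s1 := summable_mul_of_summable_norm a1.norm b0.norm
  have s2 := summable_mul_of_summable_norm a0.norm b1.norm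
  have t1 := tsum_mul_tsum_of_summable_norm a1.norm b0.norm
  have t2 := tsum_mul_tsum_of_summable_norm a0.norm b1.norm
  have key : ∀ p : ℤ × ℤ, ((p.1 : ℂ) - Complex.I * (√7 : ℝ) / 7 * p.2) *
      ex (p.1 * α + p.2 * β - p.1 ^ 2 / (4 * τ) - p.2 ^ 2 / (28 * τ))
      = ((p.1 : ℂ) * ex (p.1 * α - p.1 ^ 2 / (4 * τ))) * ex (p.2 * β - p.2 ^ 2 / (4 * (7 * τ)))
        - Complex.I * (√7 : ℝ) / 7 * (ex (p.1 * α - p.1 ^ 2 / (4 * τ)) *
          ((p.2 : ℂ) * ex (p.2 * β - p.2 ^ 2 / (4 * (7 * τ))))) := by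
    intro p
    have e1 : (p.1 * α + p.2 * β - p.1 ^ 2 / (4 * τ) - p.2 ^ 2 / (28 * τ) : ℂ)
        = (p.1 * α - p.1 ^ 2 / (4 * τ)) + (p.2 * β - p.2 ^ 2 / (4 * (7 * τ))) := by
      rw [show (28 * τ : ℂ) = 4 * (7 * τ) by ring]
      ring
    rw [e1, two_ex_add]
    ring
  simp only [key]
  refine ⟨s1.sub (s2.mul_left _), ?_⟩
  rw [Summable.tsum_sub s1 (s2.mul_left _), tsum_mul_left, ← t1, ← t2]
  rfl

/-- the two products agree -/
private theorem two_swap (hP : S_Poi) (τ : ℂ) (hτ : 0 < τ.im) (α β : ℝ) :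
    T1 τ α * T0 (7 * τ) β - Complex.I * (√7 : ℝ) * (T0 τ α * T1 (7 * τ) β)
      = Complex.I / (4 * (√7 : ℝ) * τ ^ 2) *
        (D1 τ α * D0 (7 * τ) β - Complex.I * (√7 : ℝ) / 7 * (D0 τ α * D1 (7 * τ) β)) := by
  have hτ7 : 0 < (7 * τ).im := by
    simp only [Complex.mul_im, Complex.re_ofNat, Complex.im_ofNat]
    linarith
  have hτ0 : τ ≠ 0 := by
    rintro rfl
    simp at hτ
  have hs : ((√7 : ℝ) : ℂ) ≠ 0 := by
    have h1 : 0 < √(7 : ℝ) := Real.sqrt_pos.2 (by norm_num)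
    exact_mod_cast h1.ne'
  have hs2 : ((√7 : ℝ) : ℂ) ^ 2 = 7 := by
    have h1 : √(7 : ℝ) ^ 2 = 7 := Real.sq_sqrt (by norm_num)
    exact_mod_cast h1
  obtain ⟨k2, k7, -, -, -, -, a0, a1⟩ := hP τ α hτ
  obtain ⟨-, -, -, -, -, -, b0, b1⟩ := hP (7 * τ) β hτ7
  have c0 : T0 τ α = (Complex.I / (2 * τ)) ^ (1 / 2 : ℂ) * D0 τ α := a0
  have c1 : T1 τ α = (Complex.I / (2 * τ)) ^ (1 / 2 : ℂ) / (2 * τ) * D1 τ α := a1
  have d0 : T0 (7 * τ) β = (Complex.I / (2 * (7 * τ))) ^ (1 / 2 : ℂ) * D0 (7 * τ) β := b0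
  have d1 : T1 (7 * τ) β = (Complex.I / (2 * (7 * τ))) ^ (1 / 2 : ℂ) / (2 * (7 * τ)) * D1 (7 * τ) β :=
    b1
  rw [k7] at d0 d1
  rw [c0, c1, d0, d1]
  set κ : ℂ := (Complex.I / (2 * τ)) ^ (1 / 2 : ℂ) with hκ
  have e1 : κ / (2 * τ) * D1 τ α * (κ / (√7 : ℝ) * D0 (7 * τ) β) -
      Complex.I * (√7 : ℝ) * (κ * D0 τ α * (κ / (√7 : ℝ) / (2 * (7 * τ)) * D1 (7 * τ) β))
      = κ ^ 2 * (1 / (2 * τ * (√7 : ℝ))) * (D1 τ α * D0 (7 * τ) β
        - Complex.I * (√7 : ℝ) / 7 * (D0 τ α * D1 (7 * τ) β)) := by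
    field_simp
  rw [e1, k2]
  congr 1
  field_simp
  ring

theorem tTwo (_hB : S_Bas) (_hS : S_Sum) (hP : S_Poi) : S_Two := by
  intro m v₀ τ hm hτ
  have hm0 : (m : ℂ) ≠ 0 := by exact_mod_cast hm.ne'
  have hmR : (m : ℝ) ≠ 0 := by exact_mod_cast hm.ne'
  have hτ0 : τ ≠ 0 := by
    rintro rfl
    simp at hτ
  have hs : ((√7 : ℝ) : ℂ) ≠ 0 := by
    have h1 : 0 < √(7 : ℝ) := Real.sqrt_pos.2 (by norm_num)
    exact_mod_cast h1.ne'
  have hs2 : ((√7 : ℝ) : ℂ) ^ 2 = 7 := by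
    have h1 : √(7 : ℝ) ^ 2 = 7 := Real.sq_sqrt (by norm_num)
    exact_mod_cast h1
  have hw : wC = 1 / 2 + Complex.I * (√7 : ℝ) / 2 := by
    apply Complex.ext
    · simp [wC]
    · simp [wC]
  set t : ℂ := (m : ℂ) ^ 2 * τ with ht
  have htim : 0 < t.im := by
    have h1 : t.im = (m : ℝ) ^ 2 * τ.im := by
      rw [ht, show ((m : ℂ) ^ 2 : ℂ) = (((m : ℝ) ^ 2 : ℝ) : ℂ) by push_cast; rfl,
        Complex.im_ofReal_mul]
    rw [h1]
    positivity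
  have ht0 : t ≠ 0 := by
    intro h
    rw [h] at htim
    simp at htim
  set α : ℝ := (v₀.re + v₀.im / 2) / m with hα
  set β : ℝ := v₀.im / (2 * m) with hβ
  -- the left side
  have L1 : ∀ u : OO, toC (cjO (v₀ + m * u)) * ex (Nm (v₀ + m * u) * τ)
      = m * ((((2 * u.re + u.im : ℤ) : ℂ) / 2 + α - Complex.I * (√7 : ℝ) * ((u.im : ℂ) / 2 + β)) *
        ex (t * ((((2 * u.re + u.im : ℤ) : ℂ) / 2 + α) ^ 2 + 7 * ((u.im : ℂ) / 2 + β) ^ 2))) := by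
    intro u
    have hre : (v₀ + m * u).re = v₀.re + m * u.re := by
      rw [QuadraticAlgebra.re_add, QuadraticAlgebra.re_mul]
      simp only [QuadraticAlgebra.re_natCast, QuadraticAlgebra.im_natCast]
      ring
    have him : (v₀ + m * u).im = v₀.im + m * u.im := by
      rw [QuadraticAlgebra.im_add, QuadraticAlgebra.im_mul]
      simp only [QuadraticAlgebra.re_natCast, QuadraticAlgebra.im_natCast]
      ring
    have e1 : toC (cjO (v₀ + m * u)) = m * (((2 * u.re + u.im : ℤ) : ℂ) / 2 + α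
        - Complex.I * (√7 : ℝ) * ((u.im : ℂ) / 2 + β)) := by
      rw [toC_apply, hw, hα, hβ]
      simp only [cjO, hre, him]
      push_cast
      field_simp
      ring
    have e2 : (Nm (v₀ + m * u) : ℂ) * τ
        = t * ((((2 * u.re + u.im : ℤ) : ℂ) / 2 + α) ^ 2 + 7 * ((u.im : ℂ) / 2 + β) ^ 2) := by
      unfold Nm
      rw [hre, him, ht, hα, hβ]
      push_cast
      field_simp
      ring
    rw [e1, e2]
    ring
  simp only [L1]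
  rw [tsum_mul_left]
  have hαj : ∀ j : ℝ, ∀ p : ℤ, ((p : ℂ) + ((α + j / 2 : ℝ) : ℂ)) = ((2 * p : ℤ) : ℂ) / 2 + (j : ℂ) / 2 + α := by
    intro j p
    push_cast
    ring
  have hβj : ∀ j : ℝ, ∀ p : ℤ, ((p : ℂ) + ((β + j / 2 : ℝ) : ℂ)) = ((2 * p : ℤ) : ℂ) / 2 + (j : ℂ) / 2 + β := by
    intro j p
    push_cast
    ring
  obtain ⟨sL0, tL0⟩ := two_prodL hP t htim (α + 0 / 2) (β + 0 / 2)
  obtain ⟨sL1, tL1⟩ := two_prodL hP t htim (α + 1 / 2) (β + 1 / 2)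
  have g0 : ∀ p : ℤ × ℤ, ((p.1 : ℂ) + ((α + 0 / 2 : ℝ) : ℂ) - Complex.I * (√7 : ℝ) * (p.2 + ((β + 0 / 2 : ℝ) : ℂ))) *
      ex (t * (p.1 + ((α + 0 / 2 : ℝ) : ℂ)) ^ 2 + 7 * t * (p.2 + ((β + 0 / 2 : ℝ) : ℂ)) ^ 2)
      = (((2 * p.1 : ℤ) : ℂ) / 2 + α - Complex.I * (√7 : ℝ) * (((2 * p.2 : ℤ) : ℂ) / 2 + β)) *
        ex (t * ((((2 * p.1 : ℤ) : ℂ) / 2 + α) ^ 2 + 7 * (((2 * p.2 : ℤ) : ℂ) / 2 + β) ^ 2)) := by
    intro p
    congr 1
    · push_cast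
      ring
    · congr 1
      push_cast
      ring
  have g1 : ∀ p : ℤ × ℤ, ((p.1 : ℂ) + ((α + 1 / 2 : ℝ) : ℂ) - Complex.I * (√7 : ℝ) * (p.2 + ((β + 1 / 2 : ℝ) : ℂ))) *
      ex (t * (p.1 + ((α + 1 / 2 : ℝ) : ℂ)) ^ 2 + 7 * t * (p.2 + ((β + 1 / 2 : ℝ) : ℂ)) ^ 2)
      = (((2 * p.1 + 1 : ℤ) : ℂ) / 2 + α - Complex.I * (√7 : ℝ) * (((2 * p.2 + 1 : ℤ) : ℂ) / 2 + β)) *
        ex (t * ((((2 * p.1 + 1 : ℤ) : ℂ) / 2 + α) ^ 2 + 7 * (((2 * p.2 + 1 : ℤ) : ℂ) / 2 + β) ^ 2)) := by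
    intro p
    congr 1
    · push_cast
      ring
    · congr 1
      push_cast
      ring
  simp only [g0] at sL0 tL0
  simp only [g1] at sL1 tL1
  have hL := two_left (fun k l => ((k : ℂ) / 2 + α - Complex.I * (√7 : ℝ) * ((l : ℂ) / 2 + β)) *
        ex (t * (((k : ℂ) / 2 + α) ^ 2 + 7 * ((l : ℂ) / 2 + β) ^ 2))) sL0 sL1
  rw [hL, tL0, tL1, two_swap hP t htim, two_swap hP t htim]
  -- the right side
  obtain ⟨sR0, tR0⟩ := two_prodR hP t htim (α + 0 / 2) (β + 0 / 2)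
  obtain ⟨sR1, tR1⟩ := two_prodR hP t htim (α + 1 / 2) (β + 1 / 2)
  rw [← tR0, ← tR1, ← mul_add, ← Summable.tsum_add sR0 sR1]
  have hR := two_right (fun k l => ((k : ℂ) - Complex.I * (√7 : ℝ) / 7 * l) *
      ex (k * α + l * β - k ^ 2 / (4 * t) - l ^ 2 / (28 * t)))
  have r1 : ∀ p : ℤ × ℤ, ((p.1 : ℂ) - Complex.I * (√7 : ℝ) / 7 * p.2) *
      ex (p.1 * ((α + 0 / 2 : ℝ) : ℂ) + p.2 * ((β + 0 / 2 : ℝ) : ℂ) - p.1 ^ 2 / (4 * t) - p.2 ^ 2 / (28 * t))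
      + ((p.1 : ℂ) - Complex.I * (√7 : ℝ) / 7 * p.2) *
      ex (p.1 * ((α + 1 / 2 : ℝ) : ℂ) + p.2 * ((β + 1 / 2 : ℝ) : ℂ) - p.1 ^ 2 / (4 * t) - p.2 ^ 2 / (28 * t))
      = (((p.1 : ℂ) - Complex.I * (√7 : ℝ) / 7 * p.2) *
      ex (p.1 * α + p.2 * β - p.1 ^ 2 / (4 * t) - p.2 ^ 2 / (28 * t)))
        * (1 + ex ((p.1 + p.2 : ℤ) / 2)) := by
    intro p
    have e1 : (p.1 * ((α + 0 / 2 : ℝ) : ℂ) + p.2 * ((β + 0 / 2 : ℝ) : ℂ) - p.1 ^ 2 / (4 * t) - p.2 ^ 2 / (28 * t) : ℂ)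
        = p.1 * α + p.2 * β - p.1 ^ 2 / (4 * t) - p.2 ^ 2 / (28 * t) := by
      push_cast
      ring
    have e2 : (p.1 * ((α + 1 / 2 : ℝ) : ℂ) + p.2 * ((β + 1 / 2 : ℝ) : ℂ) - p.1 ^ 2 / (4 * t) - p.2 ^ 2 / (28 * t) : ℂ)
        = (p.1 * α + p.2 * β - p.1 ^ 2 / (4 * t) - p.2 ^ 2 / (28 * t)) + (p.1 + p.2 : ℤ) / 2 := by
      push_cast
      ring
    rw [e1, e2, two_ex_add]
    ring
  simp only [r1]
  rw [hR]
  -- the final comparison
  have f1 : ∀ u : OO, ((u.im : ℂ) - Complex.I * (√7 : ℝ) / 7 * ((-(2 * u.re + u.im) : ℤ) : ℂ)) *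
      ex (u.im * α + ((-(2 * u.re + u.im) : ℤ) : ℂ) * β - (u.im : ℂ) ^ 2 / (4 * t)
        - ((-(2 * u.re + u.im) : ℤ) : ℂ) ^ 2 / (28 * t))
      = (2 * Complex.I / (√7 : ℝ)) * (toC (cjO u) * ex (-(Nm u) / (7 * m ^ 2 * τ) - (v₀ * cjO u).im / m)) := by
    intro u
    have e1 : (u.im : ℂ) - Complex.I * (√7 : ℝ) / 7 * ((-(2 * u.re + u.im) : ℤ) : ℂ)
        = (2 * Complex.I / (√7 : ℝ)) * toC (cjO u) := by
      rw [toC_apply, hw]
      simp only [cjO]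
      push_cast
      have hI : Complex.I ^ 2 = -1 := Complex.I_sq
      field_simp
      ring_nf
      rw [hs2, hI]
      ring
    have e2 : (u.im * α + ((-(2 * u.re + u.im) : ℤ) : ℂ) * β - (u.im : ℂ) ^ 2 / (4 * t)
        - ((-(2 * u.re + u.im) : ℤ) : ℂ) ^ 2 / (28 * t))
        = -(Nm u) / (7 * m ^ 2 * τ) - (v₀ * cjO u).im / m := by
      have him : (v₀ * cjO u).im = -(v₀.re * u.im) + v₀.im * u.re := by
        rw [QuadraticAlgebra.im_mul]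
        simp only [cjO]
        ring
      rw [him, hα, hβ, ht]
      unfold Nm
      push_cast
      field_simp
      ring
    rw [e1, e2]
    ring
  simp only [f1]
  rw [tsum_mul_left]
  have hI : Complex.I * Complex.I = -1 := Complex.I_mul_I
  rw [ht]
  have key : (m : ℂ) * (Complex.I / (4 * (√7 : ℝ) * (m ^ 2 * τ) ^ 2) * (2 * (2 * Complex.I / (√7 : ℝ))))
      = -1 / (7 * m ^ 3 * τ ^ 2) := by
    field_simp
    ring_nf
    rw [hs2, Complex.I_sq]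
    ring
  rw [← key]
  ring

end Pool.Agent.DI.C
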