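import Pool.Agent.Lib.DI.C.Spec

set_option autoImplicit false

/-!
# THEOREM DI, Part C: (0.8) vertical limits
-/

open Filter Topology

noncomputable section

namespace Pool.Agent.DI.C

private theorem Ver_nm (m : ℕ) (v u : OO) :
    ∃ k : ℤ, Nm (v + (m : OO) * u) = Nm v + m * k := by
  have h1 : (v + (m : OO) * u).re = v.re + m * u.re := by
    have e1 : (v + (m : OO) * u).re = v.re + ((m : OO) * u).re := rfl
    have e2 : ((m : OO) * u).re = (m : OO).re * u.re + -2 * (m : OO).im * u.im :=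
      QuadraticAlgebra.re_mul _ u
    have e3 : (m : OO).re = (m : ℤ) := QuadraticAlgebra.re_natCast m
    have e4 : (m : OO).im = 0 := QuadraticAlgebra.im_natCast m
    rw [e1, e2, e3, e4]
    ring
  have h2 : (v + (m : OO) * u).im = v.im + m * u.im := by
    have e1 : (v + (m : OO) * u).im = v.im + ((m : OO) * u).im := rfl
    have e2 : ((m : OO) * u).im = (m : OO).re * u.im + (m : OO).im * u.re + 1 * (m : OO).im * u.im :=
      QuadraticAlgebra.im_mul _ u
    have e3 : (m : OO).re = (m : ℤ) := QuadraticAlgebra.re_natCast m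
    have e4 : (m : OO).im = 0 := QuadraticAlgebra.im_natCast m
    rw [e1, e2, e3, e4]
    ring
  refine ⟨2 * v.re * u.re + m * u.re ^ 2 + v.re * u.im + v.im * u.re + m * u.re * u.im +
    4 * v.im * u.im + 2 * m * u.im ^ 2, ?_⟩
  unfold Nm
  rw [h1, h2]
  ring

private theorem Ver_term (hB : S_Bas) (ρ : OO → ℂ) (f n : ℕ) (b : ℤ) (hf : 0 < f) (hn : 0 < n)
    (hρ : PerO f ρ) (y : ℝ) (v u : OO) :
    ρ (v + ((f * n : ℕ) : OO) * u) / toC (v + ((f * n : ℕ) : OO) * u) *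
      ex (Nm (v + ((f * n : ℕ) : OO) * u) * ((b : ℂ) / n + y * Complex.I)) =
    (ρ v * ex (b / n * Nm v) * ((f : ℂ) * n)⁻¹) * ((toC v / (f * n) + toC u)⁻¹ *
      (Real.exp (-(2 * Real.pi * y * ((f : ℝ) * n) ^ 2) * ‖toC v / (f * n) + toC u‖ ^ 2) : ℝ)) := by
  have hf' : (f : ℂ) ≠ 0 := Nat.cast_ne_zero.2 hf.ne'
  have hn' : (n : ℂ) ≠ 0 := Nat.cast_ne_zero.2 hn.ne'
  have h1 : ρ (v + ((f * n : ℕ) : OO) * u) = ρ v := by
    have e : ((f * n : ℕ) : OO) * u = f * ((n : OO) * u) := by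
      rw [Nat.cast_mul, mul_assoc]
    rw [e]
    exact hρ v _
  have h2 : toC (v + ((f * n : ℕ) : OO) * u) = ((f : ℂ) * n) * (toC v / (f * n) + toC u) := by
    rw [map_add, map_mul, map_natCast, Nat.cast_mul]
    field_simp
  have h4 : ((Nm (v + ((f * n : ℕ) : OO) * u) : ℤ) : ℝ) =
      ((f : ℝ) * n) ^ 2 * ‖toC v / (f * n) + toC u‖ ^ 2 := by
    rw [← hB.1 (v + ((f * n : ℕ) : OO) * u), h2, norm_mul, norm_mul, mul_pow]
    simp
  obtain ⟨k, hk⟩ := Ver_nm (f * n) v u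
  have h3 : ex (Nm (v + ((f * n : ℕ) : OO) * u) * ((b : ℂ) / n + y * Complex.I)) =
      ex (b / n * Nm v) *
      (Real.exp (-(2 * Real.pi * y * ((f : ℝ) * n) ^ 2) * ‖toC v / (f * n) + toC u‖ ^ 2) : ℝ) := by
    have e1 : -(2 * Real.pi * y * ((f : ℝ) * n) ^ 2) * ‖toC v / (f * n) + toC u‖ ^ 2 =
        -(2 * Real.pi * y) * (Nm (v + ((f * n : ℕ) : OO) * u) : ℤ) := by
      rw [h4]
      ring
    rw [e1]
    have e2 : ((Nm (v + ((f * n : ℕ) : OO) * u) : ℤ) : ℂ) = Nm v + f * n * k := by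
      rw [hk]
      push_cast
      ring
    unfold ex
    have e3 : 2 * (Real.pi : ℂ) * Complex.I * (((Nm (v + ((f * n : ℕ) : OO) * u) : ℤ) : ℂ) *
        ((b : ℂ) / n + y * Complex.I)) =
        2 * Real.pi * Complex.I * (b / n * Nm v) + ((f * k * b : ℤ) : ℂ) * (2 * Real.pi * Complex.I)
          + (-(2 * Real.pi * y) * ((Nm (v + ((f * n : ℕ) : OO) * u) : ℤ) : ℂ)) := by
      have e4 : 2 * (Real.pi : ℂ) * Complex.I * (((Nm (v + ((f * n : ℕ) : OO) * u) : ℤ) : ℂ) *
        ((b : ℂ) / n + y * Complex.I)) =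
        2 * (Real.pi : ℂ) * Complex.I * (((Nm (v + ((f * n : ℕ) : OO) * u) : ℤ) : ℂ) * ((b : ℂ) / n))
        + 2 * (Real.pi : ℂ) * y * ((Nm (v + ((f * n : ℕ) : OO) * u) : ℤ) : ℂ) *
          (Complex.I * Complex.I) := by ring
      rw [e4, Complex.I_mul_I]
      have e5 : (((Nm (v + ((f * n : ℕ) : OO) * u) : ℤ) : ℂ) * ((b : ℂ) / n)) =
          b / n * Nm v + f * k * b := by
        rw [e2]
        field_simp
      rw [e5]
      push_cast
      ring
    rw [e3, Complex.exp_add, Complex.exp_add, Complex.exp_int_mul_two_pi_mul_I, mul_one]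
    congr 1
    push_cast
    rfl
  rw [h1, h2, h3, mul_inv_rev, div_eq_mul_inv, mul_inv_rev]
  ring

theorem tVer (hB : S_Bas) (hS : S_Sum) (hR : S_Res) (hD : S_Der) : S_Ver := by
  intro hK f ρ b n hf hn hodd hper
  have _ := hS
  have hm : 0 < f * n := Nat.mul_pos hf hn
  have hmC : ((f : ℂ) * n) ≠ 0 := by
    have h1 : (f : ℂ) ≠ 0 := Nat.cast_ne_zero.2 hf.ne'
    have h2 : (n : ℂ) ≠ 0 := Nat.cast_ne_zero.2 hn.ne'
    exact mul_ne_zero h1 h2
  have hmR : (0 : ℝ) < ((f : ℝ) * n) ^ 2 := by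
    have h1 : (0 : ℝ) < f := Nat.cast_pos.2 hf
    have h2 : (0 : ℝ) < n := Nat.cast_pos.2 hn
    positivity
  have key : ∀ y : ℝ, 0 < y → Th ρ (((b / n : ℚ) : ℂ) + y * Complex.I) =
      1 / 2 * rsum (f * n) fun v => (ρ v * ex (b / n * Nm v) * ((f : ℂ) * n)⁻¹) *
        KtC (2 * Real.pi * y * ((f : ℝ) * n) ^ 2) (toC v / (f * n)) := by
    intro y hy
    have hz : 0 < ((b : ℂ) / n + y * Complex.I).im := by
      have e : ((b : ℂ) / n + y * Complex.I).im = y := by
        have e1 : ((b : ℂ) / n) = ((b / n : ℝ) : ℂ) := by push_cast; rfl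
        rw [e1]
        simp
      rw [e]
      exact hy
    have hc : (((b / n : ℚ)) : ℂ) = (b : ℂ) / n := by push_cast; rfl
    rw [hc]
    unfold Th
    rw [(hR.2.1 (f * n) _ hm ((hD f ρ hf hper).2.1 _ hz)).2]
    congr 2
    funext v
    unfold KtC
    rw [← tsum_mul_left]
    apply tsum_congr
    intro u
    exact Ver_term hB ρ f n b hf hn hper y v u
  have hlim : Tendsto (fun y : ℝ => 1 / 2 * rsum (f * n) fun v =>
      (ρ v * ex (b / n * Nm v) * ((f : ℂ) * n)⁻¹) *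
        KtC (2 * Real.pi * y * ((f : ℝ) * n) ^ 2) (toC v / (f * n))) (𝓝[>] 0)
      (𝓝 (1 / 2 * rsum (f * n) fun v => (ρ v * ex (b / n * Nm v) * ((f : ℂ) * n)⁻¹) *
        (OmC * EC (toC v / (f * n))))) := by
    apply Tendsto.const_mul
    unfold rsum
    apply tendsto_finsetSum
    intro x _
    apply tendsto_finsetSum
    intro x' _
    by_cases hL : Lat (toC (⟨(x : ℤ), (x' : ℤ)⟩ : OO) / (f * n))
    · obtain ⟨u, hu⟩ := hL
      have h0 : ρ (⟨(x : ℤ), (x' : ℤ)⟩ : OO) = 0 := by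
        have h1 : (⟨(x : ℤ), (x' : ℤ)⟩ : OO) = 0 + (f : OO) * ((n : OO) * u) := by
          have h2 : toC (⟨(x : ℤ), (x' : ℤ)⟩ : OO) = toC ((f : OO) * ((n : OO) * u)) := by
            have e1 : toC (⟨(x : ℤ), (x' : ℤ)⟩ : OO) = ((f : ℂ) * n) * toC u := by
              rw [← hu, mul_div_cancel₀ _ hmC]
            rw [map_mul, map_mul, map_natCast, map_natCast, e1, mul_assoc]
          have h3 : toC ((⟨(x : ℤ), (x' : ℤ)⟩ : OO) - (f : OO) * ((n : OO) * u)) = 0 := by
            rw [map_sub, h2, sub_self]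
          have h4 := (hB.2.2.2.2.2.2.2.2.2.1 _).1 h3
          rw [zero_add]
          exact sub_eq_zero.1 h4
        rw [h1, hper 0 ((n : OO) * u)]
        have h5 := hodd 0
        rw [neg_zero] at h5
        have h6 : ρ 0 + ρ 0 = 0 := by
          nth_rw 1 [h5]
          ring
        exact add_self_eq_zero.1 h6
      beta_reduce
      rw [h0]
      simp only [zero_mul]
      exact tendsto_const_nhds
    · apply Tendsto.const_mul
      refine (hK _ hL).comp ?_
      rw [tendsto_nhdsWithin_iff]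
      constructor
      · have h1 : Tendsto (fun y : ℝ => 2 * Real.pi * y * ((f : ℝ) * n) ^ 2) (𝓝 0)
            (𝓝 (2 * Real.pi * 0 * ((f : ℝ) * n) ^ 2)) := by
          apply Continuous.tendsto
          fun_prop
        have h2 : 2 * Real.pi * 0 * ((f : ℝ) * n) ^ 2 = 0 := by ring
        rw [h2] at h1
        exact h1.mono_left nhdsWithin_le_nhds
      · filter_upwards [self_mem_nhdsWithin] with y hy
        have hy' : (0 : ℝ) < y := hy
        have hp := Real.pi_pos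
        exact mul_pos (mul_pos (mul_pos two_pos hp) hy') hmR
  have hlim2 : Tendsto (fun y : ℝ => Th ρ (((b / n : ℚ) : ℂ) + y * Complex.I)) (𝓝[>] 0)
      (𝓝 (1 / 2 * rsum (f * n) fun v => (ρ v * ex (b / n * Nm v) * ((f : ℂ) * n)⁻¹) *
        (OmC * EC (toC v / (f * n))))) := by
    refine hlim.congr' ?_
    filter_upwards [self_mem_nhdsWithin] with y hy
    exact (key y hy).symm
  have hfin : hC ρ (b / n : ℚ) = 1 / 2 * rsum (f * n) fun v =>
      (ρ v * ex (b / n * Nm v) * ((f : ℂ) * n)⁻¹) * (OmC * EC (toC v / (f * n))) :=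
    hlim2.limUnder_eq
  rw [hfin]
  unfold rsum
  rw [Finset.mul_sum, Finset.mul_sum]
  apply Finset.sum_congr rfl
  intro x _
  rw [Finset.mul_sum, Finset.mul_sum]
  apply Finset.sum_congr rfl
  intro x' _
  field_simp

end Pool.Agent.DI.C
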