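import Pool.Agent.Lib.DI.C.Bas
import Pool.Agent.Lib.DI.C.Sum
import Pool.Agent.Lib.DI.C.Poi
import Pool.Agent.Lib.DI.C.Two
import Pool.Agent.Lib.DI.C.Res
import Pool.Agent.Lib.DI.C.Gau
import Pool.Agent.Lib.DI.C.Uni
import Pool.Agent.Lib.DI.C.Gen
import Pool.Agent.Lib.DI.C.Gam
import Pool.Agent.Lib.DI.C.Kap
import Pool.Agent.Lib.DI.C.Eps
import Pool.Agent.Lib.DI.C.Der
import Pool.Agent.Lib.DI.C.Phi
import Pool.Agent.Lib.DI.C.Cus
import Pool.Agent.Lib.DI.C.Hh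
import Pool.Agent.Lib.DI.C.Ver
import Pool.Agent.Lib.DI.C.Fun
import Pool.Agent.Lib.DI.C.Main

/-!
# THEOREM DI, Part C: the assembly
-/

noncomputable section

namespace Pool.Agent.DI.C

theorem aBas : S_Bas := tBas
theorem aSum : S_Sum := tSum aBas
theorem aTwo : S_Two := tTwo aBas aSum tPoi
theorem aUni : S_Uni := tUni aBas aSum
theorem aGen : S_Gen := tGen aBas aSum tRes aTwo
theorem aGam : S_Gam := tGam aBas tRes
theorem aKap : S_Kap := tKap aBas aSum aGen aGam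
theorem aEps : S_Eps := tEps aBas aSum tRes tGau aUni aGen aKap
theorem aDer : S_Der := tDer aBas aSum
theorem aPhi : S_Phi := tPhi aEps aDer
theorem aCus : S_Cus := tCus aBas aSum aGen aDer
theorem aCusB : S_CusB := tCusB aBas aSum aGen aDer
theorem aHh : S_Hh := tHh aDer aPhi aCus
theorem aVer : S_Ver := tVer aBas aSum tRes aDer
theorem aFun : S_Fun := tFun aBas aDer aHh

/-! ## The interface -/

theorem iC1 : DI.S_C1 := tC1 aPhi aHh
theorem iC2 : DI.S_C2 := tC2 aCusB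
theorem iC3 (hB : DI.S_B11) : DI.S_C3 := tC3 hB aHh aVer
theorem iC4 : DI.S_C4 := tC4 aFun
theorem iC5 : DI.S_C5 := tC5 aHh aFun
theorem iC6 : DI.S_C6 := tC6 aDer

end Pool.Agent.DI.C
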