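import Pool.Agent.Lib.DI.C.Spec

/-!
# THEOREM DI, Part C, module Bas: the ring `O`
-/

noncomputable section

namespace Pool.Agent.DI.C

open scoped QuadraticAlgebra

private theorem bas_re_mul (v u : OO) : (v * u).re = v.re * u.re - 2 * v.im * u.im := by
  rw [QuadraticAlgebra.re_mul]
  ring

private theorem bas_im_mul (v u : OO) :
    (v * u).im = v.re * u.im + v.im * u.re + v.im * u.im := by
  rw [QuadraticAlgebra.im_mul]
  ring

private theorem bas_ext {v u : OO} (h1 : v.re = u.re) (h2 : v.im = u.im) : v = u :=
  QuadraticAlgebra.ext h1 h2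

private theorem bas_sq7 : (√7 : ℝ) * √7 = 7 := Real.mul_self_sqrt (by norm_num)

private theorem bas_toC_re (v : OO) : (toC v).re = v.re + v.im / 2 := by
  rw [toC_apply]
  simp only [wC, Complex.add_re, Complex.intCast_re, Complex.mul_re, Complex.intCast_im]
  ring

private theorem bas_toC_im (v : OO) : (toC v).im = v.im * √7 / 2 := by
  rw [toC_apply]
  simp only [wC, Complex.add_im, Complex.intCast_re, Complex.mul_im, Complex.intCast_im]
  ring

private theorem bas_norm (v : OO) : ‖toC v‖ ^ 2 = (Nm v : ℝ) := by
  rw [← Complex.normSq_eq_norm_sq, Complex.normSq_apply, bas_toC_re, bas_toC_im]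
  unfold Nm
  push_cast
  linear_combination ((v.im : ℝ) ^ 2 / 4) * bas_sq7

private theorem bas_nonneg (v : OO) : v.re ^ 2 + v.im ^ 2 ≤ 2 * Nm v := by
  unfold Nm
  nlinarith [sq_nonneg (v.re + v.im), sq_nonneg v.im]

private theorem bas_nm0 (v : OO) : 0 ≤ Nm v := by
  have h := bas_nonneg v
  nlinarith [sq_nonneg v.re, sq_nonneg v.im]

private theorem bas_zero (v : OO) : Nm v = 0 ↔ v = 0 := by
  constructor
  · intro h
    have h1 := bas_nonneg v
    rw [h] at h1
    have h2 : v.re ^ 2 = 0 := by nlinarith [sq_nonneg v.re, sq_nonneg v.im]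
    have h3 : v.im ^ 2 = 0 := by nlinarith [sq_nonneg v.re, sq_nonneg v.im]
    exact bas_ext (pow_eq_zero_iff (by norm_num) |>.1 h2) (pow_eq_zero_iff (by norm_num) |>.1 h3)
  · rintro rfl
    unfold Nm
    simp

private theorem bas_even (v : OO) : 2 ∣ Nm v ↔ pO ∣ v ∨ pbO ∣ v := by
  constructor
  · rintro ⟨n, hn⟩
    unfold Nm at hn
    have h1 : Even (v.re * (v.re + v.im)) := by
      refine ⟨n - v.im ^ 2, ?_⟩
      linear_combination hn
    rcases Int.even_mul.1 h1 with h | h
    · left
      obtain ⟨k, hk⟩ := h
      refine ⟨⟨v.im + k, -k⟩, ?_⟩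
      apply bas_ext
      · rw [bas_re_mul]
        simp only [pO]
        linarith
      · rw [bas_im_mul]
        simp only [pO]
        ring
    · right
      obtain ⟨k, hk⟩ := h
      refine ⟨⟨-v.im, k⟩, ?_⟩
      apply bas_ext
      · rw [bas_re_mul]
        simp only [pbO]
        linarith
      · rw [bas_im_mul]
        simp only [pbO]
        ring
  · rintro (⟨u, rfl⟩ | ⟨u, rfl⟩)
    · refine ⟨Nm u, ?_⟩
      unfold Nm
      rw [bas_re_mul, bas_im_mul]
      simp only [pO]
      ring
    · refine ⟨Nm u, ?_⟩
      unfold Nm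
      rw [bas_re_mul, bas_im_mul]
      simp only [pbO]
      ring

theorem tBas : S_Bas := by
  refine ⟨bas_norm, ?_, ?_, ?_, ?_, ?_, ?_, ?_, ?_, ?_, bas_even⟩
  · intro v
    apply Complex.ext
    · rw [Complex.conj_re, bas_toC_re, bas_toC_re]
      simp only [cjO]
      push_cast
      ring
    · rw [Complex.conj_im, bas_toC_im, bas_toC_im]
      simp only [cjO]
      push_cast
      ring
  · intro v u
    refine ⟨?_, ?_, ?_⟩
    · apply bas_ext
      · simp only [cjO, bas_re_mul, bas_im_mul]
        ring
      · simp only [cjO, bas_re_mul, bas_im_mul]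
        ring
    · apply bas_ext
      · simp only [cjO, QuadraticAlgebra.re_add, QuadraticAlgebra.im_add]
        ring
      · simp only [cjO, QuadraticAlgebra.re_add, QuadraticAlgebra.im_add]
        ring
    · apply bas_ext
      · simp only [cjO]
        ring
      · simp only [cjO]
        ring
  · intro v u
    unfold Nm
    rw [bas_re_mul, bas_im_mul]
    ring
  · intro v
    refine ⟨?_, ?_, ?_⟩
    · apply bas_ext
      · rw [bas_re_mul, QuadraticAlgebra.re_intCast]
        simp only [cjO, Nm, Int.cast_id]
        ring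
      · rw [bas_im_mul, QuadraticAlgebra.im_intCast]
        simp only [cjO]
        ring
    · simp only [Nm, cjO]
      ring
    · simp only [Nm, QuadraticAlgebra.re_neg, QuadraticAlgebra.im_neg]
      ring
  · intro v
    exact ⟨bas_nm0 v, bas_zero v, bas_nonneg v⟩
  · intro v u
    unfold Nm
    rw [bas_re_mul, bas_im_mul]
    simp only [cjO, QuadraticAlgebra.re_add, QuadraticAlgebra.im_add]
    ring
  · refine ⟨?_, ?_, ?_⟩
    · apply bas_ext
      · rw [bas_re_mul]
        rfl
      · rw [bas_im_mul]
        rfl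
    · rfl
    · apply bas_ext
      · rw [bas_re_mul]
        rfl
      · rw [bas_im_mul]
        rfl
  · intro v
    rw [bas_re_mul, bas_im_mul]
    simp only [s7]
    constructor <;> ring
  · intro v
    constructor
    · intro h
      have h1 := bas_norm v
      rw [h, norm_zero] at h1
      apply (bas_zero v).1
      have h2 : (Nm v : ℝ) = 0 := by
        rw [← h1]
        norm_num
      exact_mod_cast h2
    · rintro rfl
      exact map_zero toC

end Pool.Agent.DI.C
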