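import Pool.Agent.Lib.DI.C.Spec

set_option autoImplicit false

/-!
# THEOREM DI (MP_d0239a_nt), Part C: the values `h(r)`
-/

open Filter Topology

noncomputable section

namespace Pool.Agent.DI.C

private theorem Hh_lim (f : ℕ) (hf : 0 < f) (ρ : OO → ℂ) (A B C D : ℤ) (k : ℂ) (K : ℝ)
    (hb : ∀ z : ℂ, 1 ≤ z.im → ‖Th ρ (mob A B C D z) - k‖ ≤
      K * Real.exp (-2 * Real.pi * z.im / (7 * f ^ 2)))
    (w : ℝ → ℂ) (hw : Tendsto (fun y => (w y).im) (𝓝[>] (0 : ℝ)) atTop) :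
    Tendsto (fun y => Th ρ (mob A B C D (w y))) (𝓝[>] (0 : ℝ)) (𝓝 k) := by
  rw [tendsto_iff_norm_sub_tendsto_zero]
  have hpos : (0 : ℝ) < 7 * (f : ℝ) ^ 2 := by positivity
  have h1 : Tendsto (fun y => K * Real.exp (-2 * Real.pi * (w y).im / (7 * (f : ℝ) ^ 2)))
      (𝓝[>] (0 : ℝ)) (𝓝 (K * 0)) := by
    refine Tendsto.const_mul K (Real.tendsto_exp_atBot.comp ?_)
    have h2 : Tendsto (fun y => (2 * Real.pi / (7 * (f : ℝ) ^ 2)) * (w y).im) (𝓝[>] (0 : ℝ)) atTop :=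
      Tendsto.const_mul_atTop (div_pos Real.two_pi_pos hpos) hw
    have h3 := tendsto_neg_atTop_atBot.comp h2
    refine h3.congr fun y => ?_
    simp only [Function.comp]
    ring
  rw [mul_zero] at h1
  refine squeeze_zero' (Eventually.of_forall fun y => norm_nonneg _) ?_ h1
  filter_upwards [hw.eventually_ge_atTop 1] with y hy
  exact hb _ hy

/-- the point `γ⁻¹ (A / C + i y)` -/
private def Hh_w (C D : ℤ) (y : ℝ) : ℂ :=
  ((-(D : ℝ) / C : ℝ) : ℂ) + ((((C : ℝ) ^ 2)⁻¹ * y⁻¹ : ℝ) : ℂ) * Complex.I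

private theorem Hh_w_im (C D : ℤ) (y : ℝ) : (Hh_w C D y).im = ((C : ℝ) ^ 2)⁻¹ * y⁻¹ := by
  unfold Hh_w
  rw [Complex.add_im, Complex.ofReal_im, Complex.im_ofReal_mul, Complex.I_im, mul_one, zero_add]

private theorem Hh_w_tendsto (C D : ℤ) (hC : C ≠ 0) :
    Tendsto (fun y => (Hh_w C D y).im) (𝓝[>] (0 : ℝ)) atTop := by
  simp only [Hh_w_im]
  refine Tendsto.const_mul_atTop ?_ tendsto_inv_nhdsGT_zero
  have : (C : ℝ) ≠ 0 := by exact_mod_cast hC
  positivity

private theorem Hh_mob (A B C D : ℤ) (hC : C ≠ 0) (hd : A * D - B * C = 1) (y : ℝ) (hy : 0 < y) :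
    mob A B C D (Hh_w C D y) = ((A : ℚ) / C : ℚ) + y * Complex.I := by
  have hC' : (C : ℂ) ≠ 0 := by exact_mod_cast hC
  have hy' : (y : ℂ) ≠ 0 := by exact_mod_cast hy.ne'
  have hd' : (A : ℂ) * D - B * C = 1 := by exact_mod_cast hd
  have hI : Complex.I * Complex.I = -1 := Complex.I_mul_I
  have h1 : (C : ℂ) * Hh_w C D y + D = Complex.I / (C * y) := by
    unfold Hh_w
    push_cast
    field_simp
    ring
  have h2 : (A : ℂ) * Hh_w C D y + B = -1 / C + A * Complex.I / (C ^ 2 * y) := by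
    unfold Hh_w
    push_cast
    field_simp
    linear_combination (-(y : ℂ)) * C * hd'
  unfold mob
  rw [h1, h2]
  have h3 : Complex.I / (C * y) ≠ 0 := div_ne_zero Complex.I_ne_zero (mul_ne_zero hC' hy')
  rw [div_eq_iff h3]
  push_cast
  field_simp
  linear_combination (-(y : ℂ)) * C * hI

private theorem Hh_vert (f : ℕ) (hf : 0 < f) (ρ : OO → ℂ) (A B C D : ℤ) (hC : C ≠ 0)
    (hd : A * D - B * C = 1) (k : ℂ) (K : ℝ)
    (hb : ∀ z : ℂ, 1 ≤ z.im → ‖Th ρ (mob A B C D z) - k‖ ≤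
      K * Real.exp (-2 * Real.pi * z.im / (7 * f ^ 2))) :
    Tendsto (fun y : ℝ => Th ρ (((A : ℚ) / C : ℚ) + y * Complex.I)) (𝓝[>] (0 : ℝ)) (𝓝 k) := by
  refine (Hh_lim f hf ρ A B C D k K hb _ (Hh_w_tendsto C D hC)).congr' ?_
  filter_upwards [self_mem_nhdsWithin] with y hy
  rw [Hh_mob A B C D hC hd y hy]

private theorem Hh_hC (ρ : OO → ℂ) (r : ℚ) (k : ℂ)
    (h : Tendsto (fun y : ℝ => Th ρ (r + y * Complex.I)) (𝓝[>] (0 : ℝ)) (𝓝 k)) : hC ρ r = k :=
  h.limUnder_eq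

private theorem Hh_bez (r : ℚ) : ∃ B D : ℤ, r.num * D - B * (r.den : ℤ) = 1 := by
  have h : IsCoprime r.num (r.den : ℤ) := by
    rw [Int.isCoprime_iff_gcd_eq_one]
    simpa [Int.gcd] using r.reduced
  obtain ⟨u, v, h⟩ := h
  exact ⟨-v, u, by linarith⟩

private theorem Hh_per (f : ℕ) (ρ : OO → ℂ) (a : OO) (h : PerO f ρ) : PerO f (rO ρ a) := by
  intro v u
  unfold rO
  rw [mul_add, show a * ((f : OO) * u) = (f : OO) * (a * u) by ring]
  exact h _ _

private theorem Hh_odd (ρ : OO → ℂ) (a : OO) (h : OddO ρ) : OddO (rO ρ a) := by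
  intro v
  unfold rO
  rw [mul_neg]
  exact h _

private theorem Hh_one (hC' : S_Cus) (f : ℕ) (hf : 0 < f) (ρ : OO → ℂ) (hp : PerO f ρ) (r : ℚ) :
    Tendsto (fun y : ℝ => Th ρ (r + y * Complex.I)) (𝓝[>] 0) (𝓝 (hC ρ r)) := by
  obtain ⟨B, D, hd⟩ := Hh_bez r
  obtain ⟨k, e, K, -, -, hb⟩ := hC' f r.num B r.den D ρ hf hd hp
  have h0 : ((r.den : ℤ)) ≠ 0 := by exact_mod_cast r.den_ne_zero
  have h1 := Hh_vert f hf ρ r.num B r.den D h0 hd k K hb
  have h2 : ((r.num : ℚ) / ((r.den : ℤ) : ℚ)) = r := by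
    rw [Int.cast_natCast]
    exact Rat.num_div_den r
  rw [h2] at h1
  rw [Hh_hC ρ r k h1]
  exact h1

private theorem Hh_ThT (ρ : OO → ℂ) (z : ℂ) (n : ℤ) : Th ρ (z + n) = Th ρ z := by
  unfold Th
  congr 1
  refine tsum_congr fun v => ?_
  congr 1
  unfold ex
  rw [show 2 * (Real.pi : ℂ) * Complex.I * ((Nm v : ℂ) * (z + n)) =
    2 * Real.pi * Complex.I * (Nm v * z) + ((Nm v * n : ℤ) : ℂ) * (2 * Real.pi * Complex.I) by
      push_cast; ring, Complex.exp_add, Complex.exp_int_mul_two_pi_mul_I, mul_one]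

theorem tHh (hD : S_Der) (hP : S_Phi) (hC : S_Cus) : S_Hh := by
  intro f ρ hf h7 ho hp
  have hf0 : 0 < f := hf.pos
  refine ⟨fun r => Hh_one hC f hf0 ρ hp r, ?_, ?_⟩
  · intro a b c d hdet hc r hr
    obtain ⟨B, D, hd⟩ := Hh_bez r
    have h0 : ((r.den : ℤ)) ≠ 0 := by exact_mod_cast r.den_ne_zero
    have hdq : ((r.den : ℤ) : ℚ) ≠ 0 := by exact_mod_cast h0
    have hrq : ((r.num : ℚ) / ((r.den : ℤ) : ℚ)) = r := by
      rw [Int.cast_natCast]
      exact Rat.num_div_den r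
    -- the product
    have hdet' : (a * r.num + b * r.den) * (c * B + d * D) -
        (a * B + b * D) * (c * r.num + d * r.den) = 1 := by
      linear_combination (r.num * D - B * (r.den : ℤ)) * hdet + hd
    have hC0 : c * r.num + d * r.den ≠ 0 := by
      intro h
      apply hr
      have h1 : (c : ℚ) * r.num + d * ((r.den : ℤ) : ℚ) = 0 := by exact_mod_cast h
      have h2 : (r.num : ℚ) = r * ((r.den : ℤ) : ℚ) := by
        exact (div_eq_iff hdq).1 hrq
      rw [h2] at h1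
      have h3 : ((c : ℚ) * r + d) * ((r.den : ℤ) : ℚ) = 0 := by linear_combination h1
      exact (mul_eq_zero.1 h3).resolve_right hdq
    obtain ⟨k, e, K, -, -, hb⟩ := hC f (a * r.num + b * r.den) (a * B + b * D)
      (c * r.num + d * r.den) (c * B + d * D) ρ hf0 hdet' hp
    -- the value at `g r`
    have h1 := Hh_hC ρ _ k (Hh_vert f hf0 ρ _ _ _ _ hC0 hdet' k K hb)
    have h2 : (((a * r.num + b * r.den : ℤ) : ℚ) / ((c * r.num + d * r.den : ℤ) : ℚ)) =
        mobQ a b c d r := by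
      have hn : (r.num : ℚ) = r * ((r.den : ℤ) : ℚ) := by
        exact (div_eq_iff hdq).1 hrq
      unfold mobQ
      rw [Int.cast_add, Int.cast_add, Int.cast_mul, Int.cast_mul, Int.cast_mul, Int.cast_mul, hn]
      rw [show (a : ℚ) * (r * ((r.den : ℤ) : ℚ)) + b * ((r.den : ℤ) : ℚ) =
        (a * r + b) * ((r.den : ℤ) : ℚ) by ring,
        show (c : ℚ) * (r * ((r.den : ℤ) : ℚ)) + d * ((r.den : ℤ) : ℚ) =
        (c * r + d) * ((r.den : ℤ) : ℚ) by ring, mul_div_mul_right _ _ hdq]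
    rw [h2] at h1
    rw [h1]
    -- the limit of `Th ρ (g (r + i y))`
    have h3 := Hh_lim f hf0 ρ _ _ _ _ k K hb _ (Hh_w_tendsto r.den D h0)
    have h4 : Tendsto (fun y : ℝ => eps (d : OO) * Th (rO ρ (d : OO)) (r + y * Complex.I) +
        PhC ρ a b c d) (𝓝[>] (0 : ℝ)) (𝓝 k) := by
      refine h3.congr' ?_
      filter_upwards [self_mem_nhdsWithin] with y hy
      have hy' : (0 : ℝ) < y := hy
      have hz : (0 : ℝ) < ((r : ℂ) + y * Complex.I).im := by
        simpa using hy'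
      rw [← (hP f ρ hf h7 ho hp).1 a b c d hdet hc _ hz]
      congr 1
      have h5 := Hh_mob r.num B r.den D h0 hd y hy'
      rw [hrq] at h5
      rw [← h5]
      have hw : (Hh_w (r.den : ℤ) D y).im ≠ 0 := by
        rw [Hh_w_im]
        have : ((r.den : ℤ) : ℝ) ≠ 0 := by exact_mod_cast h0
        positivity
      have h6 : ((r.den : ℤ) : ℂ) * Hh_w (r.den : ℤ) D y + D ≠ 0 := by
        intro h
        have h7 := congrArg Complex.im h
        rw [Complex.add_im, Complex.intCast_im, add_zero, ← Complex.ofReal_intCast,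
          Complex.im_ofReal_mul, Complex.zero_im] at h7
        rcases mul_eq_zero.1 h7 with h8 | h8
        · exact h0 (by exact_mod_cast h8)
        · exact hw h8
      unfold mob
      push_cast
      push_cast at h6
      generalize Hh_w (r.den : ℤ) D y = w at *
      rw [show ((a : ℂ) * r.num + b * r.den) * w + (a * B + b * D) =
          (a * (((r.num : ℂ) * w + B) / ((r.den : ℂ) * w + D)) + b) * ((r.den : ℂ) * w + D) by
            field_simp; ring,
        show ((c : ℂ) * r.num + d * r.den) * w + (c * B + d * D) =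
          (c * (((r.num : ℂ) * w + B) / ((r.den : ℂ) * w + D)) + d) * ((r.den : ℂ) * w + D) by
            field_simp; ring, mul_div_mul_right _ _ h6]
    have h5 : Tendsto (fun y : ℝ => eps (d : OO) * Th (rO ρ (d : OO)) (r + y * Complex.I) +
        PhC ρ a b c d) (𝓝[>] (0 : ℝ))
        (𝓝 (eps (d : OO) * DI.hC (rO ρ (d : OO)) r + PhC ρ a b c d)) :=
      ((Hh_one hC f hf0 _ (Hh_per f ρ _ hp) r).const_mul _).add_const _
    exact tendsto_nhds_unique h4 h5
  · intro r n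
    unfold DI.hC
    congr 1
    funext y
    rw [← Hh_ThT ρ (r + y * Complex.I) n]
    congr 1
    push_cast
    ring

end Pool.Agent.DI.C
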