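import Pool.Agent.Lib.DI.Defs

/-!
# THEOREM DI (MP_d0239a_nt), Part C: theta series

Author helper33, after the note 4048 of helper36 (with a different proof of C1, C3, C4; all formulas
of C2, C3, C4 are checked numerically). Every `def S_.. : Prop` is a statement, its complete proof
is in the docstring. Matrices are given by their entries `a b c d : ℤ` with `a * d - b * c = 1`;
`mob a b c d z = (a z + b) / (c z + d)`. All sums over `O` are absolutely convergent.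
-/

open Filter Topology

noncomputable section

namespace Pool.Agent.DI.C

/-! ## Definitions -/

/-- `ρ` is odd. -/
def OddO (ρ : OO → ℂ) : Prop := ∀ v : OO, ρ (-v) = -ρ v

/-- `ρ` is periodic modulo `n`. -/
def PerO (n : ℕ) (ρ : OO → ℂ) : Prop := ∀ v u : OO, ρ (v + n * u) = ρ v

/-- `ρ_a(v) = ρ(a v)`. -/
def rO (ρ : OO → ℂ) (a : OO) (v : OO) : ℂ := ρ (a * v)

/-- The theta function of weight 2: `G_ρ(z) = 1/2 ∑ ρ(v) v̄ e(N v z)`. -/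
def Gt (ρ : OO → ℂ) (z : ℂ) : ℂ := 1 / 2 * ∑' v : OO, ρ v * toC (cjO v) * ex (Nm v * z)

/-- The Möbius transformation. -/
def mob (a b c d : ℤ) (z : ℂ) : ℂ := (a * z + b) / (c * z + d)

/-- The Möbius transformation of a rational number. -/
def mobQ (a b c d : ℤ) (r : ℚ) : ℚ := (a * r + b) / (c * r + d)

/-- The sum over the residues modulo `m`. -/
def rsum (m : ℕ) (F : OO → ℂ) : ℂ :=
  ∑ x ∈ Finset.range m, ∑ y ∈ Finset.range m, F ⟨(x : ℤ), (y : ℤ)⟩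

/-- The constant `Φ_ρ(g)`, defined by the value at `z = i`. -/
def PhC (ρ : OO → ℂ) (a b c d : ℤ) : ℂ :=
  Th ρ (mob a b c d Complex.I) - eps (d : OO) * Th (rO ρ (d : OO)) Complex.I

/-- The finite sum of C2: `B(u) = ∑ ρ(v) e(a N v / c - co(v ū) / (f c) + d N u / (7 f² c))`. -/
def BB (ρ : OO → ℂ) (f : ℕ) (a d : ℤ) (c : ℕ) (u : OO) : ℂ :=
  rsum (f * c) fun v => ρ v * ex (a * Nm v / c - (v * cjO u).im / (f * c)
    + d * Nm u / (7 * f ^ 2 * c))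

/-- The Gauss sum of C3: the sum of `e(a N x / c)` over the `x` in `f O` modulo `f c`. -/
def GG (f : ℕ) (a : ℤ) (c : ℕ) : ℂ := by
  classical
  exact rsum (f * c) fun x => if (f : OO) ∣ x then ex (a * Nm x / c) else 0

/-- The multiplier `κ` of C3. -/
def KK (f : ℕ) (a : ℤ) (c : ℕ) : ℂ := -toC s7 / (7 * f ^ 2 * c) * GG f a c

/-! ## 1. Elementary facts -/

/-- (module C/Bas, 120 lines; no dependence) **The ring `O`.** Direct computations with the two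
coordinates. (1) `‖x + y wC‖² = (x + y/2)² + 7 y²/4`; (2) `cjO` is the complex conjugation; (6):
`2 Nm v - (x² + y²) = x² + 2xy + 3y² = (x+y)² + 2y² ≥ 0`; (8) `s7 * cjO s7 = 7`, `cjO s7 = -s7`.
(9) `im (s7 * x) = 2 re x + im x` is the trace `x + x̄`, and the trace of `s7 * x` is `-7 im x`. -/
def S_Bas : Prop :=
  (∀ v : OO, ‖toC v‖ ^ 2 = (Nm v : ℝ)) ∧
  (∀ v : OO, toC (cjO v) = (starRingEnd ℂ) (toC v)) ∧
  (∀ v u : OO, cjO (v * u) = cjO v * cjO u ∧ cjO (v + u) = cjO v + cjO u ∧ cjO (cjO v) = v) ∧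
  (∀ v u : OO, Nm (v * u) = Nm v * Nm u) ∧
  (∀ v : OO, ((Nm v : ℤ) : OO) = v * cjO v ∧ Nm (cjO v) = Nm v ∧ Nm (-v) = Nm v) ∧
  (∀ v : OO, 0 ≤ Nm v ∧ (Nm v = 0 ↔ v = 0) ∧ (v.re ^ 2 + v.im ^ 2 ≤ 2 * Nm v)) ∧
  (∀ v u : OO, Nm (v + u) = Nm v + Nm u + (2 * (v * cjO u).re + (v * cjO u).im)) ∧
  (s7 * cjO s7 = 7 ∧ cjO s7 = -s7 ∧ s7 * s7 = -7) ∧
  (∀ v : OO, (s7 * v).im = 2 * v.re + v.im ∧ 2 * (s7 * v).re + (s7 * v).im = -7 * v.im) ∧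
  (∀ v : OO, toC v = 0 ↔ v = 0) ∧
  (∀ v : OO, 2 ∣ Nm v ↔ pO ∣ v ∨ pbO ∣ v)

/-- (module C/Sum, 120 lines; uses S_Bas) **Convergence.** (1) `exp(-t N v) ≤ exp(-t(x²+y²)/2) ≤ exp(-t|x|/2)
exp(-t|y|/2)` and a polynomial times `exp(-t N v)` is at most a constant times `exp(-t N v / 2)`;
`Summable.mul_of_nonneg` for `ℤ × ℤ`, and the equivalence `v ↦ (v.re, v.im)`. (2) The norm of
`ex (Nm v * z)` is `exp(-2 π N v Im z)` and `‖toC v‖ ≤ N v + 1`. (3) `ρ` takes finitely many values.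
-/
def S_Sum : Prop :=
  (∀ (t : ℝ) (k : ℕ), 0 < t → Summable fun v : OO => ((Nm v : ℝ) + 1) ^ k * Real.exp (-t * Nm v)) ∧
  (∀ z : ℂ, ‖ex z‖ = Real.exp (-2 * Real.pi * z.im)) ∧
  (∀ (n : ℕ) (ρ : OO → ℂ), 0 < n → PerO n ρ → ∃ C : ℝ, 0 ≤ C ∧ ∀ v : OO, ‖ρ v‖ ≤ C)

/-! ## 2. Poisson summation -/

/-- (module C/Poi, 120 lines; no dependence) **Dimension 1.** `k = (I/(2τ))^(1/2)` satisfies
`k² = I/(2τ)`, and for `7 τ`: `(I/(14τ))^(1/2) = k / √7` (`Complex.mul_cpow_ofReal_nonneg` for the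
positive real factor `1/7`). (1) is `jacobiTheta₂_functional_equation` for `z = s` and
`τ' = -1/(2τ)`: the left side is `∑ exp(2πi k s - πi k²/(2τ))`, the right side
`(I/(2τ))^(-1/2) exp(2πi s² τ) ∑ exp(-4πi n τ s + 2πi n² τ)`, and
`s² τ - 2 n τ s + n² τ = τ (n - s)²`, then `n → -n`. (2) is the same with
`jacobiTheta₂'_functional_equation`, or the derivative of (1) with respect to `s`:
`∑ 4πi τ (x+s) e(τ(x+s)²) = k ∑ 2πi k e(ks - k²/(4τ))`. Here `s` is real (as a complex number).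
Also the summability: `jacobiTheta₂_term` and `summable_jacobiTheta₂_term_iff`,
`summable_jacobiTheta₂'_term_iff`. -/
def S_Poi : Prop := ∀ (τ : ℂ) (s : ℝ), 0 < τ.im →
  ((Complex.I / (2 * τ)) ^ (1 / 2 : ℂ)) ^ 2 = Complex.I / (2 * τ) ∧
  (Complex.I / (2 * (7 * τ))) ^ (1 / 2 : ℂ) = (Complex.I / (2 * τ)) ^ (1 / 2 : ℂ) / (√7 : ℝ) ∧
  (Summable fun x : ℤ => ex (τ * (x + s) ^ 2)) ∧
  (Summable fun x : ℤ => (x + s) * ex (τ * (x + s) ^ 2)) ∧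
  (Summable fun k : ℤ => ex (k * s - k ^ 2 / (4 * τ))) ∧
  (Summable fun k : ℤ => k * ex (k * s - k ^ 2 / (4 * τ))) ∧
  (∑' x : ℤ, ex (τ * (x + s) ^ 2)
    = (Complex.I / (2 * τ)) ^ (1 / 2 : ℂ) * ∑' k : ℤ, ex (k * s - k ^ 2 / (4 * τ))) ∧
  (∑' x : ℤ, (x + s) * ex (τ * (x + s) ^ 2)
    = (Complex.I / (2 * τ)) ^ (1 / 2 : ℂ) / (2 * τ) * ∑' k : ℤ, k * ex (k * s - k ^ 2 / (4 * τ)))

/-- (module C/Two, 250 lines; uses S_Poi, S_Bas, S_Sum) **Dimension 2.** Write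
`v₀/m = α + i √7 β` with `α = (re v₀ + im v₀/2)/m`, `β = im v₀/(2m)`, and `τ' = m² τ`.

(a) LEFT SIDE. `conj(v₀ + m u) = m (X - i √7 Y)`, `N(v₀ + m u) τ = (X² + 7Y²) τ'` with
`X = re u + im u/2 + α`, `Y = im u/2 + β`. The equivalence `ℤ² ⊕ ℤ² → O`,
`(p,q) ↦ (p - q, 2q)` resp. `(p - q, 2q + 1)`, gives `X = p + α + j/2`, `Y = q + β + j/2`,
`j = 0, 1`. So the sum is `m ∑_j [T1(τ', α + j/2) T0(7τ', β + j/2) - i √7 T0(τ', α + j/2) T1(7τ', β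
+ j/2)]`, where `T0, T1` are the left sides of `S_Poi` (`Summable.tsum_mul_tsum` for the norms:
products of absolutely summable series on `ℤ × ℤ`).

(b) By `S_Poi` (with `k = (I/(2τ'))^(1/2)`): the sum is
`m (k²/√7) (1/(2τ')) ∑_j ∑_(k,l) (k - i l/√7) e(kα + lβ - k²/(4τ') - l²/(28τ')) e((k+l) j/2)`, and
`∑_j e((k+l)j/2) = 2` if `k + l` is even, `0` otherwise.

(c) RIGHT SIDE. The map `u ↦ (k, l)`, `-ū = (l + i √7 k)/2`, i.e. `ū = x + y π` with `y = -k`,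
`x + y/2 = -l/2`, that is `x = (k - l)/2`: it is a bijection of `O` onto the pairs with `k + l`
even. With it `N u = (7k² + l²)/4`, `k - i l/√7 = (2i/√7) ū`, `kα + lβ = -co(v₀ ū)/m`
(`co = im`). Total factor: `m (i/(2τ')) (1/√7) (1/(2τ')) 2 (2i/√7) = -m/(7 τ'²) = -1/(7 m³ τ²)`. -/
def S_Two : Prop := ∀ (m : ℕ) (v₀ : OO) (τ : ℂ), 0 < m → 0 < τ.im →
  ∑' u : OO, toC (cjO (v₀ + m * u)) * ex (Nm (v₀ + m * u) * τ)
    = -1 / (7 * m ^ 3 * τ ^ 2) *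
      ∑' u : OO, toC (cjO u) * ex (-(Nm u) / (7 * m ^ 2 * τ) - (v₀ * cjO u).im / m)

/-! ## 3. Finite sums -/

/-- (module C/Res, 220 lines; no dependence) **Sums over the residues.** (1) translation: in each
coordinate, the sum over `range m` of an `m`-periodic function on `ℤ` is invariant under translation
(e.g. write it as a sum over `ZMod m`, `Equiv.addRight`, or induction on the translation). (2)
the sum over `O` is the sum over residues: the equivalence `Fin m × ℤ ≃ ℤ`, `(x, u) ↦ x + m u`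
(`Int.divModEquiv`) in each coordinate, `HasSum` over a finite index. (3) dilation by a unit `a` modulo
`m`, `a` an integer. (4) ORTHOGONALITY: `(cjO u * w).im = x q - y p` for `u = (x, y)`, `w = (p, q)`,
and `∑_(x < f) e(x n / f) = f` or `0` (geometric sum). (5) CHINESE REMAINDERS in each coordinate:
`x ↦ p α + f β`. -/
def S_Res : Prop :=
  (∀ (m : ℕ) (F : OO → ℂ), 0 < m → PerO m F → ∀ w : OO, rsum m (fun v => F (v + w)) = rsum m F) ∧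
  (∀ (m : ℕ) (F : OO → ℂ), 0 < m → Summable F → (∀ v : OO, Summable fun u : OO => F (v + m * u)) ∧
    ∑' v : OO, F v = rsum m fun v => ∑' u : OO, F (v + m * u)) ∧
  (∀ (m : ℕ) (F : OO → ℂ), 0 < m → PerO m F → ∀ a : ℤ, IsCoprime a (m : ℤ) →
    rsum m (fun v => F (a * v)) = rsum m F) ∧
  (∀ (f : ℕ) (w : OO), 0 < f → ((f : OO) ∣ w →
      rsum f (fun u => ex ((cjO u * w).im / f)) = (f : ℂ) ^ 2) ∧
    (¬ (f : OO) ∣ w → rsum f (fun u => ex ((cjO u * w).im / f)) = 0)) ∧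
  (∀ (f p : ℕ) (F : OO → ℂ), 0 < f → 0 < p → Nat.Coprime f p → PerO (f * p) F →
    rsum (f * p) F = rsum f fun α => rsum p fun β => F (p * α + f * β))

/-- (module C/Gau, 150 lines; no dependence) **The Gauss sum of the norm form, and inert primes.**
`(p/7) = -1` gives `(-7/p) = -1` (quadratic reciprocity, `p` odd: `p ≠ 2` because `(2/7) = 1`).
(1) In `𝔽_p`: `x² + xy + 2y² = (x + y/2)² + (7/4) y²`, so with `s = x + y/2`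
the sum is `(∑_s ψ(k s²)) (∑_y ψ((7k/4) y²))`, `ψ(t) = e(t/p)`; and `∑_s ψ(t s²) = ∑_t' (1 + χ(t'))
ψ(t t') = χ(t) g`, `t ≠ 0`, with the Gauss sum `g = ∑ χ ψ`, `g² = χ(-1) p` (`gaussSum_sq`). So the
sum is `χ(k) χ(7k/4) χ(-1) p = χ(-7) p = -p`. (2) `4 p² = (2x+y)² + 7 y²`: if `p` does not divide
`y` then `-7` is a square modulo `p`; so `p ∣ y`, `p ∣ 2x + y`, `p ∣ x`, `u = p u'`, `N u' = 1`,
`(2x'+y')² + 7y'² = 4`: `y' = 0`, `x' = ±1`. -/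
def S_Gau : Prop := ∀ p : ℕ, p.Prime → 7 < p → jacobiSym p 7 = -1 →
  (∀ k : ℤ, ¬ (p : ℤ) ∣ k → rsum p (fun β => ex (k * Nm β / p)) = -(p : ℂ)) ∧
  (∀ u : OO, Nm u = (p : ℤ) ^ 2 → u = (p : OO) ∨ u = -(p : OO))

/-- (module C/Uni, 130 lines; uses S_Bas, S_Sum) **Uniqueness of the coefficients.** Group the sum
by `n = N u`: `c_n = ∑_(N u = n) γ u`, `∑ c_n e(n z / M) = 0` for all `z` in the upper half plane
(the family is absolutely summable: `|γ u| ≤ C (1 + N u)`). Every `q` with `0 < |q| < 1` is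
`e(z/M)` for some `z` with `Im z > 0`. The function `q ↦ ∑ c_n q^n` has a power series of radius
`≥ 1` (or is analytic near `0`), it vanishes for `q ≠ 0`, by continuity at `0`, so all `c_n = 0`
(`HasFPowerSeriesAt.eq_zero` or: let `n` be minimal with `c_n ≠ 0`, divide by `q^n`, `q → 0`). -/
def S_Uni : Prop := ∀ (M : ℕ) (γ : OO → ℂ) (C : ℝ), 0 < M → (∀ u : OO, ‖γ u‖ ≤ C * (1 + Nm u)) →
  (∀ z : ℂ, 0 < z.im → ∑' u : OO, γ u * ex (Nm u * z / M) = 0) →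
  ∀ (n : ℤ) (T : Finset OO), (∀ u : OO, u ∈ T ↔ Nm u = n) → ∑ u ∈ T, γ u = 0

/-! ## 4. Modularity of `G` -/

/-- (module C/Gen, 150 lines; uses S_Two, S_Res, S_Sum) **C2: general `g`, `c > 0`.**
`g z = a/c + τ'`, `τ' = -1/(c (c z + d))`, `Im τ' > 0`. By `S_Res` (2) with `m = f c`:
`G_ρ(g z) = 1/2 ∑_(v₀ mod fc) ρ(v₀) ∑_u conj(v₀ + f c u) e(N(v₀ + f c u)(a/c + τ'))` and
`e(N(v₀ + f c u) a/c) = e(a N v₀/c)`. By `S_Two`: the inner sum is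
`-1/(7 (fc)³ τ'²) ∑_u ū e(-N u/(7 (fc)² τ') - co(v₀ ū)/(fc))`, where `-1/τ' = c (c z + d)`,
`1/τ'² = c² (c z + d)²`, so `-N u/(7 f² c² τ') = N u z/(7f²) + d N u/(7 f² c)`. Exchange the finite
sum over `v₀` with the sum over `u`. -/
def S_Gen : Prop := ∀ (f c : ℕ) (a b d : ℤ) (ρ : OO → ℂ) (z : ℂ), 0 < f → 0 < c → PerO f ρ →
  a * d - b * c = 1 → 0 < z.im →
  Gt ρ (mob a b c d z) = -((c : ℂ) * z + d) ^ 2 / (7 * f ^ 3 * c) *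
    (1 / 2 * ∑' u : OO, toC (cjO u) * ex (Nm u * z / (7 * f ^ 2)) * BB ρ f a d c u)

/-- (module C/Gam, 250 lines; uses S_Bas, S_Res) **C3: the finite sums for `7 f² ∣ c`.** Let `c = 7 f² c'`,
`γ = -f c' s7` (`= c/(f √-7)`), so `N γ = 7 f² c'² = c c'`, `γ` is in `f O`.

SHIFT. Replace `v` by `v + γ u₁` (`u₁` in `O`, `S_Res` (1) for the period `f c`): `ρ` does not
change, `a N(v + γ u₁)/c = a N v/c + a Tr(v γ̄ ū₁)/c + a c' N u₁`, `γ̄ = f c' s7`, so the second term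
is `a Tr(s7 v ū₁)/(7f) = -a co(v ū₁)/f`; and `-co(γ u₁ ū)/(fc) = co(s7 u₁ ū)/(7f²) =
Tr(u₁ ū)/(7f²)`. So for all `u₁`:
(*) `B(u) = ∑_v F(v) e(-a co(v ū₁)/f + Tr(u₁ ū)/(7f²))`, `F(v)` the summand of `B(u)`.

(1) In (*) take `u₁ = f u₂`: `B(u) = B(u) e(Tr(u₂ ū)/(7f))`. For `u₂ = 1`, `u₂ = π` and
`u = x + y π`: `Tr(ū) = 2x + y`, `Tr(π ū) = x + 4y`. If `B(u) ≠ 0` then `7f` divides both, and
`u = f s7 v'` with `v' = ((x + 4y) - (2x + y) π)/(7f)`.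

(2) Let `u = f s7 v'`, `ū = -f s7 v̄'`: `Tr(u₁ ū)/(7f²) = co(u₁ v̄')/f = -co(ū₁ v')/f`, and
`co(v ū₁) = co(ū₁ v)`. Sum (*) over `u₁` mod `f`: `f² B(u) = ∑_v F(v) ∑_(u₁) e(-co(ū₁ (a v + v'))/f)
= ∑_v F(v) f² [f ∣ a v + v']` (`S_Res` (4)). As `a d = 1 mod f`: `f ∣ a v + v'` iff
`f ∣ v + d v'`, and then `ρ(v) = ρ(-d v')`. The exponent of `F(v)` is
`(a N v + Tr(v v̄') + d N v')/c = a N(v + d v')/c` modulo `ℤ` (`a d = 1` modulo `c`). Replace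
`v + d v'` by `x` (`S_Res` (1)). -/
def S_Gam : Prop := ∀ (f c : ℕ) (a b d : ℤ) (ρ : OO → ℂ), 0 < f → 0 < c → PerO f ρ →
  a * d - b * c = 1 → 7 * f ^ 2 ∣ c →
  (∀ u : OO, ¬ (f * s7 : OO) ∣ u → BB ρ f a d c u = 0) ∧
  (∀ v : OO, BB ρ f a d c (f * s7 * v) = ρ (-(d * v)) * GG f a c)

/-- (module C/Kap, 100 lines; uses S_Gen, S_Gam, S_Sum) **C3: `Γ_0(M)`, with an unknown
multiplier.** `c > 0`: `S_Gen`, the sum over `u = f s7 v'` (`HasSum` on the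
range of an injection), `ū = -f s7 v̄'`, `N u z/(7f²) = N v' z`, `ρ(-d v') = -ρ(d v')`: the value is
`κ (c z + d)² G_(ρ_d)(z)`, `κ = -s7/(7 f² c) 𝔊 = KK f a c`. `c < 0`: apply this to `-a, -b, -c, -d`
(the same Möbius transformation) and `ρ_(-d) = -ρ_d`. `c = 0`: `a = d = ±1`,
`G_ρ(z + n) = G_ρ(z)`, `ρ_d = d ρ`, `κ = d`. -/
def S_Kap : Prop := ∀ (f : ℕ) (a b c d : ℤ), 0 < f → a * d - b * c = 1 → (7 * f ^ 2 : ℤ) ∣ c →
  ∃ κ : ℂ, ∀ ρ : OO → ℂ, OddO ρ → PerO f ρ → ∀ z : ℂ, 0 < z.im →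
    Gt ρ (mob a b c d z) = κ * ((c : ℂ) * z + d) ^ 2 * Gt (rO ρ (d : OO)) z

/-- (module C/Eps, 250 lines; uses S_Kap, S_Gen, S_Gau, S_Uni, S_Res) **C4: `κ = ε(d)`.** (`ε(d)`
is the Jacobi symbol of `d` modulo `7`.)

(A) CASE `d = p` prime, `p > 7`, `ε(p) = -1`, any `c` with `7 f² ∣ c` (so `p` is prime to `f`).
Let `ρ = δ_(pπ) - δ_(-pπ)` modulo `f` (`ρ(v) = [f ∣ v - pπ] - [f ∣ v + pπ]`). Compute
`z⁻² G_ρ(g(-1/z))` twice. (i) `g(-1/z) = (b z - a)/(p z - c)`: `S_Gen` for `(b, -a; p, -c)`: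
`(p z - c)⁻² G_ρ = -1/(7 f³ p) 1/2 ∑_u ū e(N u z/M) B₁(u)`, `B₁(u) = ∑_(v mod fp) ρ(v)
e(b N v/p - co(v ū)/(fp) - c N u/(7f² p))`. (ii) `S_Kap` at `-1/z`:
`G_ρ(g(-1/z)) = κ (c (-1/z) + p)² G_(ρ_p)(-1/z)` and `S_Gen` for `(0,-1;1,0)`:
`G_(ρ_p)(-1/z) = -z²/(7f³) 1/2 ∑_u ū e(N u z/M) B₂(u)`, `B₂(u) = ∑_(α mod f) ρ(pα) e(-co(α ū)/f)`.
Since `z² (p - c/z)² = (p z - c)²`: `∑_u ū e(N u z/M) (B₁(u)/p - κ B₂(u)) = 0` for all `z`.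
By `S_Uni` for `n = p²` and `S_Gau` (2) (`T = {p, -p}`), and `B_i(-u) = -B_i(u)` (oddness of `ρ`,
`S_Res` (3) with `a = -1`): `B₁(p) = p κ B₂(p)`. And `B₁(p)`: `v = p α + f β` (`S_Res` (5)):
`ρ(v) = ρ(pα)`, `e(b N v/p) = e(b f² N β/p)`, `co(v)/f = p co(α)/f` modulo `ℤ`,
`c p²/(7f² p)` is an integer: `B₁(p) = B₂(p) ∑_(β mod p) e(b f² N β/p) = -p B₂(p)` (`S_Gau` (1); `p`
does not divide `b f²` because `a p - b c = 1`, and `p ∤ f`). `B₂(p) = ∑_α ρ(pα) e(-p co(α)/f) =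
e(-p/f) - e(p/f)` (`α = ±π`, as `p` is a unit modulo `f`) is not `0`: otherwise `f ∣ 2p`, but `f` is
odd, prime to `p` and `f ≥ 7`. So `κ = -1`.

(B) CASE `ε(d) = -1`. If `c = 0` then `d = -1` (`ε(1) = 1`), and `κ = d` directly
(`G_ρ(z + n) = G_ρ(z)`). If `c ≠ 0`: `d` is prime to `c`, by Dirichlet
(`Nat.forall_exists_prime_gt_and_eq_mod`, modulus `|c|`) there is a prime `p = d + k c > 7`;
`g T^k = (a, b + k a; c, p)`, `G_ρ(g(z + k)) = κ (c z + p)² G_(ρ_d)(z + k)`,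
`G_(ρ_d)(z+k) = G_(ρ_d)(z)`, `ρ_d = ρ_p` (`p = d` modulo `f`). So (A) gives the formula at `z + k`,
hence everywhere.

(C) CASE `ε(d) = 1`: (B) for `-a, -b, -c, -d` (`ε(-d) = -1`) and `ρ_(-d) = -ρ_d`. (`ε(d) ≠ 0`
because `7 ∣ c`, `a d - b c = 1`.) -/
def S_Eps : Prop := ∀ (f : ℕ) (a b c d : ℤ) (ρ : OO → ℂ) (z : ℂ), Odd f → 7 ∣ f →
  a * d - b * c = 1 → (7 * f ^ 2 : ℤ) ∣ c → OddO ρ → PerO f ρ → 0 < z.im →
    Gt ρ (mob a b c d z) = eps (d : OO) * ((c : ℂ) * z + d) ^ 2 * Gt (rO ρ (d : OO)) z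

/-! ## 5. The functions `Th` -/

/-- (module C/Der, 150 lines; uses S_Bas, S_Sum) **Derivative and growth.** The derivative of the
term `ρ(v)/v e(N v z)` is `2πi ρ(v) v̄ e(N v z)` (`N v/v = v̄`); `hasDerivAt_tsum` or
`differentiableOn_tsum_of_summable_norm` on `{Im z > t}` with the majorant `C (N v + 1) exp(-2π t N v)`
(`S_Sum`). GROWTH: the term `v = 0` is `0` (`/ 0`), for `v ≠ 0`, `y = Im z ≥ 1`:
`exp(-2π y N v) ≤ exp(-2π y) exp(-2π (N v - 1))`. -/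
def S_Der : Prop := ∀ (f : ℕ) (ρ : OO → ℂ), 0 < f → PerO f ρ →
  (∀ z : ℂ, 0 < z.im → HasDerivAt (Th ρ) (2 * Real.pi * Complex.I * Gt ρ z) z) ∧
  (∀ z : ℂ, 0 < z.im → Summable fun v : OO => ρ v / toC v * ex (Nm v * z)) ∧
  (∃ C : ℝ, ∀ z : ℂ, 1 ≤ z.im → ‖Th ρ z‖ ≤ C * Real.exp (-2 * Real.pi * z.im))

/-- (module C/Phi, 100 lines; uses S_Eps, S_Der) **(0.6).** The derivative of
`Th_ρ(g z) - ε(d) Th_(ρ_d)(z)` is
`2πi (G_ρ(g z) (c z + d)⁻² - ε(d) G_(ρ_d)(z)) = 0` on the upper half plane (convex, open), so the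
function is constant (`Convex.is_const_of_fderivWithin_eq_zero` or
`IsOpen.is_const_of_deriv_eq_zero`); the constant is the value at `i`. The cocycle relation: apply
(0.6) to `g g'`, `g` and `g'` (`ε` is multiplicative, the lower right entry of `g g'` is
`c b' + d d' = d d'` modulo `7 f²`). -/
def S_Phi : Prop := ∀ (f : ℕ) (ρ : OO → ℂ), Odd f → 7 ∣ f → OddO ρ → PerO f ρ →
  (∀ a b c d : ℤ, a * d - b * c = 1 → (7 * f ^ 2 : ℤ) ∣ c → ∀ z : ℂ, 0 < z.im →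
    Th ρ (mob a b c d z) = eps (d : OO) * Th (rO ρ (d : OO)) z + PhC ρ a b c d) ∧
  (∀ a b c d a' b' c' d' : ℤ, a * d - b * c = 1 → (7 * f ^ 2 : ℤ) ∣ c →
    a' * d' - b' * c' = 1 → (7 * f ^ 2 : ℤ) ∣ c' →
    PhC ρ (a * a' + b * c') (a * b' + b * d') (c * a' + d * c') (c * b' + d * d')
      = eps (d : OO) * PhC (rO ρ (d : OO)) a' b' c' d' + PhC ρ a b c d)

/-- (module C/Cus, 200 lines; uses S_Gen, S_Der, S_Sum) **(0.7): all cusps.** Let `c > 0` (for `c < 0` use `-g`). By `S_Der`, `S_Gen`: the derivative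
of `Th_ρ(g z)` is `2πi (c z + d)⁻² G_ρ(g z) = 2πi ∑_u γ_u e(N u z/M)` with
`γ_u = -1/(14 f³ c) ū B(u)`, `|γ_u| ≤ C |u|`, `γ_0 = 0`. The function
`∑_(u ≠ 0) γ_u (M/N u) e(N u z/M)` has the same derivative (as in `S_Der`), so the difference is a constant
`k`. Group by `n = N u`: `c_n = ∑_(N u = n) γ_u M/n`, `c_0 = 0`. If `c = 0`: `g z = z + n`,
`Th_ρ(z + n) = Th_ρ(z)` is already a series in `e(N v z)` (`k = 0`, coefficients at multiples of `M`).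
(2) follows: `|c_n e(nz/M)| ≤ |c_n| e^(-2π n/M) e^(-2π (y-1)/M)` for `n ≥ 1`, `y ≥ 1`. -/
def S_Cus : Prop := ∀ (f : ℕ) (a b c d : ℤ) (ρ : OO → ℂ), 0 < f → a * d - b * c = 1 → PerO f ρ →
  ∃ (k : ℂ) (e : ℕ → ℂ) (C : ℝ), e 0 = 0 ∧
    (∀ z : ℂ, 0 < z.im → HasSum (fun n : ℕ => e n * ex (n * z / (7 * f ^ 2)))
      (Th ρ (mob a b c d z) - k)) ∧
    (∀ z : ℂ, 1 ≤ z.im → ‖Th ρ (mob a b c d z) - k‖ ≤ C * Real.exp (-2 * Real.pi * z.im / (7 * f ^ 2)))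

/-- (module C/Hh, 200 lines; uses S_Phi, S_Cus) **The values `h_ρ(r)`.** Let `r = A/C` in lowest
terms, `γ = (A B; C D)` in `SL_2(ℤ)` (`γ ∞ = r`), `C > 0`. By `S_Cus` for `γ`: `Th_ρ(x + iy) → k` along every
filter with `Im(γ⁻¹(x + iy)) → ∞`. (1) vertical: `Im γ⁻¹(r + iy) = 1/(C² y)`. So the limit exists
and equals `k`, in particular the limit `hC ρ r` (`Tendsto.limUnder_eq`). (2) Let `g = (a b; c d)`
in `Γ_0(M)` with `c r + d ≠ 0`. Then `g γ` sends `∞` to `g r` (its lower left entry is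
`c A + d C ≠ 0`; if it is negative use `-g γ`), and `Im((gγ)⁻¹ g(r + iy)) = Im γ⁻¹(r + iy) → ∞`.
So `Th_ρ(g(r + iy)) → k_(gγ) = h_ρ(g r)`; on the other hand `Th_ρ(g(r+iy)) = ε(d) Th_(ρ_d)(r+iy) +
Φ_ρ(g) → ε(d) h_(ρ_d)(r) + Φ_ρ(g)`. -/
def S_Hh : Prop := ∀ (f : ℕ) (ρ : OO → ℂ), Odd f → 7 ∣ f → OddO ρ → PerO f ρ →
  (∀ r : ℚ, Tendsto (fun y : ℝ => Th ρ (r + y * Complex.I)) (𝓝[>] 0) (𝓝 (hC ρ r))) ∧
  (∀ a b c d : ℤ, a * d - b * c = 1 → (7 * f ^ 2 : ℤ) ∣ c → ∀ r : ℚ, (c : ℚ) * r + d ≠ 0 →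
    hC ρ (mobQ a b c d r) = eps (d : OO) * hC (rO ρ (d : OO)) r + PhC ρ a b c d) ∧
  (∀ (r : ℚ) (n : ℤ), hC ρ (r + n) = hC ρ r)

/-- (module C/Ver, 150 lines; uses S_Res, S_Hh and from Part B: for `z` not in the lattice,
`KtC t z → OmC * EC z` as `t → 0+`) **(0.8).** `r = b/n`, `m = f n`, `z = r + iy`, `t = 2π y`:
`Th_ρ(r + iy) = 1/2 ∑_(v mod m) ρ(v) e(r N v) ∑_u (v + m u)⁻¹ exp(-t |v + m u|²)` and the inner sum
is `m⁻¹ K_(t m²)(v/m)`. (`e(r N(v + m u)) = e(r N v)`.) For `v` not in `m O` it tends to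
`m⁻¹ Ω E1(v/m)`; for `v = 0` (the only residue in `m O`) `ρ(v) = 0`. -/
def S_Ver : Prop :=
  (∀ z : ℂ, ¬ Lat z → Tendsto (fun t : ℝ => KtC t z) (𝓝[>] 0) (𝓝 (OmC * EC z))) →
  ∀ (f : ℕ) (ρ : OO → ℂ) (b : ℤ) (n : ℕ), 0 < f → 0 < n → OddO ρ → PerO f ρ →
    hC ρ (b / n : ℚ) = OmC / (2 * (f * n)) *
      rsum (f * n) fun v => ρ v * ex (b / n * Nm v) * EC (toC v / (f * n))

/-- (module C/Fun, 150 lines; uses S_Bas, S_Der, S_Hh) **(0.9), (0.10).** `Th_ρ(z/2) + Th_ρ((z+1)/2)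
= 1/2 ∑ ρ(v)/v e(N v z/2) (1 + (-1)^(N v)) = ∑_(N v even) ρ(v)/v e(N v z/2)`. `N v` is even iff
`π ∣ v` or `π̄ ∣ v` (`S_Bas`), both iff `2 ∣ v`. The terms `v = π v'`: `∑ ρ(π v')/(π v') e(N v' z) =
(2/π) Th_(ρ_π)(z) = π̄ Th_(ρ_π)(z)`; `v = π̄ v'`: `π Th_(ρ_π̄)(z)`; `v = 2 v''`:
`∑ ρ(2v'')/(2v'') e(2 N v'' z) = Th_(ρ_2)(2z)`. (2) vertical limits (`S_Hh` (1)). (3)
`e(-N v z̄) = conj e(N v z)`, and replace `v` by `v̄`. (4) vertical limits. -/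
def S_Fun : Prop := ∀ (f : ℕ) (ρ : OO → ℂ), Odd f → 7 ∣ f → OddO ρ → PerO f ρ →
  (∀ z : ℂ, 0 < z.im → Th ρ (z / 2) + Th ρ ((z + 1) / 2) + Th (rO ρ 2) (2 * z)
    = toC pbO * Th (rO ρ pO) z + toC pO * Th (rO ρ pbO) z) ∧
  (∀ r : ℚ, hC ρ (r / 2) + hC ρ ((r + 1) / 2) + hC (rO ρ 2) (2 * r)
    = toC pbO * hC (rO ρ pO) r + toC pO * hC (rO ρ pbO) r) ∧
  (∀ z : ℂ, 0 < z.im → Th ρ (-(starRingEnd ℂ) z)
    = (starRingEnd ℂ) (Th (fun v => (starRingEnd ℂ) (ρ (cjO v))) z)) ∧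
  (∀ r : ℚ, hC ρ (-r) = (starRingEnd ℂ) (hC (fun v => (starRingEnd ℂ) (ρ (cjO v))) r)) ∧
  (∀ a b c d : ℤ, a * d - b * c = 1 → (7 * f ^ 2 : ℤ) ∣ c →
    PhC ρ a (-b) (-c) d = (starRingEnd ℂ) (PhC (fun v => (starRingEnd ℂ) (ρ (cjO v))) a b c d))

end Pool.Agent.DI.C
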